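import Pool.Agent.Helper17.AB.Defs

/-!
Block AB-AF: iterates of the permutation.

Paper proof. All by induction on `j` with `sm F c (j+1) n = c n + sm F c j (F n)` (`Finset.sum_range_succ'`, `Function.iterate_succ_apply`):
`F^[j+1] (n + p^(c n + sm F c j (F n)) K) = F^[j] (F (n + p^(c n) (p^(sm F c j (F n)) K))) = F^[j] (F n + p'^(e n) p^(sm F c j (F n)) K)
= F^[j+1] n + p'^(sm F e j (F n)) p'^(e n) K`; the same for the two sums with `cper`, `eper`.
-/

open Finset Filter

namespace Pool.Agent.Helper17.AB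

theorem sm_succ (F c : ℕ → ℕ) (j n : ℕ) : sm F c (j + 1) n = c n + sm F c j (F n) := by
  unfold sm
  rw [Finset.sum_range_succ', add_comm]
  simp [Function.iterate_succ_apply]

theorem sm_add (F c : ℕ → ℕ) (i j n : ℕ) : sm F c (i + j) n = sm F c i n + sm F c j (F^[i] n) := by
  unfold sm
  rw [Finset.sum_range_add]
  congr 1
  refine Finset.sum_congr rfl fun x _ => ?_
  rw [← Function.iterate_add_apply, add_comm]

theorem sm_bounds {F c : ℕ → ℕ} (h1 : ∀ n, 1 ≤ c n) (h2 : ∀ n, c n ≤ 2) (j n : ℕ) : j ≤ sm F c j n ∧ sm F c j n ≤ 2 * j := by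
  induction j generalizing n with
  | zero => simp [sm]
  | succ j ih =>
    rw [sm_succ]
    have a := ih (F n)
    have b := h1 n
    have d := h2 n
    omega

variable {p p' : ℕ} {F G c e : ℕ → ℕ}

theorem Sys.iter (h : Sys p p' F G c e) (j n K : ℕ) :
    F^[j] (n + p ^ sm F c j n * K) = F^[j] n + p' ^ sm F e j n * K := by
  induction j generalizing n K with
  | zero => simp [sm]
  | succ j ih =>
    rw [sm_succ, sm_succ, Function.iterate_succ_apply, Function.iterate_succ_apply, pow_add, mul_assoc, h.aff]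
    have e1 : F n + p' ^ e n * (p ^ sm F c j (F n) * K) = F n + p ^ sm F c j (F n) * (p' ^ e n * K) := by ring
    rw [e1, ih]
    ring

theorem Sys.smc (h : Sys p p' F G c e) (j n K : ℕ) : sm F c j (n + p ^ sm F c j n * K) = sm F c j n := by
  induction j generalizing n K with
  | zero => simp [sm]
  | succ j ih =>
    rw [sm_succ, sm_succ, pow_add, mul_assoc, h.cper, h.aff]
    have e1 : F n + p' ^ e n * (p ^ sm F c j (F n) * K) = F n + p ^ sm F c j (F n) * (p' ^ e n * K) := by ring
    rw [e1, ih]

theorem Sys.sme (h : Sys p p' F G c e) (j n K : ℕ) : sm F e j (n + p ^ sm F c j n * K) = sm F e j n := by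
  induction j generalizing n K with
  | zero => simp [sm]
  | succ j ih =>
    rw [sm_succ F c, sm_succ F e, sm_succ F e, pow_add, mul_assoc, h.eper, h.aff]
    have e1 : F n + p' ^ e n * (p ^ sm F c j (F n) * K) = F n + p ^ sm F c j (F n) * (p' ^ e n * K) := by ring
    rw [e1, ih]

end Pool.Agent.Helper17.AB
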