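import Pool.Agent.Helper17.AB.Defs

/-!
Block AB-AU: basic facts on automata.

Paper proofs.
* `block_v`: induction on `L`: `M < k^(L+1)`, `M = k M' + d` with `M' < k^L`, `d < k`: `k^(L+1) n + M = k (k^L n + M') + d`; `step`.
* `block`: `block_v` and `out` (`k^L n + M ≥ 1`).
* `cblock`: `c k^L n + M` with `M < c k^L`: `M = k^L u + M'`, `u < c`, `M' < k^L`: it is `k^L (c n + u) + M'`.
* `fin_prog`: for `n = k^i u + r`, `r < k^i`: `n + k^i q m = k^i (u + q m) + r`, so for `u + q m ≥ 1` membership in `S` depends only on `v (u + q m)`: there is `A : Set V` (depending on `n`, `i`) with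
  `n + k^i q m ∈ S ↔ v (u + q m) ∈ A` for `u + q m ≥ 1` (`A` = set of the `v w` with `w ≥ 1`, `k^i w + r ∈ S`; by `block`). Moreover `u = q u1 + u0`, `u0 < q`: `u + q m = u0 + q (m + u1)`.
-/

open Finset Filter

namespace Pool.Agent.Helper17.AB

variable {k : ℕ} {V : Type} {v : ℕ → V} {S : Set ℕ}

theorem Aut.block_v (h : Aut k v S) {n n' : ℕ} (hn : 1 ≤ n) (hn' : 1 ≤ n') (hv : v n = v n') (L M : ℕ) (hM : M < k ^ L) :
    v (k ^ L * n + M) = v (k ^ L * n' + M) := by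
  have hk : 0 < k := by have := h.k2; omega
  induction L generalizing M with
  | zero =>
    have hM0 : M = 0 := by simpa using hM
    subst hM0
    simpa using hv
  | succ L ih =>
    have h1 : M / k < k ^ L := by
      rw [Nat.div_lt_iff_lt_mul hk]
      rwa [pow_succ] at hM
    have h2 := ih (M / k) h1
    have hpos : ∀ j : ℕ, 1 ≤ j → 1 ≤ k ^ L * j + M / k := fun j hj => by
      have h3 : 1 ≤ k ^ L := Nat.one_le_pow _ _ hk
      have h4 : 1 * 1 ≤ k ^ L * j := Nat.mul_le_mul h3 hj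
      exact le_trans h4 (Nat.le_add_right _ _)
    have e : ∀ j : ℕ, k ^ (L + 1) * j + M = k * (k ^ L * j + M / k) + M % k := fun j => by
      have h5 := Nat.div_add_mod M k
      rw [pow_succ, Nat.mul_add, add_assoc, h5]
      ring
    rw [e n, e n']
    exact h.step _ _ _ (hpos n hn) (hpos n' hn') (Nat.mod_lt _ hk) h2

theorem Aut.block (h : Aut k v S) {n n' : ℕ} (hn : 1 ≤ n) (hn' : 1 ≤ n') (hv : v n = v n') (L M : ℕ) (hM : M < k ^ L) :
    k ^ L * n + M ∈ S ↔ k ^ L * n' + M ∈ S := by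
  have hk : 0 < k := by have := h.k2; omega
  have hpos : ∀ j : ℕ, 1 ≤ j → 1 ≤ k ^ L * j + M := fun j hj => by
    have h3 : 1 ≤ k ^ L := Nat.one_le_pow _ _ hk
    have h4 : 1 * 1 ≤ k ^ L * j := Nat.mul_le_mul h3 hj
    omega
  exact h.out _ _ (hpos n hn) (hpos n' hn') (h.block_v hn hn' hv L M hM)

theorem Aut.cblock (h : Aut k v S) {c n n' : ℕ} (hc : 1 ≤ c) (hn : 1 ≤ n) (hn' : 1 ≤ n')
    (hv : ∀ u < c, v (c * n + u) = v (c * n' + u)) (L M : ℕ) (hM : M < c * k ^ L) :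
    c * k ^ L * n + M ∈ S ↔ c * k ^ L * n' + M ∈ S := by
  have hk : 0 < k := by have := h.k2; omega
  have hkL : 0 < k ^ L := pow_pos hk L
  have hu : M / k ^ L < c := by rwa [Nat.div_lt_iff_lt_mul hkL]
  have hpos : ∀ j : ℕ, 1 ≤ j → 1 ≤ c * j + M / k ^ L := fun j hj => by
    have h4 : 1 * 1 ≤ c * j := Nat.mul_le_mul hc hj
    exact le_trans h4 (Nat.le_add_right _ _)
  have e : ∀ j : ℕ, c * k ^ L * j + M = k ^ L * (c * j + M / k ^ L) + M % k ^ L := fun j => by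
    have h5 := Nat.div_add_mod M (k ^ L)
    rw [Nat.mul_add, add_assoc, h5]
    ring
  rw [e n, e n']
  exact h.block (hpos n hn) (hpos n' hn') (hv _ hu) L _ (Nat.mod_lt _ hkL)

theorem Aut.fin_prog (h : Aut k v S) (q : ℕ) (hq : 1 ≤ q) (n i : ℕ) :
    ∃ (A : Set V) (u0 u1 : ℕ), u0 < q ∧ ∀ m, 1 ≤ u0 + q * (m + u1) → (n + k ^ i * q * m ∈ S ↔ v (u0 + q * (m + u1)) ∈ A) := by
  have hk : 0 < k := by have := h.k2; omega
  have hki : 0 < k ^ i := pow_pos hk i
  refine ⟨{x | ∃ w, 1 ≤ w ∧ v w = x ∧ k ^ i * w + n % k ^ i ∈ S}, n / k ^ i % q, n / k ^ i / q, Nat.mod_lt _ hq,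
    fun m hm => ?_⟩
  have e : n + k ^ i * q * m = k ^ i * (n / k ^ i % q + q * (m + n / k ^ i / q)) + n % k ^ i := by
    have h5 := Nat.div_add_mod n (k ^ i)
    have h6 := Nat.div_add_mod (n / k ^ i) q
    have h7 : n / k ^ i % q + q * (m + n / k ^ i / q) = n / k ^ i + q * m := by
      rw [Nat.mul_add]
      omega
    rw [h7, Nat.mul_add]
    calc n + k ^ i * q * m = (k ^ i * (n / k ^ i) + n % k ^ i) + k ^ i * q * m := by rw [h5]
      _ = k ^ i * (n / k ^ i) + k ^ i * (q * m) + n % k ^ i := by ring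
  constructor
  · intro hS
    exact ⟨_, hm, rfl, by rwa [← e]⟩
  · rintro ⟨w, hw, hvw, hS⟩
    rw [e]
    exact (h.block hw hm hvw i _ (Nat.mod_lt _ hki)).1 hS

theorem Aut.compl (h : Aut k v S) : Aut k v Sᶜ where
  k2 := h.k2
  fin := h.fin
  out n n' hn hn' hv := by
    rw [Set.mem_compl_iff, Set.mem_compl_iff]
    exact not_congr (h.out n n' hn hn' hv)
  step := h.step

end Pool.Agent.Helper17.AB
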