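import Pool.Agent.Helper17.AB.SmoothA

/-!
Block AB-CBa: local periods (only `fw`, `local_per`).

Paper proofs.
* `fw` (`P, Q ≥ 1`, induction on `P + Q`): if `P = Q`, the gcd is `P`. If `Q < P`: for `w ∈ [s + Q, t)`, `g (w + (P - Q)) = g ((w - Q) + P) = g (w - Q) = g w`; so `g` has the local periods `P - Q` and `Q` on `[s + Q, t)`, induction:
  `gcd` is a local period on `[s + Q + (P - Q) + Q, t) = [s + P + Q, t)`; `Nat.gcd (P - Q) Q = Nat.gcd P Q`. Symmetric if `P < Q`.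
* `digits`: induction on `a`, `b`: `g n = g n' → g (c n + r) = g (c n' + r)` for `c = 2^a 3^b`, `r < c`: `r = 2 r' + e`: `2 c n + r = 2 (c n + r') + e` (`n ≥ 1` keeps arguments `≥ 1`).
* `local_per`: pigeonhole: `y ≥ 1`, `t ≥ 1` with `g y = g (y + t)`. `close 2 3` with `ε = 1 / (y + 3 t)`: `2^p < 3^q < (1 + ε) 2^p`. `D = (3^q - 2^p) t`, `A = 3^q y + 2^p t`, `B = 2^p (y + t + 1)`. For `u = 2^a 3^b` and `w ∈ [A u, B u)`:
  put `z = w - 2^p u t`. Then `z ≥ 3^q y u ≥ 2^p u y` and `z < 2^p u (y + 1) ≤ 3^q u (y+1)`, so `g z = g (z + 2^p u t) = g w` (`digits` with `c = 2^p u`: `z = c y + r`, `r < c`) and `g z = g (z + 3^q u t) = g (w + D u)` (`c = 3^q u`).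
  `A + 3 D < B`: `B - A - 3 D = 2^p - (3^q - 2^p) (y + 3 t) > 0`.
* `cobham`: let `κ = A + 3 D < B` and `ε ≤ 1` with `(1 + ε) κ ≤ B`. For `n` large, `near2`, `near3` with `z = n / κ`: `u = 2^a 3^b` (`a ≤ a0`), `u' = 2^a' 3^b'` (`b' ≤ b0`) with `u ≤ n / κ < (1 + ε) u` and the same for `u'`. So
  `A u + D u + D u' ≤ (A + D + 2 D) u ≤ n` (`u' ≤ n / κ < 2 u`), and `A u' + D u + D u' ≤ n`, `n < (1 + ε) κ u ≤ B u`, `n < B u'`. By `fw` with `s = max (A u) (A u')`, `t = min (B u) (B u')`: `g (n + gcd (D u) (D u')) = g n`, but `D0 = D 2^a0 3^b0` is a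
  multiple of `gcd (D u) (D u') = D gcd(u, u')`, `gcd(u,u') = 2^(min a a') 3^(min b b')`. To use the multiple: apply `fw` at `n, n + γ, n + 2 γ, ...`: all these points `≤ n + D0` have to be in the window `[s + D u + D u', t)`; so take `κ` slightly
  below: choose the parameters with `(1 + ε) κ < B` strictly, so that `n + D0 < B u`, `B u'` for `n` large (`(B - (1+ε) κ) u → ∞` as `n → ∞`).
-/

namespace Pool.Agent.Helper17.AB

theorem fw {W : Type*} (g : ℕ → W) (P Q s t : ℕ) (hP : 1 ≤ P) (hQ : 1 ≤ Q) (h1 : ∀ w, s ≤ w → w < t → g (w + P) = g w)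
    (h2 : ∀ w, s ≤ w → w < t → g (w + Q) = g w) : ∀ w, s + P + Q ≤ w → w < t → g (w + Nat.gcd P Q) = g w := by
  induction hn : P + Q using Nat.strong_induction_on generalizing P Q s with
  | _ n ih =>
    intro w hw1 hw2
    rcases lt_trichotomy P Q with h | h | h
    · have h3 := ih (P + (Q - P)) (by omega) P (Q - P) (s + P) hP (by omega)
        (fun v hv1 hv2 => h1 v (by omega) hv2)
        (fun v hv1 hv2 => by
          have e1 := h1 (v - P) (by omega) (by omega)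
          have e2 := h2 (v - P) (by omega) (by omega)
          rw [show v - P + P = v by omega] at e1
          rw [show v - P + Q = v + (Q - P) by omega] at e2
          rw [e2, e1]) rfl w (by omega) hw2
      rwa [Nat.gcd_sub_self_right h.le] at h3
    · subst h
      rw [Nat.gcd_self]
      exact h1 w (by omega) hw2
    · have h3 := ih ((P - Q) + Q) (by omega) (P - Q) Q (s + Q) (by omega) hQ
        (fun v hv1 hv2 => by
          have e1 := h1 (v - Q) (by omega) (by omega)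
          have e2 := h2 (v - Q) (by omega) (by omega)
          rw [show v - Q + Q = v by omega] at e2
          rw [show v - Q + P = v + (P - Q) by omega] at e1
          rw [e1, e2])
        (fun v hv1 hv2 => h2 v (by omega) hv2) rfl w (by omega) hw2
      rwa [Nat.gcd_sub_self_left h.le] at h3

private theorem step68 {W : Type*} (g : ℕ → W) (k c : ℕ) (hk : 1 ≤ k) (hc0 : 1 ≤ c)
    (hg : ∀ n n' r, 1 ≤ n → 1 ≤ n' → r < k → g n = g n' → g (k * n + r) = g (k * n' + r))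
    (hc : ∀ n n' r, 1 ≤ n → 1 ≤ n' → r < c → g n = g n' → g (c * n + r) = g (c * n' + r)) :
    ∀ n n' r, 1 ≤ n → 1 ≤ n' → r < k * c → g n = g n' → g (k * c * n + r) = g (k * c * n' + r) := by
  intro n n' r hn hn' hr h
  have h1 : r / k < c := by
    rw [Nat.div_lt_iff_lt_mul hk, mul_comm]
    exact hr
  have h2 := hc n n' (r / k) hn hn' h1 h
  have h3 : ∀ m, 1 ≤ m → 1 ≤ c * m + r / k := fun m hm => by
    have h6 := Nat.mul_le_mul hc0 hm
    exact le_trans h6 (Nat.le_add_right _ _)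
  have h4 := hg _ _ (r % k) (h3 n hn) (h3 n' hn') (Nat.mod_lt _ hk) h2
  have h5 : ∀ m, k * (c * m + r / k) + r % k = k * c * m + r := fun m => by
    have := Nat.div_add_mod r k
    calc k * (c * m + r / k) + r % k = k * c * m + (k * (r / k) + r % k) := by ring
      _ = _ := by rw [this]
  rwa [h5, h5] at h4

private theorem digits68 {W : Type*} (g : ℕ → W)
    (h2 : ∀ n n' r, 1 ≤ n → 1 ≤ n' → r < 2 → g n = g n' → g (2 * n + r) = g (2 * n' + r))
    (h3 : ∀ n n' r, 1 ≤ n → 1 ≤ n' → r < 3 → g n = g n' → g (3 * n + r) = g (3 * n' + r)) (a b : ℕ) :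
    ∀ n n' r, 1 ≤ n → 1 ≤ n' → r < 2 ^ a * 3 ^ b → g n = g n' →
      g (2 ^ a * 3 ^ b * n + r) = g (2 ^ a * 3 ^ b * n' + r) := by
  induction b with
  | zero =>
    rw [pow_zero, mul_one]
    induction a with
    | zero =>
      intro n n' r _ _ hr h
      rw [pow_zero] at hr ⊢
      obtain rfl : r = 0 := by omega
      simpa using h
    | succ a ih =>
      have h4 := step68 g 2 (2 ^ a) (by norm_num) Nat.one_le_two_pow h2 ih
      rwa [← pow_succ'] at h4
  | succ b ih =>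
    have h5 : 1 ≤ 2 ^ a * 3 ^ b := Nat.one_le_iff_ne_zero.2 (by positivity)
    have h4 := step68 g 3 (2 ^ a * 3 ^ b) (by norm_num) h5 h3 ih
    have h6 : 3 * (2 ^ a * 3 ^ b) = 2 ^ a * 3 ^ (b + 1) := by
      rw [pow_succ]
      ring
    rwa [h6] at h4

theorem local_per {W : Type*} (g : ℕ → W) (hfin : (g '' {n | 1 ≤ n}).Finite)
    (h2 : ∀ n n' r, 1 ≤ n → 1 ≤ n' → r < 2 → g n = g n' → g (2 * n + r) = g (2 * n' + r))
    (h3 : ∀ n n' r, 1 ≤ n → 1 ≤ n' → r < 3 → g n = g n' → g (3 * n + r) = g (3 * n' + r)) :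
    ∃ A B D : ℕ, 1 ≤ D ∧ A + 3 * D < B ∧ ∀ a b w, A * (2 ^ a * 3 ^ b) ≤ w → w < B * (2 ^ a * 3 ^ b) →
      g (w + D * (2 ^ a * 3 ^ b)) = g w := by
  have hinf : {n : ℕ | 1 ≤ n}.Infinite := Set.infinite_of_not_bddAbove fun ⟨M, hM⟩ => by
    have := hM (show M + 1 ∈ {n : ℕ | 1 ≤ n} from Nat.le_add_left 1 M)
    omega
  have hyt : ∃ y t : ℕ, 1 ≤ y ∧ 1 ≤ t ∧ g y = g (y + t) := by
    obtain ⟨n, hn, n', hn', hne, h⟩ := hinf.exists_ne_map_eq_of_mapsTo (Set.mapsTo_image g _) hfin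
    have hn1 : 1 ≤ n := hn
    have hn1' : 1 ≤ n' := hn'
    rcases lt_or_gt_of_ne hne with h1 | h1
    · refine ⟨n, n' - n, hn1, by omega, ?_⟩
      rw [show n + (n' - n) = n' by omega]
      exact h
    · refine ⟨n', n - n', hn1', by omega, ?_⟩
      rw [show n' + (n - n') = n by omega]
      exact h.symm
  obtain ⟨y, t, hy, ht, hyt⟩ := hyt
  have hpos : (0 : ℝ) < y + 3 * t := by
    have : (1 : ℝ) ≤ y := by exact_mod_cast hy
    positivity
  obtain ⟨q, p, hq, hp, hlt, hlt2⟩ := close 2 3 le_rfl (by norm_num) (by norm_num) (1 / (y + 3 * t))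
    (by positivity)
  have hlt' : 2 ^ p < 3 ^ q := by exact_mod_cast hlt
  obtain ⟨E, hE⟩ : ∃ E, 3 ^ q = 2 ^ p + E := ⟨3 ^ q - 2 ^ p, by omega⟩
  have hE1 : 1 ≤ E := by omega
  have hE2 : E * (y + 3 * t) < 2 ^ p := by
    have e1 : ((3 : ℕ) : ℝ) ^ q = 2 ^ p + E := by exact_mod_cast hE
    rw [e1] at hlt2
    have e2 : (E : ℝ) < 2 ^ p / (y + 3 * t) := by
      have : (1 + 1 / ((y : ℝ) + 3 * t)) * ((2 : ℕ) : ℝ) ^ p = 2 ^ p + 2 ^ p / (y + 3 * t) := by
        push_cast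
        ring
      rw [this] at hlt2
      linarith
    rw [lt_div_iff₀ hpos] at e2
    exact_mod_cast e2
  refine ⟨(2 ^ p + E) * y + 2 ^ p * t, 2 ^ p * (y + t + 1), E * t, Nat.mul_pos hE1 ht, by nlinarith, ?_⟩
  intro a b w hw1 hw2
  set u := 2 ^ a * 3 ^ b with hu
  have hu1 : 1 ≤ u := Nat.one_le_iff_ne_zero.2 (by positivity)
  have hc1 : 2 ^ (a + p) * 3 ^ b = 2 ^ p * u := by
    rw [hu, pow_add]
    ring
  have hc2 : 2 ^ a * 3 ^ (b + q) = (2 ^ p + E) * u := by
    rw [hu, ← hE, pow_add]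
    ring
  have hz0 : 2 ^ p * u * t ≤ w := by
    refine le_trans ?_ hw1
    have e1 : ((2 ^ p + E) * y + 2 ^ p * t) * u = 2 ^ p * u * t + (2 ^ p + E) * y * u := by ring
    rw [e1]
    exact Nat.le_add_right _ _
  obtain ⟨z, rfl⟩ : ∃ z, w = z + 2 ^ p * u * t := ⟨w - 2 ^ p * u * t, by omega⟩
  have hz1 : (2 ^ p + E) * u * y ≤ z := by nlinarith
  have hz2 : z < 2 ^ p * u * (y + 1) := by nlinarith
  have hz3 : 2 ^ p * u * y ≤ z := by
    refine le_trans ?_ hz1
    gcongr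
    omega
  have hz4 : z < (2 ^ p + E) * u * (y + 1) := by
    refine lt_of_lt_of_le hz2 ?_
    gcongr
    omega
  have d1 := digits68 g h2 h3 (a + p) b y (y + t) (z - 2 ^ p * u * y) hy (by omega) (by
    rw [hc1]
    have : 2 ^ p * u * (y + 1) = 2 ^ p * u * y + 2 ^ p * u := by ring
    omega) hyt
  have d2 := digits68 g h2 h3 a (b + q) y (y + t) (z - (2 ^ p + E) * u * y) hy (by omega) (by
    rw [hc2]
    have : (2 ^ p + E) * u * (y + 1) = (2 ^ p + E) * u * y + (2 ^ p + E) * u := by ring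
    omega) hyt
  rw [hc1] at d1
  rw [hc2] at d2
  rw [show 2 ^ p * u * y + (z - 2 ^ p * u * y) = z by omega,
    show 2 ^ p * u * (y + t) + (z - 2 ^ p * u * y) = z + 2 ^ p * u * t by rw [mul_add]; omega] at d1
  rw [show (2 ^ p + E) * u * y + (z - (2 ^ p + E) * u * y) = z by omega,
    show (2 ^ p + E) * u * (y + t) + (z - (2 ^ p + E) * u * y) = z + 2 ^ p * u * t + E * t * u by
      have e1 : (2 ^ p + E) * u * (y + t) = (2 ^ p + E) * u * y + (2 ^ p * u * t + E * t * u) := by ring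
      rw [e1]
      omega] at d2
  rw [← d1, ← d2]

end Pool.Agent.Helper17.AB
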