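import Pool.Agent.Helper17.AB.SmoothA

/-!
Block AB-SMb: only `near2`, `near3`.

Paper proofs.
* `close` (`p, q ≥ 2` coprime): `log p / log q` is irrational (otherwise `p^a = q^b` with `a, b ≥ 1`, contradicting coprimality), so `{x log q - y log p}` takes arbitrarily small positive values: e.g. by pigeonhole /
  Dirichlet (`Real.exists_int_int_abs_mul_sub_le`) there are arbitrarily small nonzero `x log q - y log p` with `x, y ≥ 1`; if it is negative, `-δ`, take the multiple `i` with `i δ` just below `log p`... : `i (x log q - y log p) + log p ∈ (0, δ]`: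
  for `i = ⌈log p / δ⌉ - 1` we have `0 < log p - i δ ≤ δ` — exponents `i x`, `i y - 1`, so one needs `i ≥ 2` (`δ` small) to keep them `≥ 1`. Then exponentiate: `1 < q^x / p^y < 1 + ε`.
* `near2`: with `r = 3^x / 2^y ∈ (1, 1 + ε)` and `N` with `3 ≤ r^N`: let `z ≥ 2^(y N)`. Choose `b` with `2^(yN) 3^b ≤ z < 2^(yN) 3^(b+1)` and `i` maximal with `2^(yN) 3^b r^i ≤ z`; `i ≤ N` since `r^N ≥ 3` (so `i < N`);
  `u = 2^(y (N - i)) 3^(x i + b) = 2^(yN) 3^b r^i`, `u ≤ z < r u`. The exponent of `2` is at most `y N`.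
* `near3`: the same with `2^a` in place of `3^b`: `2^(yN + a) ≤ z < 2^(yN + a + 1)`, `u = 2^(y (N - i) + a) 3^(x i)`, exponent of `3` at most `x N`.
-/

namespace Pool.Agent.Helper17.AB

/-- the common argument: `s = 2` or `3` is the base of the coarse steps, `c` a constant factor -/
private theorem step_h93 {r c s z : ℝ} {N : ℕ} (hr : 1 < r) (hN : 3 ≤ r ^ N) (hs1 : 1 < s) (hs3 : s ≤ 3) (hc : 0 < c)
    (hz : c ≤ z) : ∃ b i : ℕ, i < N ∧ c * s ^ b * r ^ i ≤ z ∧ z < r * (c * s ^ b * r ^ i) := by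
  classical
  -- the largest power of `s`
  have hex : ∃ b : ℕ, z < c * s ^ (b + 1) := by
    obtain ⟨b, hb⟩ := pow_unbounded_of_one_lt (z / c) hs1
    refine ⟨b, ?_⟩
    rw [div_lt_iff₀ hc] at hb
    calc z < s ^ b * c := hb
      _ ≤ s ^ (b + 1) * c := mul_le_mul_of_nonneg_right (pow_le_pow_right₀ hs1.le (Nat.le_succ b)) hc.le
      _ = c * s ^ (b + 1) := mul_comm _ _
  obtain ⟨b, hb1, hb2⟩ : ∃ b : ℕ, c * s ^ b ≤ z ∧ z < c * s ^ (b + 1) := by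
    refine ⟨Nat.find hex, ?_, Nat.find_spec hex⟩
    rcases Nat.eq_zero_or_pos (Nat.find hex) with h0 | h0
    · rw [h0, pow_zero, mul_one]
      exact hz
    · obtain ⟨m, hm⟩ : ∃ m, Nat.find hex = m + 1 := ⟨Nat.find hex - 1, by omega⟩
      have := Nat.find_min hex (show m < Nat.find hex by omega)
      rw [hm]
      exact not_lt.mp this
  have hcs : 0 < c * s ^ b := mul_pos hc (pow_pos (by linarith) b)
  have hex2 : ∃ i : ℕ, z < c * s ^ b * r ^ (i + 1) := by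
    refine ⟨N, ?_⟩
    calc z < c * s ^ (b + 1) := hb2
      _ = c * s ^ b * s := by rw [pow_succ]; ring
      _ ≤ c * s ^ b * r ^ N := mul_le_mul_of_nonneg_left (hs3.trans hN) hcs.le
      _ ≤ c * s ^ b * r ^ (N + 1) := mul_le_mul_of_nonneg_left (pow_le_pow_right₀ hr.le (Nat.le_succ N)) hcs.le
  have hi1 : c * s ^ b * r ^ (Nat.find hex2) ≤ z := by
    rcases Nat.eq_zero_or_pos (Nat.find hex2) with h0 | h0
    · rw [h0, pow_zero, mul_one]
      exact hb1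
    · obtain ⟨m, hm⟩ : ∃ m, Nat.find hex2 = m + 1 := ⟨Nat.find hex2 - 1, by omega⟩
      have := Nat.find_min hex2 (show m < Nat.find hex2 by omega)
      rw [hm]
      exact not_lt.mp this
  refine ⟨b, Nat.find hex2, ?_, hi1, ?_⟩
  · by_contra hcon
    have h1 : r ^ N ≤ r ^ (Nat.find hex2) := pow_le_pow_right₀ hr.le (not_lt.mp hcon)
    have h2 : c * s ^ (b + 1) ≤ z := by
      calc c * s ^ (b + 1) = c * s ^ b * s := by rw [pow_succ]; ring
        _ ≤ c * s ^ b * r ^ (Nat.find hex2) := mul_le_mul_of_nonneg_left (hs3.trans (hN.trans h1)) hcs.le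
        _ ≤ z := hi1
    linarith
  · calc z < c * s ^ b * r ^ (Nat.find hex2 + 1) := Nat.find_spec hex2
      _ = r * (c * s ^ b * r ^ (Nat.find hex2)) := by rw [pow_succ]; ring

private theorem ratio_h93 (ε : ℝ) (hε : 0 < ε) : ∃ x y N : ℕ, 1 < (3 : ℝ) ^ x / 2 ^ y ∧ (3 : ℝ) ^ x / 2 ^ y < 1 + ε ∧
    3 ≤ ((3 : ℝ) ^ x / 2 ^ y) ^ N := by
  obtain ⟨x, y, -, -, h1, h2⟩ := close 2 3 (le_refl 2) (by norm_num) (by norm_num) ε hε
  push_cast at h1 h2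
  have h0 : (0 : ℝ) < 2 ^ y := by positivity
  have h3 : 1 < (3 : ℝ) ^ x / 2 ^ y := by
    rw [lt_div_iff₀ h0, one_mul]
    exact h1
  obtain ⟨N, hN⟩ := pow_unbounded_of_one_lt 3 h3
  refine ⟨x, y, N, h3, ?_, hN.le⟩
  rw [div_lt_iff₀ h0]
  exact h2

theorem near2 (ε : ℝ) (hε : 0 < ε) : ∃ a0 : ℕ, ∃ Z : ℝ, ∀ z : ℝ, Z ≤ z → ∃ a b : ℕ, a ≤ a0 ∧
    (2 : ℝ) ^ a * 3 ^ b ≤ z ∧ z < (1 + ε) * (2 ^ a * 3 ^ b) := by
  obtain ⟨x, y, N, h1, h2, h3⟩ := ratio_h93 ε hε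
  refine ⟨y * N, 2 ^ (y * N), fun z hz => ?_⟩
  obtain ⟨b, i, hi, h4, h5⟩ := step_h93 (s := 3) h1 h3 (by norm_num) le_rfl (show (0 : ℝ) < 2 ^ (y * N) by positivity) hz
  have e : (2 : ℝ) ^ (y * N) * 3 ^ b * ((3 : ℝ) ^ x / 2 ^ y) ^ i = 2 ^ (y * (N - i)) * 3 ^ (x * i + b) := by
    obtain ⟨j, rfl⟩ : ∃ j, N = i + j := ⟨N - i, by omega⟩
    have e1 : i + j - i = j := by omega
    rw [e1, div_pow, ← pow_mul, ← pow_mul, mul_add, pow_add, pow_add]
    have : (2 : ℝ) ^ (y * i) ≠ 0 := by positivity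
    field_simp
  rw [e] at h4 h5
  refine ⟨y * (N - i), x * i + b, Nat.mul_le_mul_left _ (Nat.sub_le _ _), h4, h5.trans_le ?_⟩
  exact mul_le_mul_of_nonneg_right h2.le (by positivity)

theorem near3 (ε : ℝ) (hε : 0 < ε) : ∃ b0 : ℕ, ∃ Z : ℝ, ∀ z : ℝ, Z ≤ z → ∃ a b : ℕ, b ≤ b0 ∧
    (2 : ℝ) ^ a * 3 ^ b ≤ z ∧ z < (1 + ε) * (2 ^ a * 3 ^ b) := by
  obtain ⟨x, y, N, h1, h2, h3⟩ := ratio_h93 ε hε
  refine ⟨x * N, 2 ^ (y * N), fun z hz => ?_⟩
  obtain ⟨a, i, hi, h4, h5⟩ := step_h93 (s := 2) h1 h3 (by norm_num) (by norm_num) (show (0 : ℝ) < 2 ^ (y * N) by positivity) hz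
  have e : (2 : ℝ) ^ (y * N) * 2 ^ a * ((3 : ℝ) ^ x / 2 ^ y) ^ i = 2 ^ (y * (N - i) + a) * 3 ^ (x * i) := by
    obtain ⟨j, rfl⟩ : ∃ j, N = i + j := ⟨N - i, by omega⟩
    have e1 : i + j - i = j := by omega
    rw [e1, div_pow, ← pow_mul, ← pow_mul, mul_add, pow_add, pow_add]
    have : (2 : ℝ) ^ (y * i) ≠ 0 := by positivity
    field_simp
  rw [e] at h4 h5
  refine ⟨y * (N - i) + a, x * i, Nat.mul_le_mul_left _ hi.le, h4, h5.trans_le ?_⟩
  exact mul_le_mul_of_nonneg_right h2.le (by positivity)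

end Pool.Agent.Helper17.AB
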