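import Pool.Agent.Helper17.AB.CobA
import Pool.Agent.Helper17.AB.SmoothB

/-!
Block AB-CBb: a theorem of Cobham type (only `cobham`).

Paper proofs.
* `fw` (`P, Q ≥ 1`, induction on `P + Q`): if `P = Q`, the gcd is `P`. If `Q < P`: for `w ∈ [s + Q, t)`, `g (w + (P - Q)) = g ((w - Q) + P) = g (w - Q) = g w`; so `g` has the local periods `P - Q` and `Q` on `[s + Q, t)`, induction:
  `gcd` is a local period on `[s + Q + (P - Q) + Q, t) = [s + P + Q, t)`; `Nat.gcd (P - Q) Q = Nat.gcd P Q`. Symmetric if `P < Q`.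
* `digits`: induction on `a`, `b`: `g n = g n' → g (c n + r) = g (c n' + r)` for `c = 2^a 3^b`, `r < c`: `r = 2 r' + e`: `2 c n + r = 2 (c n + r') + e` (`n ≥ 1` keeps arguments `≥ 1`).
* `local_per`: pigeonhole: `y ≥ 1`, `t ≥ 1` with `g y = g (y + t)`. `close 2 3` with `ε = 1 / (y + 3 t)`: `2^p < 3^q < (1 + ε) 2^p`. `D = (3^q - 2^p) t`, `A = 3^q y + 2^p t`, `B = 2^p (y + t + 1)`. For `u = 2^a 3^b` and `w ∈ [A u, B u)`:
  put `z = w - 2^p u t`. Then `z ≥ 3^q y u ≥ 2^p u y` and `z < 2^p u (y + 1) ≤ 3^q u (y+1)`, so `g z = g (z + 2^p u t) = g w` (`digits` with `c = 2^p u`: `z = c y + r`, `r < c`) and `g z = g (z + 3^q u t) = g (w + D u)` (`c = 3^q u`).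
  `A + 3 D < B`: `B - A - 3 D = 2^p - (3^q - 2^p) (y + 3 t) > 0`.
* `cobham`: let `κ = A + 3 D < B` and `ε ≤ 1` with `(1 + ε) κ ≤ B`. For `n` large, `near2`, `near3` with `z = n / κ`: `u = 2^a 3^b` (`a ≤ a0`), `u' = 2^a' 3^b'` (`b' ≤ b0`) with `u ≤ n / κ < (1 + ε) u` and the same for `u'`. So
  `A u + D u + D u' ≤ (A + D + 2 D) u ≤ n` (`u' ≤ n / κ < 2 u`), and `A u' + D u + D u' ≤ n`, `n < (1 + ε) κ u ≤ B u`, `n < B u'`. By `fw` with `s = max (A u) (A u')`, `t = min (B u) (B u')`: `g (n + gcd (D u) (D u')) = g n`, but `D0 = D 2^a0 3^b0` is a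
  multiple of `gcd (D u) (D u') = D gcd(u, u')`, `gcd(u,u') = 2^(min a a') 3^(min b b')`. To use the multiple: apply `fw` at `n, n + γ, n + 2 γ, ...`: all these points `≤ n + D0` have to be in the window `[s + D u + D u', t)`; so take `κ` slightly
  below: choose the parameters with `(1 + ε) κ < B` strictly, so that `n + D0 < B u`, `B u'` for `n` large (`(B - (1+ε) κ) u → ∞` as `n → ∞`).
-/

namespace Pool.Agent.Helper17.AB

private theorem gcd_dvd65 (a b a' b' a0 b0 : ℕ) (ha : a ≤ a0) (hb : b' ≤ b0) :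
    Nat.gcd (2 ^ a * 3 ^ b) (2 ^ a' * 3 ^ b') ∣ 2 ^ a0 * 3 ^ b0 := by
  obtain ⟨d1, d2, h1, h2, h3⟩ :=
    Nat.dvd_mul.1 (Nat.gcd_dvd_left (2 ^ a * 3 ^ b) (2 ^ a' * 3 ^ b'))
  have h4 : d2 ∣ 2 ^ a' * 3 ^ b' := (Dvd.intro_left _ h3).trans (Nat.gcd_dvd_right _ _)
  have h32 : Nat.Coprime (3 ^ b) (2 ^ a') := Nat.Coprime.pow _ _ (by norm_num)
  have h5 : Nat.Coprime d2 (2 ^ a') := Nat.Coprime.coprime_dvd_left h2 h32
  have h6 : d2 ∣ 3 ^ b' := h5.dvd_of_dvd_mul_left h4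
  rw [← h3]
  exact Nat.mul_dvd_mul (h1.trans (pow_dvd_pow 2 ha)) (h6.trans (pow_dvd_pow 3 hb))

theorem cobham {W : Type*} (g : ℕ → W) (hfin : (g '' {n | 1 ≤ n}).Finite)
    (h2 : ∀ n n' r, 1 ≤ n → 1 ≤ n' → r < 2 → g n = g n' → g (2 * n + r) = g (2 * n' + r))
    (h3 : ∀ n n' r, 1 ≤ n → 1 ≤ n' → r < 3 → g n = g n' → g (3 * n + r) = g (3 * n' + r)) :
    ∃ D n0 : ℕ, 1 ≤ D ∧ ∀ n, n0 ≤ n → g (n + D) = g n := by
  obtain ⟨A, B, D, hD, hAB, hper⟩ := local_per g hfin h2 h3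
  obtain ⟨K, hK⟩ : ∃ K, K = A + 3 * D := ⟨_, rfl⟩
  have hK1 : 1 ≤ K := by omega
  have hKpos : (0 : ℝ) < K := by exact_mod_cast hK1
  have hε : (0 : ℝ) < 1 / (2 * K) := by positivity
  obtain ⟨a0, Z, hZ⟩ := near2 (1 / (2 * K)) hε
  obtain ⟨b0, Z', hZ'⟩ := near3 (1 / (2 * K)) hε
  obtain ⟨D0, hD0⟩ : ∃ D0, D0 = D * (2 ^ a0 * 3 ^ b0) := ⟨_, rfl⟩
  have hD0pos : 1 ≤ D0 := by
    rw [hD0]; exact Nat.mul_pos hD (by positivity)
  refine ⟨D0, max (Nat.ceil ((K : ℝ) * max Z Z')) (2 * D0 * (K + 1)), hD0pos, fun n hn => ?_⟩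
  have hn1 : (K : ℝ) * max Z Z' ≤ n :=
    (Nat.le_ceil _).trans (by exact_mod_cast (le_max_left _ _).trans hn)
  have hn2 : 2 * D0 * (K + 1) ≤ n := (le_max_right _ _).trans hn
  have hz : max Z Z' ≤ (n : ℝ) / K := by
    rw [le_div_iff₀ hKpos, mul_comm]; exact hn1
  obtain ⟨a, b, ha, hu1, hu2⟩ := hZ (n / K) ((le_max_left _ _).trans hz)
  obtain ⟨a', b', hb, hv1, hv2⟩ := hZ' (n / K) ((le_max_right _ _).trans hz)
  have key : ∀ u : ℕ, (u : ℝ) ≤ (n : ℝ) / K → (n : ℝ) / K < (1 + 1 / (2 * K)) * u →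
      K * u ≤ n ∧ n + D0 ≤ B * u := by
    intro u h4 h5
    rw [le_div_iff₀ hKpos] at h4
    rw [div_lt_iff₀ hKpos] at h5
    have h6 : (2 * n : ℝ) < (2 * K + 1) * u := by
      have : (1 + 1 / (2 * (K : ℝ))) * u * K = K * u + u / 2 := by
        field_simp
      rw [this] at h5
      linarith
    have h7 : K * u ≤ n := by
      have : (u * K : ℝ) ≤ n := h4
      rw [mul_comm]; exact_mod_cast this
    have h8 : 2 * n < (2 * K + 1) * u := by exact_mod_cast h6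
    refine ⟨h7, ?_⟩
    have h9 : 2 * D0 < u := by
      by_contra hcon
      push Not at hcon
      have h10 : (2 * K + 1) * u ≤ (2 * K + 1) * (2 * D0) := Nat.mul_le_mul_left _ hcon
      nlinarith
    have h11 : (K + 1) * u ≤ B * u := Nat.mul_le_mul_right _ (by omega)
    nlinarith
  obtain ⟨u, hu⟩ : ∃ u, u = 2 ^ a * 3 ^ b := ⟨_, rfl⟩
  obtain ⟨v, hv⟩ : ∃ v, v = 2 ^ a' * 3 ^ b' := ⟨_, rfl⟩
  have hu' : (u : ℝ) = 2 ^ a * 3 ^ b := by rw [hu]; push_cast; ring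
  have hv' : (v : ℝ) = 2 ^ a' * 3 ^ b' := by rw [hv]; push_cast; ring
  rw [← hu'] at hu1 hu2
  rw [← hv'] at hv1 hv2
  obtain ⟨hu3, hu4⟩ := key u hu1 hu2
  obtain ⟨hv3, hv4⟩ := key v hv1 hv2
  have hupos : 1 ≤ u := by rw [hu]; exact Nat.one_le_iff_ne_zero.2 (by positivity)
  have hvpos : 1 ≤ v := by rw [hv]; exact Nat.one_le_iff_ne_zero.2 (by positivity)
  have hfw := fw g (D * u) (D * v) (max (A * u) (A * v)) (min (B * u) (B * v))
    (Nat.mul_pos hD hupos) (Nat.mul_pos hD hvpos)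
    (fun w hw1 hw2 => by
      rw [hu]
      exact hper a b w (by rw [← hu]; exact (le_max_left _ _).trans hw1)
        (by rw [← hu]; exact lt_of_lt_of_le hw2 (min_le_left _ _)))
    (fun w hw1 hw2 => by
      rw [hv]
      exact hper a' b' w (by rw [← hv]; exact (le_max_right _ _).trans hw1)
        (by rw [← hv]; exact lt_of_lt_of_le hw2 (min_le_right _ _)))
  have hlow : max (A * u) (A * v) + D * u + D * v ≤ n := by
    rcases le_total u v with h | h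
    · have h1 : A * u ≤ A * v := Nat.mul_le_mul_left _ h
      have h2 : D * u ≤ D * v := Nat.mul_le_mul_left _ h
      rw [max_eq_right h1]
      have h3 : K * v = A * v + 3 * (D * v) := by rw [hK]; ring
      omega
    · have h1 : A * v ≤ A * u := Nat.mul_le_mul_left _ h
      have h2 : D * v ≤ D * u := Nat.mul_le_mul_left _ h
      rw [max_eq_left h1]
      have h3 : K * u = A * u + 3 * (D * u) := by rw [hK]; ring
      omega
  have hhigh : n + D0 ≤ min (B * u) (B * v) := le_min hu4 hv4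
  obtain ⟨q, hq⟩ : Nat.gcd (D * u) (D * v) ∣ D0 := by
    rw [Nat.gcd_mul_left, hD0, hu, hv]
    exact Nat.mul_dvd_mul_left _ (gcd_dvd65 a b a' b' a0 b0 ha hb)
  have hγ : 0 < Nat.gcd (D * u) (D * v) := Nat.gcd_pos_of_pos_left _ (Nat.mul_pos hD hupos)
  generalize hγd : Nat.gcd (D * u) (D * v) = γ at hq hγ hfw
  have hind : ∀ j, j ≤ q → g (n + γ * j) = g n := by
    intro j
    induction j with
    | zero => intro _; simp
    | succ j ih =>
      intro hj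
      have h4 : γ * (j + 1) ≤ D0 := by rw [hq]; exact Nat.mul_le_mul_left _ hj
      have h5 : γ * (j + 1) = γ * j + γ := by ring
      have h6 := hfw (n + γ * j) (by omega) (by omega)
      rw [h5, ← add_assoc, h6]
      exact ih (by omega)
  rw [hq]
  exact hind q le_rfl

end Pool.Agent.Helper17.AB
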