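import Pool.Agent.Helper17.AB.Mean1

/-!
Block AB-M3: shifts (only `lm_shift`).

Paper proof. `lm_split`: for `x = t m + i`, `i < t`, `m ≥ 1`: `|1/x - 1/(t m)| ≤ 1/(t m^2)·...`: `0 ≤ 1/(t m) - 1/(t m + i) = i / (t m (t m + i)) ≤ 1 / (t m^2)`, so
`∑_{x ∈ E, x ≤ N} 1/x` differs from `(1/t) ∑_{i < t} ∑_{1 ≤ m ≤ N, t m + i ∈ E} 1/m` by at most a constant `C_t` independent of `N`: the terms with `m = 0` contribute at most `t`,
`∑ 1/m^2 ≤ 2`, and replacing the range `t m + i ≤ N` by `m ≤ N` costs at most `∑_{N/t - 1 < m ≤ N} 1/m ≤ 2 t + 1` or so for each `i` (number of terms `≤ N`, each at most `1 / max(1, N/t - 1)`).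
Divide by `H_N → ∞` and pass to the limit along the hyperfilter.
`lm_shift`: it is enough to do `s = 1` (or argue directly): `∑_{m ≤ N, m + s ∈ E} 1/m` and `∑_{x ≤ N, x ∈ E} 1/x` differ by at most a constant: `1/m - 1/(m+s) ≤ s / m^2`, boundary terms at most `s`.
-/

open Finset Filter Topology

namespace Pool.Agent.Helper17.AB

private noncomputable def num32 (E : Set ℕ) (N : ℕ) : ℝ := by
  classical exact ∑ m ∈ (range (N + 1)).filter (· ∈ E), (1 / (m : ℝ))

private theorem pd_eq32 (E : Set ℕ) (N : ℕ) :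
    pd E N = num32 E N / (∑ m ∈ range (N + 1), (1 / (m : ℝ))) := rfl

private theorem num_diff32 (E : Set ℕ) (N : ℕ) : |num32 {m | m + 1 ∈ E} N - num32 E N| ≤ 3 := by
  classical
  obtain ⟨b, hb⟩ : ∃ b : ℕ → ℝ, b = fun m : ℕ => if m ∈ E then 1 / (m : ℝ) else 0 := ⟨_, rfl⟩
  obtain ⟨a, ha⟩ : ∃ a : ℕ → ℝ, a = fun m : ℕ => if m + 1 ∈ E then 1 / (m : ℝ) else 0 := ⟨_, rfl⟩
  obtain ⟨g, hg⟩ : ∃ g : ℕ → ℝ, g = fun m : ℕ => if m = 0 then 2 else 1 / (m : ℝ) := ⟨_, rfl⟩
  have h1 : num32 E N = ∑ m ∈ range (N + 1), b m := by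
    rw [hb]
    unfold num32
    rw [Finset.sum_filter]
  have h2 : num32 {m | m + 1 ∈ E} N = ∑ m ∈ range (N + 1), a m := by
    rw [ha]
    unfold num32
    rw [Finset.sum_filter]
    rfl
  have h3 : ∑ m ∈ range (N + 1), b m + b (N + 1) = ∑ m ∈ range (N + 1), b (m + 1) := by
    rw [← Finset.sum_range_succ, Finset.sum_range_succ']
    have : b 0 = 0 := by
      rw [hb]
      simp
    rw [this, add_zero]
  have h4 : ∀ m, |a m - b (m + 1)| ≤ g m - g (m + 1) := by
    intro m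
    rw [ha, hb, hg]
    rcases Nat.eq_zero_or_pos m with rfl | hm
    · by_cases h : 0 + 1 ∈ E
      · simp only [h, if_true]
        norm_num
      · simp only [h, if_false]
        norm_num
    · have hm' : (0 : ℝ) < m := by exact_mod_cast hm
      have hle : (1 : ℝ) / ((m + 1 : ℕ) : ℝ) ≤ 1 / (m : ℝ) := by
        apply one_div_le_one_div_of_le hm'
        push_cast
        linarith
      simp only [hm.ne', if_false, Nat.succ_ne_zero]
      by_cases h : m + 1 ∈ E
      · simp only [h, if_true]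
        rw [abs_of_nonneg (sub_nonneg.2 hle)]
      · simp only [h, if_false]
        rw [sub_zero, abs_zero]
        exact sub_nonneg.2 hle
  have h5 : |∑ m ∈ range (N + 1), (a m - b (m + 1))| ≤ 2 := by
    refine (Finset.abs_sum_le_sum_abs _ _).trans ?_
    refine (Finset.sum_le_sum fun m _ => h4 m).trans ?_
    rw [Finset.sum_range_sub']
    have h6 : g 0 = 2 := by rw [hg]; simp
    have h7 : 0 ≤ g (N + 1) := by
      rw [hg]
      simp only [Nat.succ_ne_zero, if_false]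
      positivity
    linarith
  have h8 : |b (N + 1)| ≤ 1 := by
    have h9 : (1 : ℝ) / ((N + 1 : ℕ) : ℝ) ≤ 1 := by
      rw [div_le_one (by positivity)]
      exact_mod_cast Nat.succ_le_succ (Nat.zero_le N)
    have h10 : (0 : ℝ) ≤ 1 / ((N + 1 : ℕ) : ℝ) := by positivity
    rw [hb]
    by_cases h : N + 1 ∈ E
    · simp only [h, if_true]
      rw [abs_of_nonneg h10]
      exact h9
    · simp only [h, if_false]
      rw [abs_zero]
      exact zero_le_one
  rw [Finset.sum_sub_distrib, ← h3] at h5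
  rw [h1, h2]
  rw [abs_le] at h5 h8 ⊢
  constructor <;> linarith [h5.1, h5.2, h8.1, h8.2]

private theorem lm_shift_one32 (E : Set ℕ) : lm {m | m + 1 ∈ E} = lm E := by
  have h1 : Tendsto (fun N : ℕ => 3 / ∑ m ∈ range (N + 1), (1 / (m : ℝ))) atTop (𝓝 0) :=
    HN_tendsto.const_div_atTop 3
  have h2 : Tendsto (fun N : ℕ => 3 / ∑ m ∈ range (N + 1), (1 / (m : ℝ)))
      (hyperfilter ℕ : Filter ℕ) (𝓝 0) := h1.mono_left Nat.hyperfilter_le_atTop
  have h3 : Tendsto (fun N => pd {m | m + 1 ∈ E} N - pd E N) (hyperfilter ℕ : Filter ℕ)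
      (𝓝 0) := by
    refine squeeze_zero_norm (fun N => ?_) h2
    have hH : 0 ≤ ∑ m ∈ range (N + 1), (1 / (m : ℝ)) := Finset.sum_nonneg fun m _ => by positivity
    rw [pd_eq32, pd_eq32, ← sub_div, Real.norm_eq_abs, abs_div, abs_of_nonneg hH]
    exact div_le_div_of_nonneg_right (num_diff32 E N) hH
  have h4 := (lm_tendsto {m | m + 1 ∈ E}).sub (lm_tendsto E)
  have h5 := tendsto_nhds_unique h4 h3
  linarith

theorem lm_shift (E : Set ℕ) (s : ℕ) : lm {m | m + s ∈ E} = lm E := by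
  induction s with
  | zero => rfl
  | succ s ih =>
    have h1 : {m | m + (s + 1) ∈ E} = {m | m + 1 ∈ {x | x + s ∈ E}} := by
      ext m
      show m + (s + 1) ∈ E ↔ m + 1 + s ∈ E
      rw [show m + (s + 1) = m + 1 + s by omega]
    rw [h1, lm_shift_one32, ih]

end Pool.Agent.Helper17.AB
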