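import Pool.Agent.Helper17.AB.Mean1

/-!
Block AB-M3b: dilations (only `lm_split`).

Paper proof. `lm_split`: for `x = t m + i`, `i < t`, `m ≥ 1`: `|1/x - 1/(t m)| ≤ 1/(t m^2)·...`: `0 ≤ 1/(t m) - 1/(t m + i) = i / (t m (t m + i)) ≤ 1 / (t m^2)`, so
`∑_{x ∈ E, x ≤ N} 1/x` differs from `(1/t) ∑_{i < t} ∑_{1 ≤ m ≤ N, t m + i ∈ E} 1/m` by at most a constant `C_t` independent of `N`: the terms with `m = 0` contribute at most `t`,
`∑ 1/m^2 ≤ 2`, and replacing the range `t m + i ≤ N` by `m ≤ N` costs at most `∑_{N/t - 1 < m ≤ N} 1/m ≤ 2 t + 1` or so for each `i` (number of terms `≤ N`, each at most `1 / max(1, N/t - 1)`).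
Divide by `H_N → ∞` and pass to the limit along the hyperfilter.
`lm_shift`: it is enough to do `s = 1` (or argue directly): `∑_{m ≤ N, m + s ∈ E} 1/m` and `∑_{x ≤ N, x ∈ E} 1/x` differ by at most a constant: `1/m - 1/(m+s) ≤ s / m^2`, boundary terms at most `s`.
-/

open Finset Filter Topology

namespace Pool.Agent.Helper17.AB

/-- the weight of a number in the set -/
private noncomputable def wt2 (E : Set ℕ) (x : ℕ) : ℝ := by
  classical exact if x ∈ E then 1 / (x : ℝ) else 0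

private theorem pd_eq2 (E : Set ℕ) (N : ℕ) :
    pd E N = (∑ x ∈ range (N + 1), wt2 E x) / (∑ m ∈ range (N + 1), (1 / (m : ℝ))) := by
  classical
  unfold pd wt2
  rw [sum_filter]

private theorem wt2_nonneg (E : Set ℕ) (x : ℕ) : 0 ≤ wt2 E x := by
  unfold wt2
  split_ifs
  · positivity
  · exact le_rfl

private theorem wt2_le (E : Set ℕ) (x : ℕ) : wt2 E x ≤ 1 / (x : ℝ) := by
  unfold wt2
  split_ifs
  · exact le_rfl
  · positivity

private theorem split_main2 (E : Set ℕ) (t : ℕ) (ht : 1 ≤ t) (N : ℕ) :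
    |∑ x ∈ range (t * (N + 1)), wt2 E x -
      (∑ i ∈ range t, ∑ m ∈ range (N + 1), wt2 {m | t * m + i ∈ E} m) / t| ≤
      t + 1 - 1 / ((N : ℝ) + 1) := by
  have ht0 : (0 : ℝ) < t := by exact_mod_cast ht
  induction N with
  | zero =>
    have h1 : ∀ i, ∑ m ∈ range (0 + 1), wt2 {m | t * m + i ∈ E} m = 0 := by
      intro i
      rw [zero_add, sum_range_one]
      unfold wt2
      split_ifs <;> simp
    simp only [h1, sum_const_zero, zero_div, sub_zero]
    rw [zero_add, mul_one, abs_of_nonneg (sum_nonneg fun x _ => wt2_nonneg E x)]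
    have h2 : ∑ x ∈ range t, wt2 E x ≤ ∑ x ∈ range t, (1 : ℝ) := by
      refine sum_le_sum fun x _ => (wt2_le E x).trans ?_
      rcases Nat.eq_zero_or_pos x with rfl | hx
      · simp
      · rw [div_le_one (by exact_mod_cast hx)]
        exact_mod_cast hx
    refine h2.trans ?_
    simp
  | succ N ih =>
    have h1 : ∑ x ∈ range (t * (N + 1 + 1)), wt2 E x =
        ∑ x ∈ range (t * (N + 1)), wt2 E x + ∑ i ∈ range t, wt2 E (t * (N + 1) + i) := by
      rw [mul_add t (N + 1) 1, mul_one, sum_range_add]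
    have h2 : ∑ i ∈ range t, ∑ m ∈ range (N + 1 + 1), wt2 {m | t * m + i ∈ E} m =
        ∑ i ∈ range t, ∑ m ∈ range (N + 1), wt2 {m | t * m + i ∈ E} m +
          ∑ i ∈ range t, wt2 {m | t * m + i ∈ E} (N + 1) := by
      rw [← sum_add_distrib]
      exact sum_congr rfl fun i _ => sum_range_succ _ _
    have h3 : |∑ i ∈ range t, wt2 E (t * (N + 1) + i) -
        (∑ i ∈ range t, wt2 {m | t * m + i ∈ E} (N + 1)) / t| ≤
        1 / ((N : ℝ) + 1) - 1 / ((N : ℝ) + 1 + 1) := by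
      rw [sum_div, ← sum_sub_distrib]
      refine (abs_sum_le_sum_abs _ _).trans ?_
      have h4 : ∀ i ∈ range t, |wt2 E (t * (N + 1) + i) - wt2 {m | t * m + i ∈ E} (N + 1) / t| ≤
          (1 / ((N : ℝ) + 1) - 1 / ((N : ℝ) + 1 + 1)) / t := by
        intro i hi
        rw [mem_range] at hi
        have hi' : (i : ℝ) ≤ t := by exact_mod_cast hi.le
        have hN : (0 : ℝ) < (N : ℝ) + 1 := by positivity
        have hN' : (0 : ℝ) < (N : ℝ) + 1 + 1 := by positivity
        unfold wt2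
        rw [show (N + 1 ∈ {m | t * m + i ∈ E}) = (t * (N + 1) + i ∈ E) from rfl]
        split_ifs with hE
        · have e1 : (0 : ℝ) < (t : ℝ) * (N + 1) + i := by positivity
          have e2 : 1 / ((t : ℝ) * (N + 1) + i) ≤ 1 / ((t : ℝ) * (N + 1)) :=
            one_div_le_one_div_of_le (by positivity) (by linarith [(Nat.cast_nonneg i : (0 : ℝ) ≤ i)])
          have e3 : 1 / ((t : ℝ) * (N + 1 + 1)) ≤ 1 / ((t : ℝ) * (N + 1) + i) :=
            one_div_le_one_div_of_le e1 (by linarith)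
          have e4 : (1 / ((N : ℝ) + 1) - 1 / ((N : ℝ) + 1 + 1)) / t =
              1 / ((t : ℝ) * (N + 1)) - 1 / ((t : ℝ) * (N + 1 + 1)) := by
            field_simp
          have e5 : (1 / ((N + 1 : ℕ) : ℝ)) / t = 1 / ((t : ℝ) * (N + 1)) := by
            push_cast
            field_simp
          rw [e4, e5]
          push_cast
          rw [abs_le]
          constructor <;> linarith
        · rw [zero_div, sub_zero, abs_zero]
          refine div_nonneg (sub_nonneg.2 ?_) ht0.le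
          exact one_div_le_one_div_of_le hN (by linarith)
      refine (sum_le_sum h4).trans ?_
      rw [sum_const, card_range, nsmul_eq_mul, mul_div_cancel₀ _ ht0.ne']
    rw [h1, h2, add_div]
    have h5 := abs_add_le (∑ x ∈ range (t * (N + 1)), wt2 E x -
      (∑ i ∈ range t, ∑ m ∈ range (N + 1), wt2 {m | t * m + i ∈ E} m) / t)
      (∑ i ∈ range t, wt2 E (t * (N + 1) + i) -
        (∑ i ∈ range t, wt2 {m | t * m + i ∈ E} (N + 1)) / t)
    rw [show ∑ x ∈ range (t * (N + 1)), wt2 E x + ∑ i ∈ range t, wt2 E (t * (N + 1) + i) -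
      ((∑ i ∈ range t, ∑ m ∈ range (N + 1), wt2 {m | t * m + i ∈ E} m) / t +
        (∑ i ∈ range t, wt2 {m | t * m + i ∈ E} (N + 1)) / t) =
      ∑ x ∈ range (t * (N + 1)), wt2 E x -
        (∑ i ∈ range t, ∑ m ∈ range (N + 1), wt2 {m | t * m + i ∈ E} m) / t +
        (∑ i ∈ range t, wt2 E (t * (N + 1) + i) -
          (∑ i ∈ range t, wt2 {m | t * m + i ∈ E} (N + 1)) / t) by ring]
    push_cast
    linarith

private theorem split_bd2 (E : Set ℕ) (t : ℕ) (ht : 1 ≤ t) (N : ℕ) :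
    |∑ x ∈ range (N + 1), wt2 E x -
      (∑ i ∈ range t, ∑ m ∈ range (N + 1), wt2 {m | t * m + i ∈ E} m) / t| ≤ 2 * t + 1 := by
  have h1 := split_main2 E t ht N
  obtain ⟨s, hs⟩ : ∃ s, t * (N + 1) = N + 1 + s := Nat.exists_eq_add_of_le (by nlinarith)
  have h2 : ∑ x ∈ range (t * (N + 1)), wt2 E x =
      ∑ x ∈ range (N + 1), wt2 E x + ∑ i ∈ range s, wt2 E (N + 1 + i) := by
    rw [hs, sum_range_add]
  have hN : (0 : ℝ) < (N : ℝ) + 1 := by positivity
  have h3 : 0 ≤ ∑ i ∈ range s, wt2 E (N + 1 + i) := sum_nonneg fun i _ => wt2_nonneg E _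
  have h4 : ∑ i ∈ range s, wt2 E (N + 1 + i) ≤ t := by
    have h5 : ∀ i ∈ range s, wt2 E (N + 1 + i) ≤ 1 / ((N : ℝ) + 1) := by
      intro i _
      refine (wt2_le E _).trans ?_
      refine one_div_le_one_div_of_le hN ?_
      push_cast
      linarith [(Nat.cast_nonneg i : (0 : ℝ) ≤ i)]
    refine (sum_le_sum h5).trans ?_
    rw [sum_const, card_range, nsmul_eq_mul, mul_one_div, div_le_iff₀ hN]
    have h6 : s ≤ t * (N + 1) := by omega
    exact_mod_cast h6
  have h7 : (0 : ℝ) < 1 / ((N : ℝ) + 1) := by positivity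
  rw [h2] at h1
  rw [abs_le] at h1 ⊢
  constructor <;> linarith

theorem lm_split (E : Set ℕ) (t : ℕ) (ht : 1 ≤ t) : lm E = (∑ i ∈ range t, lm {m | t * m + i ∈ E}) / t := by
  have h1 : Tendsto (fun N => (∑ i ∈ range t, pd {m | t * m + i ∈ E} N) / (t : ℝ))
      (hyperfilter ℕ : Filter ℕ) (𝓝 ((∑ i ∈ range t, lm {m | t * m + i ∈ E}) / t)) :=
    (tendsto_finsetSum _ fun i _ => lm_tendsto _).div_const _
  have h2 : Tendsto (fun N => pd E N - (∑ i ∈ range t, pd {m | t * m + i ∈ E} N) / (t : ℝ))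
      (hyperfilter ℕ : Filter ℕ) (𝓝 (lm E - (∑ i ∈ range t, lm {m | t * m + i ∈ E}) / t)) :=
    (lm_tendsto E).sub h1
  have h3 : Tendsto (fun N : ℕ => (2 * (t : ℝ) + 1) / ∑ m ∈ range (N + 1), (1 / (m : ℝ)))
      (hyperfilter ℕ : Filter ℕ) (𝓝 0) := (HN_tendsto.const_div_atTop _).mono_left Nat.hyperfilter_le_atTop
  have h4 : Tendsto (fun N => pd E N - (∑ i ∈ range t, pd {m | t * m + i ∈ E} N) / (t : ℝ))
      (hyperfilter ℕ : Filter ℕ) (𝓝 0) := by
    refine squeeze_zero_norm (fun N => ?_) h3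
    have hH : (0 : ℝ) ≤ ∑ m ∈ range (N + 1), (1 / (m : ℝ)) := sum_nonneg fun m _ => by positivity
    have h5 : pd E N - (∑ i ∈ range t, pd {m | t * m + i ∈ E} N) / (t : ℝ) =
        (∑ x ∈ range (N + 1), wt2 E x -
          (∑ i ∈ range t, ∑ m ∈ range (N + 1), wt2 {m | t * m + i ∈ E} m) / t) /
          ∑ m ∈ range (N + 1), (1 / (m : ℝ)) := by
      rw [sub_div, div_right_comm, ← pd_eq2]
      congr 2
      rw [sum_div]
      exact sum_congr rfl fun i _ => pd_eq2 _ N
    rw [h5, Real.norm_eq_abs, abs_div, abs_of_nonneg hH]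
    exact div_le_div_of_nonneg_right (split_bd2 E t ht N) hH
  have := tendsto_nhds_unique h2 h4
  linarith

end Pool.Agent.Helper17.AB
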