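import Pool.Agent.Helper17.AB.Dens
import Pool.Agent.Helper17.AB.AutB
import Pool.Agent.Helper17.AB.Mean3
import Pool.Agent.Helper17.AB.Mean3b

/-!
Block AB-COa: densities of progressions (only `dn_of`).

Paper proofs.
* `dn_of`: `D n q = lm {m | n + q m ∈ S}`. `D0`: `lm_nonneg`. `D1`: `lm_split`: `{m | n + q (t m + i) ∈ S} = {m | (n + i q) + t q m ∈ S}`. `D2`: `lm_shift` with `s = 1`. `D3`: with `q = p^(c n) K`:
  `{m | n + p^(c n) K m ∈ S} ⊆ {m | F n + p'^(e n) K m ∈ S} ∪ B`, `B = {m | n + p^(c n) K m ∈ {x ∈ S | F x ∉ S}}` finite (`m ↦ n + p^(c n) K m` is injective) (`aff`, `lm_mono`, `lm_union_le`, `lm_finite`).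
  `D4`: with `fin_prog` (applied with base `k = p^α p'^β`): `{m | n + k^i q m ∈ S}` and `{m | v (u0 + q (m + u1)) ∈ A}` differ by a finite set (`m ≤ 1`), so `D n (k^i q) = lm {m | v (u0 + q m) ∈ A}` by `lm_shift`: the values
  lie in the image of the finite set of pairs `(A, u0)`, `A : Set V`, `u0 < q`.
* `lm_const`: if `a ≥ 1`: `Dn.const` for `sysT`, `p = 2`, `p' = 3`, `α = a`, `β = b`, `S`. If `a = 0`, `b ≥ 1`: `Dn.const` for `sysU`, `p = 3`, `p' = 2`, `α = b`, `β = a`, and the set `Sᶜ` (`Aut.compl`;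
  `{x ∈ Sᶜ | U x ∉ Sᶜ}` is the image under `T` of `{y ∈ S | T y ∉ S}`, so finite), and `lm_add_compl`.
* `inv_ae`: by `lm_split` with `t = 4`, `lm {n | T n ∈ S} = (∑_{i<4} lm {m | T (4 m + i) ∈ S}) / 4` with `T (4m) = 6 m`, `T (4m+1) = 3m+1`, `T (4m+2) = 6m+3`, `T (4m+3) = 3m+2`, so it equals `lm S` by `lm_const`
  (four times), and `S ⊆ {n | T n ∈ S} ∪ (finite)`. Put `W = {n | T n ∈ S ∧ n ∉ S}`: `{n | T n ∈ S}` contains the disjoint union of `W` and `S ∩ {n | T n ∈ S}`; use `lm_add_compl`-type additivity: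
  so `lm W = lm {n | T n ∈ S} - lm (S ∩ {n | T n ∈ S})` (`lm_union_disj`) `= lm S - lm S = 0` (`S` and `S ∩ {n | T n ∈ S}` differ by a finite set), and `{n | ¬ (T n ∈ S ↔ n ∈ S)} = W ∪ {n | n ∈ S ∧ T n ∉ S}`.
-/

open Finset Filter

namespace Pool.Agent.Helper17.AB

variable {p p' : ℕ} {F G c e : ℕ → ℕ} {V : Type} {v : ℕ → V} {S : Set ℕ}

private theorem lm_eq_of_diff92 {E E' B : Set ℕ} (hB : B.Finite) (h1 : E ⊆ E' ∪ B) (h2 : E' ⊆ E ∪ B) : lm E = lm E' := by
  apply le_antisymm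
  · calc lm E ≤ lm (E' ∪ B) := lm_mono h1
      _ ≤ lm E' + lm B := lm_union_le _ _
      _ = lm E' := by rw [lm_finite hB, add_zero]
  · calc lm E' ≤ lm (E ∪ B) := lm_mono h2
      _ ≤ lm E + lm B := lm_union_le _ _
      _ = lm E := by rw [lm_finite hB, add_zero]

theorem dn_of {α β : ℕ} (h : Sys p p' F G c e) (hS : Aut (p ^ α * p' ^ β) v S) (hT : {n | n ∈ S ∧ F n ∉ S}.Finite) :
    Dn p p' F c e α β (fun n q => lm {m | n + q * m ∈ S}) where
  D0 n q := lm_nonneg _
  D1 n q t hq ht := by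
    show lm {m | n + q * m ∈ S} = (∑ i ∈ range t, lm {m | n + i * q + t * q * m ∈ S}) / t
    rw [lm_split {m | n + q * m ∈ S} t ht]
    congr 1
    refine sum_congr rfl fun i _ => ?_
    congr 1
    ext m
    show n + q * (t * m + i) ∈ S ↔ n + i * q + t * q * m ∈ S
    rw [show n + q * (t * m + i) = n + i * q + t * q * m by ring]
  D2 n q hq := by
    show lm {m | n + q + q * m ∈ S} = lm {m | n + q * m ∈ S}
    rw [← lm_shift {m | n + q * m ∈ S} 1]
    congr 1
    ext m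
    show n + q + q * m ∈ S ↔ n + q * (m + 1) ∈ S
    rw [show n + q + q * m = n + q * (m + 1) by ring]
  D3 n K hK := by
    show lm {m | n + p ^ c n * K * m ∈ S} ≤ lm {m | F n + p' ^ e n * K * m ∈ S}
    have hp : 1 ≤ p := by rcases h.pp with ⟨h1, -⟩ | ⟨h1, -⟩ <;> omega
    have hq : 0 < p ^ c n * K := Nat.mul_pos (Nat.pow_pos hp) hK
    have hB : {m | n + p ^ c n * K * m ∈ {x | x ∈ S ∧ F x ∉ S}}.Finite := by
      refine hT.preimage (f := fun m => n + p ^ c n * K * m) ?_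
      intro a _ b _ hab
      exact Nat.eq_of_mul_eq_mul_left hq (Nat.add_left_cancel hab)
    calc lm {m | n + p ^ c n * K * m ∈ S}
        ≤ lm ({m | F n + p' ^ e n * K * m ∈ S} ∪ {m | n + p ^ c n * K * m ∈ {x | x ∈ S ∧ F x ∉ S}}) := by
          refine lm_mono fun m hm => ?_
          by_cases hF : F (n + p ^ c n * K * m) ∈ S
          · left
            show F n + p' ^ e n * K * m ∈ S
            rw [mul_assoc, h.aff, ← mul_assoc] at hF
            exact hF
          · right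
            exact ⟨hm, hF⟩
      _ ≤ _ := lm_union_le _ _
      _ = _ := by rw [lm_finite hB, add_zero]
  D4 q hq := by
    have hfin : Finite V := hS.fin
    refine Set.Finite.subset (Set.Finite.image (fun x : Set V × ℕ => lm {m | v (x.2 + q * m) ∈ x.1})
      (Set.Finite.prod (Set.toFinite (Set.univ : Set (Set V))) (Set.finite_Iio q))) ?_
    rintro _ ⟨⟨n, i⟩, rfl⟩
    obtain ⟨A, u0, u1, hu, hm⟩ := hS.fin_prog q hq n i
    refine ⟨(A, u0), ⟨trivial, hu⟩, ?_⟩
    show lm {m | v (u0 + q * m) ∈ A} = lm {m | n + (p ^ α * p' ^ β) ^ i * q * m ∈ S}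
    rw [← lm_shift {m | v (u0 + q * m) ∈ A} u1]
    have hpos : ∀ m, m ≠ 0 → 1 ≤ u0 + q * (m + u1) := by
      intro m hm0
      have h1 : 1 ≤ q * (m + u1) := Nat.mul_pos hq (by omega)
      omega
    refine lm_eq_of_diff92 (Set.finite_singleton 0) (fun m hmE => ?_) (fun m hmE => ?_)
    · by_cases hm0 : m = 0
      · right
        exact hm0
      · left
        exact (hm m (hpos m hm0)).2 hmE
    · by_cases hm0 : m = 0
      · right
        exact hm0
      · left
        exact (hm m (hpos m hm0)).1 hmE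

end Pool.Agent.Helper17.AB
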