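import Pool.Agent.Helper17.AB.Trans

/-!
Block AB-RE: reaching every class from a fixed class.

Paper proof. For `z < P` take `(j_z, a_z)` from `Sys.tr` and let `M` be the maximum of the `j_z`; `H = 2 M + 1`. Given `n`, `i`: for `w_j = G^[j] n` the number `s_j = sm F e j w_j` satisfies `s_0 = 0`,
`s_{j+1} = e (w_{j+1}) + s_j` (`F w_{j+1} = w_j`, `sm_succ`), so it is increasing with steps `1` or `2`; take the least `j` with `i ≤ s_j`; then `s_j ≤ i + 1`. Put `w = w_j`, `C = sm F c j w`, `E = sm F e j w`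
(`F^[j] w = n`, by induction from `FG`). Let `z = w % P`, `h = j_z`, `a1 = a_z`: `F^[h] a1 ≡ w [MOD P]`, `a1 ≡ n0 [MOD p^X P]`. Look for `a = a1 + p^(sm F c h a1) P K`, so that
`w' := F^[h] a = F^[h] a1 + p'^(sm F e h a1) P K`. Choose `K` (Chinese remainder theorem, `p^C` and `p'^Y` coprime) with `w' ≡ w [MOD p^C P]` (solvable: both sides agree modulo `P`, `p'` is a unit modulo `p^C`),
`a ≡ n0 [MOD p'^Y]` (`p^(..) P` is a unit modulo `p'^Y`) and `K ≥ w`, so `w' ≥ w`, `w' = w + p^C (P K')`. Then `F^[j] w' = n + p'^E P K'` (`Sys.iter`), `sm F e j w' = E`, `sm F e h a = sm F e h a1 ≤ 2 M`.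
Take `J = h + j` (`Function.iterate_add_apply`, `sm_add`): `F^[J] a = F^[j] w' ≡ n [MOD p'^i P]`, `sm F e J a = sm F e h a1 + E ∈ [i, i + H]`, `sm F c J a ≥ J ≥ h ≥ X`, and `a ≡ n0` modulo `p^X P`
(`sm F c h a1 ≥ h ≥ X`) and modulo `p'^Y`, hence modulo `p^X p'^Y P` (`Nat.ModEq`, coprimality).
-/

open Finset Filter

namespace Pool.Agent.Helper17.AB

variable {p p' : ℕ} {F G c e : ℕ → ℕ}

private theorem solve52 (u m : ℕ) (hm : 1 ≤ m) (hu : u.Coprime m) (d : ℤ) : ∃ K : ℕ, (u : ℤ) * K ≡ d [ZMOD m] := by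
  have : NeZero m := ⟨by omega⟩
  refine ⟨((d : ZMod m) * (u : ZMod m)⁻¹).val, ?_⟩
  rw [← ZMod.intCast_eq_intCast_iff]
  push_cast
  rw [ZMod.natCast_zmod_val, mul_left_comm, ZMod.coe_mul_inv_eq_one u hu, mul_one]

private theorem crt52 (u1 u2 m1 m2 : ℕ) (h1 : 1 ≤ m1) (h2 : 1 ≤ m2) (hu1 : u1.Coprime m1) (hu2 : u2.Coprime m2)
    (hm : m1.Coprime m2) (d1 d2 : ℤ) (B : ℕ) :
    ∃ K : ℕ, B ≤ K ∧ (u1 : ℤ) * K ≡ d1 [ZMOD m1] ∧ (u2 : ℤ) * K ≡ d2 [ZMOD m2] := by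
  obtain ⟨K1, hK1⟩ := solve52 u1 m1 h1 hu1 d1
  obtain ⟨K2, hK2⟩ := solve52 u2 m2 h2 hu2 d2
  obtain ⟨K0, hK01, hK02⟩ := Nat.chineseRemainder hm K1 K2
  have e1 : K0 + m1 * m2 * B ≡ K1 [MOD m1] := by
    refine Nat.ModEq.trans ?_ hK01
    have : m1 * m2 * B ≡ 0 [MOD m1] := by
      rw [mul_assoc]
      exact (Nat.modEq_zero_iff_dvd.2 (Dvd.intro _ rfl))
    simpa using (Nat.ModEq.refl (n := m1) K0).add this
  have e2 : K0 + m1 * m2 * B ≡ K2 [MOD m2] := by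
    refine Nat.ModEq.trans ?_ hK02
    have : m1 * m2 * B ≡ 0 [MOD m2] := by
      rw [mul_comm m1, mul_assoc]
      exact (Nat.modEq_zero_iff_dvd.2 (Dvd.intro _ rfl))
    simpa using (Nat.ModEq.refl (n := m2) K0).add this
  refine ⟨K0 + m1 * m2 * B, ?_, ?_, ?_⟩
  · have : 1 ≤ m1 * m2 := Nat.mul_pos h1 h2
    nlinarith
  · exact (((Int.natCast_modEq_iff).2 e1).mul_left _).trans hK1
  · exact (((Int.natCast_modEq_iff).2 e2).mul_left _).trans hK2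

private theorem step52 {F G e : ℕ → ℕ} (FG : ∀ n, F (G n) = n) (e1 : ∀ n, 1 ≤ e n) (e2 : ∀ n, e n ≤ 2) (n i : ℕ) :
    ∃ j, i ≤ sm F e j (G^[j] n) ∧ sm F e j (G^[j] n) ≤ i + 1 := by
  classical
  have hex : ∃ j, i ≤ sm F e j (G^[j] n) := ⟨i, (sm_bounds e1 e2 i _).1⟩
  have hs : ∀ j, sm F e (j + 1) (G^[j + 1] n) = e (G^[j + 1] n) + sm F e j (G^[j] n) := by
    intro j
    rw [sm_succ]
    congr 2
    rw [Function.iterate_succ_apply', FG]
  refine ⟨Nat.find hex, Nat.find_spec hex, ?_⟩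
  rcases Nat.eq_zero_or_pos (Nat.find hex) with h0 | h0
  · rw [h0]
    have : sm F e 0 (G^[0] n) = 0 := by simp [sm]
    omega
  · obtain ⟨j, hj⟩ := Nat.exists_eq_succ_of_ne_zero h0.ne'
    have h1 : ¬ i ≤ sm F e j (G^[j] n) := Nat.find_min hex (by omega)
    have h2 := hs j
    have h3 := e2 (G^[j + 1] n)
    rw [hj, Nat.succ_eq_add_one]
    omega

theorem Sys.reach (h : Sys p p' F G c e) (X Y P n0 : ℕ) (hP : 1 ≤ P) (hc : P.Coprime 6) :
    ∃ H : ℕ, ∀ n i : ℕ, ∃ J a : ℕ, a ≡ n0 [MOD p ^ X * p' ^ Y * P] ∧ F^[J] a ≡ n [MOD p' ^ i * P] ∧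
      X ≤ sm F c J a ∧ i ≤ sm F e J a ∧ sm F e J a ≤ i + H := by
  choose jz az hz1 hz2 hz3 using fun z => h.tr P X n0 z hP hc
  have hpp : p.Coprime p' := by
    rcases h.pp with ⟨rfl, rfl⟩ | ⟨rfl, rfl⟩ <;> norm_num
  have hP2 : P.Coprime 2 := Nat.Coprime.coprime_dvd_right (by norm_num) hc
  have hP3 : P.Coprime 3 := Nat.Coprime.coprime_dvd_right (by norm_num) hc
  have hPp' : P.Coprime p' := by
    rcases h.pp with ⟨rfl, rfl⟩ | ⟨rfl, rfl⟩
    · exact hP3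
    · exact hP2
  have hp0 : 1 ≤ p := by rcases h.pp with ⟨rfl, rfl⟩ | ⟨rfl, rfl⟩ <;> norm_num
  have hp0' : 1 ≤ p' := by rcases h.pp with ⟨rfl, rfl⟩ | ⟨rfl, rfl⟩ <;> norm_num
  set M := (range P).sup jz with hM
  refine ⟨2 * M + 1, fun n i => ?_⟩
  obtain ⟨j, hj1, hj2⟩ := step52 h.FG h.e1 h.e2 n i
  set w := G^[j] n with hw
  have hFw : F^[j] w = n := (Function.LeftInverse.iterate (g := F) (f := G) h.FG j) n
  set C := sm F c j w with hC
  set E := sm F e j w with hE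
  set z := w % P with hz
  have hzP : z < P := Nat.mod_lt _ hP
  set hh := jz z with hhh
  set a1 := az z with ha1
  have hhM : hh ≤ M := Finset.le_sup (f := jz) (mem_range.2 hzP)
  set b := F^[hh] a1 with hb
  have hbw : b ≡ w [MOD P] := (hz3 z).trans (Nat.mod_modEq w P)
  set C1 := sm F c hh a1 with hC1
  set E1 := sm F e hh a1 with hE1
  obtain ⟨d, hd⟩ : (P : ℤ) ∣ (w : ℤ) - b := (Nat.modEq_iff_dvd).1 hbw
  obtain ⟨K, hKw, hK1, hK2⟩ := crt52 (p' ^ E1) (p ^ C1 * P) (p ^ C) (p' ^ Y) (Nat.pow_pos hp0) (Nat.pow_pos hp0')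
    (Nat.Coprime.pow _ _ hpp.symm) (Nat.Coprime.mul_left (Nat.Coprime.pow _ _ hpp) (Nat.Coprime.pow_right _ hPp'))
    (Nat.Coprime.pow _ _ hpp) d ((n0 : ℤ) - a1) w
  have hiter : F^[hh] (a1 + p ^ C1 * (P * K)) = b + p' ^ E1 * (P * K) := h.iter hh a1 (P * K)
  have hsc : sm F c hh (a1 + p ^ C1 * (P * K)) = C1 := h.smc hh a1 (P * K)
  have hse : sm F e hh (a1 + p ^ C1 * (P * K)) = E1 := h.sme hh a1 (P * K)
  -- the value after `hh` steps
  have hww : w ≤ b + p' ^ E1 * (P * K) := by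
    have h1 : 1 ≤ p' ^ E1 * P := Nat.mul_pos (Nat.pow_pos hp0') hP
    have h2 : K ≤ p' ^ E1 * P * K := Nat.le_mul_of_pos_left _ h1
    rw [mul_assoc] at h2
    omega
  have hmodw : (w : ℕ) ≡ b + p' ^ E1 * (P * K) [MOD p ^ C * P] := by
    rw [Nat.modEq_iff_dvd]
    obtain ⟨t, ht⟩ := hK1.symm.dvd
    refine ⟨t, ?_⟩
    push_cast at ht ⊢
    have h1 : (b : ℤ) + (p' : ℤ) ^ E1 * (P * K) - w = P * ((p' : ℤ) ^ E1 * K - d) := by
      linear_combination (-1 : ℤ) * hd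
    rw [h1, ht]
    ring
  obtain ⟨K', hK'⟩ := (Nat.modEq_iff_dvd' hww).1 hmodw
  have hw' : b + p' ^ E1 * (P * K) = w + p ^ C * (P * K') := by
    have : b + p' ^ E1 * (P * K) = w + p ^ C * P * K' := by omega
    rw [this, mul_assoc]
  have hFj : F^[j] (b + p' ^ E1 * (P * K)) = n + p' ^ E * (P * K') := by
    rw [hw', h.iter j w (P * K'), hFw]
  have hsj : sm F e j (b + p' ^ E1 * (P * K)) = E := by
    rw [hw']
    exact h.sme j w (P * K')
  refine ⟨hh + j, a1 + p ^ C1 * (P * K), ?_, ?_, ?_, ?_, ?_⟩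
  · have hXC : X ≤ C1 := (hz1 z).trans (sm_bounds h.c1 h.c2 hh a1).1
    have m1 : a1 + p ^ C1 * (P * K) ≡ n0 [MOD p ^ X * P] := by
      have h1 : p ^ C1 * (P * K) ≡ 0 [MOD p ^ X * P] := by
        refine Nat.modEq_zero_iff_dvd.2 ?_
        rw [← mul_assoc]
        exact Dvd.dvd.mul_right (Nat.mul_dvd_mul_right (pow_dvd_pow p hXC) P) K
      simpa using (hz2 z).add h1
    have m2 : a1 + p ^ C1 * (P * K) ≡ n0 [MOD p' ^ Y] := by
      refine (Int.natCast_modEq_iff).1 ?_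
      have h1 := hK2.add_left (a1 : ℤ)
      push_cast at h1 ⊢
      have h2 : (a1 : ℤ) + ((n0 : ℤ) - a1) = n0 := by ring
      rw [h2, mul_assoc] at h1
      exact h1
    have hcop : (p ^ X * P).Coprime (p' ^ Y) :=
      Nat.Coprime.mul_left (Nat.Coprime.pow _ _ hpp) (Nat.Coprime.pow_right _ hPp')
    have h3 := (Nat.modEq_and_modEq_iff_modEq_mul hcop).1 ⟨m1, m2⟩
    have h4 : p ^ X * p' ^ Y * P = p ^ X * P * p' ^ Y := by ring
    rw [h4]
    exact h3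
  · rw [add_comm hh j, Function.iterate_add_apply, hiter, hFj]
    have h1 : p' ^ E * (P * K') ≡ 0 [MOD p' ^ i * P] := by
      refine Nat.modEq_zero_iff_dvd.2 ?_
      rw [← mul_assoc]
      exact Dvd.dvd.mul_right (Nat.mul_dvd_mul_right (pow_dvd_pow p' hj1) P) K'
    simpa using (Nat.ModEq.refl (n := p' ^ i * P) n).add h1
  · have := (sm_bounds (F := F) h.c1 h.c2 (hh + j) (a1 + p ^ C1 * (P * K))).1
    have h1 := hz1 z
    omega
  · rw [sm_add, hiter, hse, hsj]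
    omega
  · rw [sm_add, hiter, hse, hsj]
    have h1 : E1 ≤ 2 * hh := (sm_bounds (F := F) h.e1 h.e2 hh a1).2
    omega

end Pool.Agent.Helper17.AB
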