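import Pool.Agent.Helper17.AB.Dens
import Pool.Agent.Helper17.AB.Reach

/-!
Block AB-HO: homogeneity: all densities are equal.

Paper proof. Let `n0, i0, M` be as in `Dn.max`; write `k^i0 q = p^X p'^Y P`, `P ≥ 1` prime to `6` (`Nat.exists_eq_pow_mul_and_not_dvd` twice; `p, p'` are `2, 3` in some order). Let `H` be as in `Sys.reach` for
`X, Y, P, n0`. Let `Θ` be the infimum of all `D n (p'^i P)` (bounded below by `0`). Claim `M ≤ Θ`. Suppose `Θ < M`. Let `n, i` be arbitrary, `(J, a)` from `reach`, `E = sm F e J a ∈ [i, i + H]`, `C = sm F c J a ≥ X`,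
`t = p'^(E - i + Y)`. By `D1`, `D n (p'^i P) = (∑_{s < t} D (n + s p'^i P) (p'^(E+Y) P)) / t`; every term is `≥ Θ`, and the one with `n + s p'^i P ≡ F^[J] a [MOD p'^(E+Y) P]` (exists since `F^[J] a ≡ n [MOD p'^i P]`)
is, by `per` and `iter` (`K = p'^Y P`), at least `D a (p^C p'^Y P) = D a (p^(C-X) (p^X p'^Y P)) = M`. So `D n (p'^i P) ≥ Θ + (M - Θ) / t ≥ Θ + (M - Θ) / p'^(H + Y)`; taking the infimum, a contradiction.
Then `D 0 1 = (∑_{i < P} D i P) / P ≥ Θ ≥ M` (the case `i = 0` of `p'^i P`) and `D 0 1 = (∑_{i < q} D i q) / q ≤ M`, so `D 0 1 = M`, all `D i q ≤ M` with mean `M` over `i < q`: `D i q = M` for `i < q`, and then for all `i` by `per`.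
-/

open Finset Filter

namespace Pool.Agent.Helper17.AB

variable {p p' : ℕ} {F G c e : ℕ → ℕ} {α β : ℕ} {D : ℕ → ℕ → ℝ}

private theorem rep40 {b n q' t : ℕ} (hq : 1 ≤ q') (ht : 1 ≤ t) (h : b ≡ n [MOD q']) :
    ∃ s, s < t ∧ n + s * q' ≡ b [MOD t * q'] := by
  have htq : 1 ≤ t * q' := Nat.mul_pos ht hq
  have hle : n ≤ b + n * (t * q') := by nlinarith
  have h1 : n ≡ b + n * (t * q') [MOD q'] := by
    have h2 : n * (t * q') ≡ 0 [MOD q'] := by
      rw [← mul_assoc]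
      exact Nat.modEq_zero_iff_dvd.2 (Dvd.intro_left _ rfl)
    simpa using h.symm.add h2.symm
  obtain ⟨u, hu⟩ := (Nat.modEq_iff_dvd' hle).1 h1
  refine ⟨u % t, Nat.mod_lt _ ht, ?_⟩
  have h3 : n + u * q' = b + n * (t * q') := by
    rw [mul_comm u q', ← hu]
    omega
  have h4 : n + u * q' = n + (u % t) * q' + (u / t) * (t * q') := by
    conv_lhs => rw [← Nat.mod_add_div u t]
    ring
  have h5 : n + (u % t) * q' ≡ n + u * q' [MOD t * q'] := by
    rw [h4]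
    have h6 : (u / t) * (t * q') ≡ 0 [MOD t * q'] := Nat.modEq_zero_iff_dvd.2 (Dvd.intro_left _ rfl)
    simpa using ((Nat.ModEq.refl (n := t * q') (n + (u % t) * q')).add h6.symm)
  refine h5.trans ?_
  rw [h3]
  have h6 : n * (t * q') ≡ 0 [MOD t * q'] := Nat.modEq_zero_iff_dvd.2 (Dvd.intro_left _ rfl)
  simpa using (Nat.ModEq.refl (n := t * q') b).add h6

private theorem split40 (h : (p = 2 ∧ p' = 3) ∨ (p = 3 ∧ p' = 2)) (m : ℕ) (hm : 1 ≤ m) :
    ∃ X Y P, 1 ≤ P ∧ P.Coprime 6 ∧ m = p ^ X * p' ^ Y * P := by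
  have hp : p ≠ 1 := by rcases h with ⟨rfl, -⟩ | ⟨rfl, -⟩ <;> norm_num
  have hp' : p' ≠ 1 := by rcases h with ⟨-, rfl⟩ | ⟨-, rfl⟩ <;> norm_num
  obtain ⟨X, m1, hm1, e1⟩ := Nat.exists_eq_pow_mul_and_not_dvd (n := m) (by omega) p hp
  have hm10 : m1 ≠ 0 := by
    rintro rfl
    exact hm1 (dvd_zero _)
  obtain ⟨Y, P, hP, e2⟩ := Nat.exists_eq_pow_mul_and_not_dvd (n := m1) hm10 p' hp'
  have hP0 : P ≠ 0 := by
    rintro rfl
    exact hP (dvd_zero _)
  have hpP : ¬ p ∣ P := by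
    intro hc
    apply hm1
    rw [e2]
    exact Dvd.dvd.mul_left hc _
  refine ⟨X, Y, P, by omega, ?_, by rw [e1, e2, mul_assoc]⟩
  have h6 : (6 : ℕ) = 2 * 3 := by norm_num
  rw [h6]
  apply Nat.Coprime.mul_right
  · rw [Nat.coprime_comm, Nat.Prime.coprime_iff_not_dvd Nat.prime_two]
    rcases h with ⟨rfl, -⟩ | ⟨-, rfl⟩
    · exact hpP
    · exact hP
  · rw [Nat.coprime_comm, Nat.Prime.coprime_iff_not_dvd Nat.prime_three]
    rcases h with ⟨-, rfl⟩ | ⟨rfl, -⟩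
    · exact hP
    · exact hpP

theorem Dn.const (d : Dn p p' F c e α β D) (h : Sys p p' F G c e) (hα : 1 ≤ α) (n q : ℕ) (hq : 1 ≤ q) :
    D n q = D 0 1 := by
  have hp : 1 ≤ p := by rcases h.pp with ⟨h1, -⟩ | ⟨h1, -⟩ <;> omega
  have hp' : 1 ≤ p' := by rcases h.pp with ⟨-, h1⟩ | ⟨-, h1⟩ <;> omega
  obtain ⟨n0, i0, M, hM1, hM2⟩ := d.max h hα q hq
  have hk1 : 1 ≤ (p ^ α * p' ^ β) ^ i0 * q :=
    Nat.mul_pos (Nat.pow_pos (Nat.mul_pos (Nat.pow_pos hp) (Nat.pow_pos hp'))) hq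
  obtain ⟨X, Y, P, hP1, hP6, hXY⟩ := split40 h.pp _ hk1
  obtain ⟨H, hH⟩ := h.reach X Y P n0 hP1 hP6
  set S : Set ℝ := Set.range (fun x : ℕ × ℕ => D x.1 (p' ^ x.2 * P)) with hS
  have hSb : BddBelow S := ⟨0, by rintro _ ⟨x, rfl⟩; exact d.D0 _ _⟩
  have hSn : S.Nonempty := ⟨_, (0, 0), rfl⟩
  set Θ := sInf S with hΘ
  have hle : ∀ n i, Θ ≤ D n (p' ^ i * P) := fun n i => csInf_le hSb ⟨(n, i), rfl⟩
  have hMΘ : M ≤ Θ := by
    by_contra hcon
    push Not at hcon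
    have hW : (0 : ℝ) < ((p' ^ (H + Y) : ℕ) : ℝ) := by
      have : 1 ≤ p' ^ (H + Y) := Nat.pow_pos hp'
      exact_mod_cast this
    have key : ∀ x ∈ S, Θ + (M - Θ) / ((p' ^ (H + Y) : ℕ) : ℝ) ≤ x := by
      rintro _ ⟨⟨n, i⟩, rfl⟩
      simp only
      obtain ⟨J, a, ha1, ha2, hC, hE1, hE2⟩ := hH n i
      set C := sm F c J a with hCdef
      set E := sm F e J a with hEdef
      set t := p' ^ (E - i + Y) with ht
      have ht1 : 1 ≤ t := Nat.pow_pos hp'
      have hq' : 1 ≤ p' ^ i * P := Nat.mul_pos (Nat.pow_pos hp') hP1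
      have htq : t * (p' ^ i * P) = p' ^ E * (p' ^ Y * P) := by
        rw [ht, ← mul_assoc, ← mul_assoc, ← pow_add, ← pow_add]
        congr 2
        omega
      obtain ⟨s0, hs0, hs1⟩ := rep40 hq' ht1 ha2
      have hbig : M ≤ D (n + s0 * (p' ^ i * P)) (t * (p' ^ i * P)) := by
        rw [d.per (Nat.mul_pos ht1 hq') hs1, htq]
        have h1 := d.iter h J a (p' ^ Y * P) (Nat.mul_pos (Nat.pow_pos hp') hP1)
        refine le_trans ?_ h1
        have h2 := hM2 (C - X) a (by rw [hXY]; exact ha1)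
        have h3 : p ^ (C - X) * ((p ^ α * p' ^ β) ^ i0 * q) = p ^ C * (p' ^ Y * P) := by
          rw [hXY, ← mul_assoc, ← mul_assoc, ← mul_assoc, ← pow_add]
          congr 3
          omega
        rw [h3] at h2
        rw [h2]
      have hall : ∀ s ∈ range t, Θ ≤ D (n + s * (p' ^ i * P)) (t * (p' ^ i * P)) := by
        intro s _
        have h3 : t * (p' ^ i * P) = p' ^ (E + Y) * P := by
          rw [htq, ← mul_assoc, ← pow_add]
        rw [h3]
        exact hle _ _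
      have hsum : (t : ℝ) * Θ + (M - Θ) ≤ ∑ s ∈ range t, D (n + s * (p' ^ i * P)) (t * (p' ^ i * P)) := by
        have h1 : ∑ s ∈ range t, (D (n + s * (p' ^ i * P)) (t * (p' ^ i * P)) - Θ)
            = ∑ s ∈ range t, D (n + s * (p' ^ i * P)) (t * (p' ^ i * P)) - t * Θ := by
          rw [sum_sub_distrib, sum_const, card_range, nsmul_eq_mul]
        have h2 : D (n + s0 * (p' ^ i * P)) (t * (p' ^ i * P)) - Θ
            ≤ ∑ s ∈ range t, (D (n + s * (p' ^ i * P)) (t * (p' ^ i * P)) - Θ) :=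
          single_le_sum (f := fun s => D (n + s * (p' ^ i * P)) (t * (p' ^ i * P)) - Θ)
            (fun s hs => sub_nonneg.2 (hall s hs)) (mem_range.2 hs0)
        linarith
      rw [d.D1 n (p' ^ i * P) t hq' ht1]
      have ht0 : (0 : ℝ) < (t : ℝ) := by exact_mod_cast ht1
      have htH : (t : ℝ) ≤ ((p' ^ (H + Y) : ℕ) : ℝ) := by
        have : t ≤ p' ^ (H + Y) := Nat.pow_le_pow_right hp' (by omega)
        exact_mod_cast this
      calc Θ + (M - Θ) / ((p' ^ (H + Y) : ℕ) : ℝ) ≤ Θ + (M - Θ) / t := by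
            have : (M - Θ) / ((p' ^ (H + Y) : ℕ) : ℝ) ≤ (M - Θ) / t :=
              div_le_div_of_nonneg_left (by linarith) ht0 htH
            linarith
        _ = ((t : ℝ) * Θ + (M - Θ)) / t := by field_simp
        _ ≤ _ := div_le_div_of_nonneg_right hsum ht0.le
    have h1 := le_csInf hSn key
    have h2 : 0 < (M - Θ) / ((p' ^ (H + Y) : ℕ) : ℝ) := div_pos (by linarith) hW
    linarith
  -- the mean over all classes
  have hlow : M ≤ D 0 1 := by
    rw [d.D1 0 1 P le_rfl hP1]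
    have hP0 : (0 : ℝ) < (P : ℝ) := by exact_mod_cast hP1
    rw [le_div_iff₀ hP0]
    have : ∑ _i ∈ range P, M ≤ ∑ i ∈ range P, D (0 + i * 1) (P * 1) := by
      apply sum_le_sum
      intro i _
      have h1 := hle (0 + i * 1) 0
      rw [pow_zero, one_mul] at h1
      rw [mul_one P]
      exact hMΘ.trans h1
    rw [sum_const, card_range, nsmul_eq_mul] at this
    linarith
  have hq0 : (0 : ℝ) < (q : ℝ) := by exact_mod_cast hq
  have hmean := d.D1 0 1 q le_rfl hq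
  have hterm : ∀ i ∈ range q, D (0 + i * 1) (q * 1) ≤ M := by
    intro i _
    rw [mul_one q]
    exact hM1 _
  have hup : D 0 1 ≤ M := by
    rw [hmean, div_le_iff₀ hq0]
    have := sum_le_sum hterm
    rw [sum_const, card_range, nsmul_eq_mul] at this
    linarith
  have hDM : D 0 1 = M := le_antisymm hup hlow
  have heq : ∑ i ∈ range q, D (0 + i * 1) (q * 1) = ∑ _i ∈ range q, M := by
    rw [hDM, eq_div_iff hq0.ne'] at hmean
    rw [← hmean, sum_const, card_range, nsmul_eq_mul, mul_comm]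
  have hall := (sum_eq_sum_iff_of_le hterm).1 heq
  have h1 : D (n % q) q = M := by
    have := hall (n % q) (mem_range.2 (Nat.mod_lt _ hq))
    rwa [mul_one, mul_one, zero_add] at this
  rw [hDM, ← h1]
  exact d.per hq (Nat.mod_modEq n q).symm

end Pool.Agent.Helper17.AB
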