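import Pool.Agent.Helper17.AB.Defs

/-!
Block AB-ST: the system `T` (only `sysT`).

Paper proof. Case distinctions modulo `2`, `4` (resp. `3`), `omega`. `br` for `T`: `c0 = 2`, `e0 = 1`; `w` is odd, so `n + w K` takes every residue modulo `4` (try `K = 0, 1, 2, 3`); `x ≡ 3 (4)`: `4 T(x) + 1 = 3 x`;
`x ≡ 1 (4)`: `4 T(x) = 3 x + 1`. For `U`: `c0 = 1`, `e0 = 2`; `w` is prime to `3`, try `K = 0, 1, 2`; `x ≡ 1 (3)`: `3 U(x) + 1 = 4 x`; `x ≡ 2 (3)`: `3 U(x) = 4 x + 1`.
-/

open Finset Filter

namespace Pool.Agent.Helper17.AB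

theorem sysT : Sys 2 3 T U (fun n => if n % 2 = 0 then 1 else 2) (fun _ => 1) := by
  refine ⟨Or.inl ⟨rfl, rfl⟩, ?_, ?_, ?_, ?_, ?_, ?_, ?_, ?_, ?_, 2, 1, ?_⟩
  · intro n
    unfold U T
    split_ifs <;> omega
  · intro n
    unfold U T
    split_ifs <;> omega
  · intro n
    split_ifs <;> omega
  · intro n
    split_ifs <;> omega
  · intro n
    exact le_rfl
  · intro n
    norm_num
  · intro n K
    by_cases h : n % 2 = 0
    · rw [if_pos h]
      unfold T
      simp only [pow_one]
      split_ifs <;> omega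
    · rw [if_neg h]
      unfold T
      norm_num only
      split_ifs <;> omega
  · intro n K
    by_cases h : n % 2 = 0
    · rw [if_pos h, pow_one, if_pos (by omega)]
    · rw [if_neg h, if_neg (by norm_num only; omega)]
  · intro n K
    rfl
  · intro n w hw
    have h2 : w % 2 = 1 := by
      rcases Nat.mod_two_eq_zero_or_one w with h | h
      · exfalso
        have h3 : 2 ∣ Nat.gcd w 2 := Nat.dvd_gcd (Nat.dvd_of_mod_eq_zero h) (dvd_refl 2)
        rw [Nat.Coprime] at hw
        rw [hw] at h3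
        omega
      · exact h
    have key : ∀ r, r < 4 → ∃ K, (n + w * K) % 4 = r := by
      intro r hr
      have hw4 : w % 4 = 1 ∨ w % 4 = 3 := by omega
      have hn4 : n % 4 = 0 ∨ n % 4 = 1 ∨ n % 4 = 2 ∨ n % 4 = 3 := by omega
      have h0 : (n + w * 0) % 4 = r ∨ (n + w * 1) % 4 = r ∨ (n + w * 2) % 4 = r
          ∨ (n + w * 3) % 4 = r := by omega
      rcases h0 with h | h | h | h
      exacts [⟨0, h⟩, ⟨1, h⟩, ⟨2, h⟩, ⟨3, h⟩]
    constructor
    · obtain ⟨K, hK⟩ := key 3 (by norm_num)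
      refine ⟨K, ?_⟩
      generalize n + w * K = x at hK
      unfold T
      norm_num only
      split_ifs <;> omega
    · obtain ⟨K, hK⟩ := key 1 (by norm_num)
      refine ⟨K, ?_⟩
      generalize n + w * K = x at hK
      unfold T
      norm_num only
      split_ifs <;> omega

end Pool.Agent.Helper17.AB
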