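import Pool.Agent.Helper17.AB.Defs

/-!
Block AB-SU: the system `U` (only `sysU`).

Paper proof. Case distinctions modulo `2`, `4` (resp. `3`), `omega`. `br` for `T`: `c0 = 2`, `e0 = 1`; `w` is odd, so `n + w K` takes every residue modulo `4` (try `K = 0, 1, 2, 3`); `x ≡ 3 (4)`: `4 T(x) + 1 = 3 x`;
`x ≡ 1 (4)`: `4 T(x) = 3 x + 1`. For `U`: `c0 = 1`, `e0 = 2`; `w` is prime to `3`, try `K = 0, 1, 2`; `x ≡ 1 (3)`: `3 U(x) + 1 = 4 x`; `x ≡ 2 (3)`: `3 U(x) = 4 x + 1`.
-/

open Finset Filter

namespace Pool.Agent.Helper17.AB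

private theorem res53 (n w r : ℕ) (hw : w % 3 ≠ 0) (hr : r < 3) : ∃ K, (n + w * K) % 3 = r := by
  have h1 : w % 3 = 1 ∨ w % 3 = 2 := by omega
  have h2 : n % 3 = 0 ∨ n % 3 = 1 ∨ n % 3 = 2 := by omega
  have h3 : r = 0 ∨ r = 1 ∨ r = 2 := by omega
  rcases h1 with h1 | h1 <;> rcases h2 with h2 | h2 | h2 <;> rcases h3 with h3 | h3 | h3 <;>
    first
    | exact ⟨0, by omega⟩
    | exact ⟨1, by omega⟩
    | exact ⟨2, by omega⟩

theorem sysU : Sys 3 2 U T (fun _ => 1) (fun n => if n % 3 = 0 then 1 else 2) where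
  pp := Or.inr ⟨rfl, rfl⟩
  GF := by
    intro n
    unfold T U
    split_ifs <;> omega
  FG := by
    intro n
    unfold T U
    split_ifs <;> omega
  c1 := fun _ => le_rfl
  c2 := fun _ => by norm_num
  e1 := by
    intro n
    split_ifs <;> omega
  e2 := by
    intro n
    split_ifs <;> omega
  aff := by
    intro n K
    unfold U
    rw [pow_one]
    by_cases h0 : n % 3 = 0
    · rw [if_pos h0, if_pos h0, if_pos (by omega), pow_one]
      omega
    · rw [if_neg h0, if_neg h0, if_neg (by omega)]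
      by_cases h1 : n % 3 = 1
      · rw [if_pos h1, if_pos (by omega)]
        omega
      · rw [if_neg h1, if_neg (by omega)]
        omega
  cper := fun _ _ => rfl
  eper := by
    intro n K
    have h : (n + 3 ^ 1 * K) % 3 = n % 3 := by omega
    rw [h]
  br := by
    refine ⟨1, 2, fun n w hw => ?_⟩
    have hw3 : w % 3 ≠ 0 := by
      intro h
      have h3 : 3 ∣ w := Nat.dvd_of_mod_eq_zero h
      have := Nat.dvd_gcd h3 (dvd_refl 3)
      rw [hw] at this
      omega
    constructor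
    · obtain ⟨K, hK⟩ := res53 n w 1 hw3 (by norm_num)
      refine ⟨K, ?_⟩
      generalize n + w * K = x at hK ⊢
      unfold U
      rw [if_neg (by omega), if_pos hK]
      omega
    · obtain ⟨K, hK⟩ := res53 n w 2 hw3 (by norm_num)
      refine ⟨K, ?_⟩
      generalize n + w * K = x at hK ⊢
      unfold U
      rw [if_neg (by omega), if_neg (by omega)]
      omega

end Pool.Agent.Helper17.AB
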