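import Pool.Agent.Helper17.AB.ConstA
import Pool.Agent.Helper17.AB.Homog
import Pool.Agent.Helper17.AB.SysT
import Pool.Agent.Helper17.AB.SysU

/-!
Block AB-COb: the mean density of `S` is the same along all progressions (only `lm_const`).

Paper proofs.
* `dn_of`: `D n q = lm {m | n + q m ∈ S}`. `D0`: `lm_nonneg`. `D1`: `lm_split`: `{m | n + q (t m + i) ∈ S} = {m | (n + i q) + t q m ∈ S}`. `D2`: `lm_shift` with `s = 1`. `D3`: with `q = p^(c n) K`:
  `{m | n + p^(c n) K m ∈ S} ⊆ {m | F n + p'^(e n) K m ∈ S} ∪ B`, `B = {m | n + p^(c n) K m ∈ {x ∈ S | F x ∉ S}}` finite (`m ↦ n + p^(c n) K m` is injective) (`aff`, `lm_mono`, `lm_union_le`, `lm_finite`).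
  `D4`: with `fin_prog` (applied with base `k = p^α p'^β`): `{m | n + k^i q m ∈ S}` and `{m | v (u0 + q (m + u1)) ∈ A}` differ by a finite set (`m ≤ 1`), so `D n (k^i q) = lm {m | v (u0 + q m) ∈ A}` by `lm_shift`: the values
  lie in the image of the finite set of pairs `(A, u0)`, `A : Set V`, `u0 < q`.
* `lm_const`: if `a ≥ 1`: `Dn.const` for `sysT`, `p = 2`, `p' = 3`, `α = a`, `β = b`, `S`. If `a = 0`, `b ≥ 1`: `Dn.const` for `sysU`, `p = 3`, `p' = 2`, `α = b`, `β = a`, and the set `Sᶜ` (`Aut.compl`;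
  `{x ∈ Sᶜ | U x ∉ Sᶜ}` is the image under `T` of `{y ∈ S | T y ∉ S}`, so finite), and `lm_add_compl`.
* `inv_ae`: by `lm_split` with `t = 4`, `lm {n | T n ∈ S} = (∑_{i<4} lm {m | T (4 m + i) ∈ S}) / 4` with `T (4m) = 6 m`, `T (4m+1) = 3m+1`, `T (4m+2) = 6m+3`, `T (4m+3) = 3m+2`, so it equals `lm S` by `lm_const`
  (four times), and `S ⊆ {n | T n ∈ S} ∪ (finite)`. Put `W = {n | T n ∈ S ∧ n ∉ S}`: `{n | T n ∈ S}` contains the disjoint union of `W` and `S ∩ {n | T n ∈ S}`; use `lm_add_compl`-type additivity: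
  so `lm W = lm {n | T n ∈ S} - lm (S ∩ {n | T n ∈ S})` (`lm_union_disj`) `= lm S - lm S = 0` (`S` and `S ∩ {n | T n ∈ S}` differ by a finite set), and `{n | ¬ (T n ∈ S ↔ n ∈ S)} = W ∪ {n | n ∈ S ∧ T n ∉ S}`.
-/

open Finset Filter

namespace Pool.Agent.Helper17.AB

variable {p p' : ℕ} {F G c e : ℕ → ℕ} {V : Type} {v : ℕ → V} {S : Set ℕ}

theorem lm_const {a b : ℕ} (hS : Aut (2 ^ a * 3 ^ b) v S) (hT : {n | n ∈ S ∧ T n ∉ S}.Finite) (n q : ℕ) (hq : 1 ≤ q) :
    lm {m | n + q * m ∈ S} = lm S := by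
  have e0 : ∀ E : Set ℕ, {m | 0 + 1 * m ∈ E} = E := by
    intro E
    ext m
    simp
  rcases Nat.eq_zero_or_pos a with ha | ha
  · subst ha
    have hb : 1 ≤ b := by
      rcases Nat.eq_zero_or_pos b with hb | hb
      · exfalso
        have h2 := hS.k2
        rw [hb] at h2
        norm_num at h2
      · exact hb
    have hS' : Aut (3 ^ b * 2 ^ 0) v Sᶜ := by
      rw [mul_comm]
      exact hS.compl
    have hT' : {n | n ∈ Sᶜ ∧ U n ∉ Sᶜ}.Finite := by
      refine (hT.image T).subset ?_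
      rintro x ⟨hx1, hx2⟩
      refine ⟨U x, ⟨?_, ?_⟩, sysT.FG x⟩
      · exact not_not.1 hx2
      · rw [sysT.FG x]
        exact hx1
    have h1 := (dn_of sysU hS' hT').const sysU hb n q hq
    simp only [e0] at h1
    have h2 : {m | n + q * m ∈ Sᶜ} = {m | n + q * m ∈ S}ᶜ := rfl
    rw [h2] at h1
    have h3 := lm_add_compl {m | n + q * m ∈ S}
    have h4 := lm_add_compl S
    linarith
  · have h1 := (dn_of sysT hS hT).const sysT ha n q hq
    simp only [e0] at h1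
    exact h1

end Pool.Agent.Helper17.AB
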