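import Pool.Agent.Helper17.AB.ConstB

/-!
Block AB-COc: `S` is almost invariant (only `inv_ae`).

Paper proofs.
* `dn_of`: `D n q = lm {m | n + q m ∈ S}`. `D0`: `lm_nonneg`. `D1`: `lm_split`: `{m | n + q (t m + i) ∈ S} = {m | (n + i q) + t q m ∈ S}`. `D2`: `lm_shift` with `s = 1`. `D3`: with `q = p^(c n) K`:
  `{m | n + p^(c n) K m ∈ S} ⊆ {m | F n + p'^(e n) K m ∈ S} ∪ B`, `B = {m | n + p^(c n) K m ∈ {x ∈ S | F x ∉ S}}` finite (`m ↦ n + p^(c n) K m` is injective) (`aff`, `lm_mono`, `lm_union_le`, `lm_finite`).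
  `D4`: with `fin_prog` (applied with base `k = p^α p'^β`): `{m | n + k^i q m ∈ S}` and `{m | v (u0 + q (m + u1)) ∈ A}` differ by a finite set (`m ≤ 1`), so `D n (k^i q) = lm {m | v (u0 + q m) ∈ A}` by `lm_shift`: the values
  lie in the image of the finite set of pairs `(A, u0)`, `A : Set V`, `u0 < q`.
* `lm_const`: if `a ≥ 1`: `Dn.const` for `sysT`, `p = 2`, `p' = 3`, `α = a`, `β = b`, `S`. If `a = 0`, `b ≥ 1`: `Dn.const` for `sysU`, `p = 3`, `p' = 2`, `α = b`, `β = a`, and the set `Sᶜ` (`Aut.compl`;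
  `{x ∈ Sᶜ | U x ∉ Sᶜ}` is the image under `T` of `{y ∈ S | T y ∉ S}`, so finite), and `lm_add_compl`.
* `inv_ae`: by `lm_split` with `t = 4`, `lm {n | T n ∈ S} = (∑_{i<4} lm {m | T (4 m + i) ∈ S}) / 4` with `T (4m) = 6 m`, `T (4m+1) = 3m+1`, `T (4m+2) = 6m+3`, `T (4m+3) = 3m+2`, so it equals `lm S` by `lm_const`
  (four times), and `S ⊆ {n | T n ∈ S} ∪ (finite)`. Put `W = {n | T n ∈ S ∧ n ∉ S}`: `{n | T n ∈ S}` contains the disjoint union of `W` and `S ∩ {n | T n ∈ S}`; use `lm_add_compl`-type additivity: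
  so `lm W = lm {n | T n ∈ S} - lm (S ∩ {n | T n ∈ S})` (`lm_union_disj`) `= lm S - lm S = 0` (`S` and `S ∩ {n | T n ∈ S}` differ by a finite set), and `{n | ¬ (T n ∈ S ↔ n ∈ S)} = W ∪ {n | n ∈ S ∧ T n ∉ S}`.
-/

open Finset Filter

namespace Pool.Agent.Helper17.AB

variable {p p' : ℕ} {F G c e : ℕ → ℕ} {V : Type} {v : ℕ → V} {S : Set ℕ}

theorem inv_ae {a b : ℕ} (hS : Aut (2 ^ a * 3 ^ b) v S) (hT : {n | n ∈ S ∧ T n ∉ S}.Finite) :
    lm {n | ¬ (T n ∈ S ↔ n ∈ S)} = 0 := by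
  have h0 : {m | 4 * m + 0 ∈ {n | T n ∈ S}} = {m | 0 + 6 * m ∈ S} := by
    ext m
    have : T (4 * m + 0) = 0 + 6 * m := by
      unfold T
      rw [if_pos (by omega)]
      omega
    simp only [Set.mem_ofPred_eq, this]
  have h1 : {m | 4 * m + 1 ∈ {n | T n ∈ S}} = {m | 1 + 3 * m ∈ S} := by
    ext m
    have : T (4 * m + 1) = 1 + 3 * m := by
      unfold T
      rw [if_neg (by omega), if_pos (by omega)]
      omega
    simp only [Set.mem_ofPred_eq, this]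
  have h2 : {m | 4 * m + 2 ∈ {n | T n ∈ S}} = {m | 3 + 6 * m ∈ S} := by
    ext m
    have : T (4 * m + 2) = 3 + 6 * m := by
      unfold T
      rw [if_pos (by omega)]
      omega
    simp only [Set.mem_ofPred_eq, this]
  have h3 : {m | 4 * m + 3 ∈ {n | T n ∈ S}} = {m | 2 + 3 * m ∈ S} := by
    ext m
    have : T (4 * m + 3) = 2 + 3 * m := by
      unfold T
      rw [if_neg (by omega), if_neg (by omega)]
      omega
    simp only [Set.mem_ofPred_eq, this]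
  have hA : lm {n | T n ∈ S} = lm S := by
    rw [lm_split {n | T n ∈ S} 4 (by norm_num), Finset.sum_range_succ, Finset.sum_range_succ,
      Finset.sum_range_succ, Finset.sum_range_one, h0, h1, h2, h3,
      lm_const hS hT 0 6 (by norm_num), lm_const hS hT 1 3 (by norm_num),
      lm_const hS hT 3 6 (by norm_num), lm_const hS hT 2 3 (by norm_num)]
    push_cast
    ring
  have hV : lm {n | n ∈ S ∧ T n ∉ S} = 0 := lm_finite hT
  have e1 : {n | T n ∈ S} = {n | T n ∈ S ∧ n ∈ S} ∪ {n | T n ∈ S ∧ n ∉ S} := by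
    ext n; simp only [Set.mem_ofPred_eq, Set.mem_union]; tauto
  have d1 : Disjoint {n | T n ∈ S ∧ n ∈ S} {n | T n ∈ S ∧ n ∉ S} := by
    rw [Set.disjoint_left]; rintro n ⟨_, h⟩ ⟨_, h'⟩; exact h' h
  have e2 : S = {n | T n ∈ S ∧ n ∈ S} ∪ {n | n ∈ S ∧ T n ∉ S} := by
    ext n; simp only [Set.mem_ofPred_eq, Set.mem_union]; tauto
  have d2 : Disjoint {n | T n ∈ S ∧ n ∈ S} {n | n ∈ S ∧ T n ∉ S} := by
    rw [Set.disjoint_left]; rintro n ⟨h, _⟩ ⟨_, h'⟩; exact h' h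
  have e3 : {n | ¬ (T n ∈ S ↔ n ∈ S)} = {n | T n ∈ S ∧ n ∉ S} ∪ {n | n ∈ S ∧ T n ∉ S} := by
    ext n; simp only [Set.mem_ofPred_eq, Set.mem_union]; tauto
  have d3 : Disjoint {n | T n ∈ S ∧ n ∉ S} {n | n ∈ S ∧ T n ∉ S} := by
    rw [Set.disjoint_left]; rintro n ⟨_, h⟩ ⟨h', _⟩; exact h h'
  have q1 := lm_union_disj d1
  rw [← e1] at q1
  have q2 := lm_union_disj d2
  rw [← e2] at q2
  rw [e3, lm_union_disj d3, hV]
  linarith

end Pool.Agent.Helper17.AB
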