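import Pool.Agent.Helper17.AB.Mean1

/-!
Block AB-M4: positivity (only `lm_pos`).

Paper proof. `lm_pos`: choose `j ≥ 1` with `C ≤ (c0 / 2) k^j`, put `a(L) = #(E ∩ [0, C k^L))`. For `L ≥ L0 + j` the set `E ∩ [C k^(L-j), C k^L)` has at least `c0 k^L - C k^(L-j) ≥ c0 k^L / 2` elements, each at most
`C k^L`, so it contributes at least `c0 / (2 C) =: c1` to `∑ 1/m`. Summing over `L = L0 + i j`, `i = 1, ..., I` (disjoint intervals): `∑_{m ∈ E, m < C k^(L0 + I j)} 1/m ≥ I c1`. For `N ≥ C k^L0` let `I` be maximal with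
`C k^(L0 + I j) ≤ N + 1`; then `N + 1 < C k^(L0 + (I + 1) j)`, so `H_N ≤ 1 + log (N + 1) ≤ 1 + log C + (L0 + (I+1) j) log k ≤ c2 (I + 1)` and `pd E N ≥ I c1 / (c2 (I + 1)) ≥ c1 / (2 c2)` once `I ≥ 1`. Pass to the limit.
(`Harmonic` facts: `harmonic_le_one_add_log`.)
`lm_sum_le`: `∑_{i ∈ s} pd (E i) N = (∑_{m ≤ N} #{i ∈ s | m ∈ E i} / m) / H_N ≤ K`; limit of a finite sum.
-/

open Finset Filter Topology

namespace Pool.Agent.Helper17.AB

theorem lm_pos (E : Set ℕ) (k C L0 : ℕ) (c0 : ℝ) (hk : 2 ≤ k) (hC : 1 ≤ C) (hc0 : 0 < c0)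
    (h : ∀ L, L0 ≤ L → c0 * (k : ℝ) ^ L ≤ ((E ∩ Set.Iio (C * k ^ L)).ncard : ℝ)) : 0 < lm E := by
  classical
  obtain ⟨j, hj⟩ : ∃ j : ℕ, 2 * (C : ℝ) / c0 < (k : ℝ) ^ j :=
    pow_unbounded_of_one_lt _ (by exact_mod_cast hk)
  have hk0 : (0 : ℝ) < k := by positivity
  have hC0 : (0 : ℝ) < C := by exact_mod_cast hC
  set q : ℕ := k ^ (j + 1) with hq
  have hqR : (q : ℝ) = (k : ℝ) ^ (j + 1) := by rw [hq]; push_cast; rfl
  have hq2 : 2 ≤ q := by
    calc 2 ≤ k := hk
      _ = k ^ 1 := (pow_one k).symm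
      _ ≤ k ^ (j + 1) := Nat.pow_le_pow_right (by omega) (by omega)
  have hq0 : (0 : ℝ) < q := by positivity
  have hqc : 2 * (C : ℝ) / c0 ≤ q := by
    rw [hqR, pow_succ]
    have h1 : (1 : ℝ) ≤ k := by exact_mod_cast (by omega : 1 ≤ k)
    have h2 : (k : ℝ) ^ j ≤ (k : ℝ) ^ j * k := le_mul_of_one_le_right (by positivity) h1
    linarith
  set B : ℕ → ℕ := fun i => C * k ^ L0 * q ^ i with hB
  have hB1 : ∀ i, 1 ≤ B i := fun i => by
    have h1 : 0 < C * k ^ L0 * q ^ i := by positivity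
    exact h1
  have hBs : ∀ i, B (i + 1) = B i * q := fun i => by
    simp only [hB]
    rw [pow_succ, mul_assoc, mul_assoc, mul_assoc]
  have hBsR : ∀ i, (B (i + 1) : ℝ) = B i * q := fun i => by
    rw [hBs]; push_cast; rfl
  have hBlt : ∀ i, B i < B (i + 1) := fun i => by
    rw [hBs]
    have := hB1 i
    nlinarith
  have hBk : ∀ i, B i = C * k ^ (L0 + (j + 1) * i) := fun i => by
    simp only [hB, hq]
    rw [← pow_mul, mul_assoc, ← pow_add]
  set g : ℕ → ℝ := fun m => if m ∈ E then (1 / (m : ℝ)) else 0 with hg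
  set S : ℕ → ℝ := fun n => ∑ m ∈ range n, (1 / (m : ℝ)) with hS
  set SE : ℕ → ℝ := fun n => ∑ m ∈ range n, g m with hSE
  have hg0 : ∀ m, 0 ≤ g m := fun m => by
    simp only [hg]
    split_ifs <;> positivity
  have hSm : Monotone S := by
    intro a b hab
    exact sum_le_sum_of_subset_of_nonneg (range_mono hab) (fun i _ _ => by positivity)
  have hSEm : Monotone SE := by
    intro a b hab
    exact sum_le_sum_of_subset_of_nonneg (range_mono hab) (fun i _ _ => hg0 i)
  have hpd : ∀ N, pd E N = SE (N + 1) / S (N + 1) := fun N => by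
    unfold pd
    simp only [hSE, hS, hg]
    rw [sum_filter]
  -- blocks
  have hA : ∀ i, S (B (i + 1)) ≤ S (B i) + q := by
    intro i
    simp only [hS]
    rw [← sum_range_add_sum_Ico _ (hBlt i).le]
    have h1 : ∑ m ∈ Ico (B i) (B (i + 1)), (1 / (m : ℝ)) ≤
        ∑ _m ∈ Ico (B i) (B (i + 1)), (1 / (B i : ℝ)) := by
      apply sum_le_sum
      intro m hm
      rw [mem_Ico] at hm
      have hb : (0 : ℝ) < B i := by exact_mod_cast hB1 i
      exact one_div_le_one_div_of_le hb (by exact_mod_cast hm.1)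
    rw [sum_const, Nat.card_Ico, nsmul_eq_mul, Nat.cast_sub (hBlt i).le, hBsR] at h1
    have hb : (0 : ℝ) < B i := by exact_mod_cast hB1 i
    have h2 : ((B i : ℝ) * q - B i) * (1 / (B i : ℝ)) = q - 1 := by
      field_simp
    rw [h2] at h1
    linarith
  set c1 : ℝ := c0 / (2 * C) with hc1
  have hc1p : 0 < c1 := by positivity
  have hcard : ∀ n, (((range n).filter (· ∈ E)).card : ℝ) = ((E ∩ Set.Iio n).ncard : ℝ) := by
    intro n
    rw [← Set.ncard_coe_finset]
    congr 2
    ext m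
    simp [and_comm]
  have hBE : ∀ i, SE (B i) + c1 ≤ SE (B (i + 1)) := by
    intro i
    simp only [hSE]
    rw [← sum_range_add_sum_Ico _ (hBlt i).le]
    have hb : (0 : ℝ) < B i := by exact_mod_cast hB1 i
    have hb1 : (0 : ℝ) < B (i + 1) := by exact_mod_cast hB1 (i + 1)
    have h1 : ∑ _m ∈ (Ico (B i) (B (i + 1))).filter (· ∈ E), (1 / (B (i + 1) : ℝ)) ≤
        ∑ m ∈ Ico (B i) (B (i + 1)), g m := by
      simp only [hg]
      rw [← sum_filter]
      apply sum_le_sum
      intro m hm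
      rw [mem_filter, mem_Ico] at hm
      have hm0 : (0 : ℝ) < m := by
        have := hB1 i
        exact_mod_cast (by omega : 0 < m)
      exact one_div_le_one_div_of_le hm0 (by exact_mod_cast hm.1.2.le)
    rw [sum_const, nsmul_eq_mul] at h1
    have h2 : ((range (B (i + 1))).filter (· ∈ E)).card ≤
        (range (B i)).card + ((Ico (B i) (B (i + 1))).filter (· ∈ E)).card := by
      have h3 : (range (B (i + 1))).filter (· ∈ E) ⊆
          range (B i) ∪ (Ico (B i) (B (i + 1))).filter (· ∈ E) := by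
        intro m hm
        rw [mem_filter, mem_range] at hm
        rw [mem_union, mem_range, mem_filter, mem_Ico]
        by_cases hmi : m < B i
        · exact Or.inl hmi
        · exact Or.inr ⟨⟨by omega, hm.1⟩, hm.2⟩
      exact (card_le_card h3).trans (card_union_le _ _)
    rw [card_range] at h2
    have h4 : c0 * (k : ℝ) ^ (L0 + (j + 1) * (i + 1)) ≤
        (((range (B (i + 1))).filter (· ∈ E)).card : ℝ) := by
      rw [hcard, hBk]
      exact h _ (by omega)
    have h5 : (B (i + 1) : ℝ) = C * (k : ℝ) ^ (L0 + (j + 1) * (i + 1)) := by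
      rw [hBk]; push_cast; rfl
    have h6 : (((range (B (i + 1))).filter (· ∈ E)).card : ℝ) ≤
        B i + (((Ico (B i) (B (i + 1))).filter (· ∈ E)).card : ℝ) := by exact_mod_cast h2
    have h7 : c0 / C * (B (i + 1) : ℝ) - B i ≤
        (((Ico (B i) (B (i + 1))).filter (· ∈ E)).card : ℝ) := by
      have h8 : c0 / C * (B (i + 1) : ℝ) = c0 * (k : ℝ) ^ (L0 + (j + 1) * (i + 1)) := by
        rw [h5]
        field_simp
      rw [h8]
      linarith
    have h9 : (B i : ℝ) ≤ c1 * B (i + 1) := by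
      rw [hBsR, hc1]
      have h10 : 2 * (C : ℝ) ≤ q * c0 := (div_le_iff₀ hc0).mp hqc
      have h11 : c0 / (2 * C) * ((B i : ℝ) * q) = (B i : ℝ) * ((q * c0) / (2 * C)) := by ring
      rw [h11]
      have h12 : 1 ≤ (q * c0) / (2 * C) := by
        rw [le_div_iff₀ (by positivity)]
        linarith
      exact le_mul_of_one_le_right hb.le h12
    have h13 : c1 * (B (i + 1) : ℝ) ≤ (((Ico (B i) (B (i + 1))).filter (· ∈ E)).card : ℝ) := by
      have h14 : c0 / C * (B (i + 1) : ℝ) = c1 * B (i + 1) + c1 * B (i + 1) := by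
        rw [hc1]
        field_simp
        ring
      linarith
    have h15 : c1 ≤ (((Ico (B i) (B (i + 1))).filter (· ∈ E)).card : ℝ) *
        (1 / (B (i + 1) : ℝ)) := by
      rw [mul_one_div, le_div_iff₀ hb1]
      exact h13
    linarith
  have hSB : ∀ i : ℕ, S (B i) ≤ B 0 + (i : ℝ) * q := by
    intro i
    induction i with
    | zero =>
      simp only [hS]
      have h1 : ∑ m ∈ range (B 0), (1 / (m : ℝ)) ≤ ∑ _m ∈ range (B 0), (1 : ℝ) := by
        apply sum_le_sum
        intro m _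
        rcases Nat.eq_zero_or_pos m with hm | hm
        · subst hm
          simp
        · rw [div_le_one (by exact_mod_cast hm)]
          exact_mod_cast hm
      rw [sum_const, card_range, nsmul_eq_mul, mul_one] at h1
      simpa using h1
    | succ i ih =>
      have := hA i
      push_cast
      linarith
  have hSEB : ∀ i : ℕ, (i : ℝ) * c1 ≤ SE (B i) := by
    intro i
    induction i with
    | zero =>
      simp only [Nat.cast_zero, zero_mul]
      exact sum_nonneg fun m _ => hg0 m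
    | succ i ih =>
      have := hBE i
      push_cast
      linarith
  have hSpos : ∀ N, 1 ≤ N → 0 < S (N + 1) := by
    intro N hN
    have h1 : S 2 ≤ S (N + 1) := hSm (by omega)
    have h2 : S 2 = 1 := by
      simp [hS, sum_range_succ]
    linarith
  set δ : ℝ := c1 / (2 * (B 0 + q)) with hδ
  have hB0 : (0 : ℝ) < B 0 := by exact_mod_cast hB1 0
  have hδp : 0 < δ := by positivity
  have hlow : ∀ N, B 1 ≤ N → δ ≤ pd E N := by
    intro N hN
    have hex : ∃ i, N + 1 < B i := by
      have hi : ∀ i, i < B i := by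
        intro i
        induction i with
        | zero => exact hB1 0
        | succ i ih => have := hBlt i; omega
      exact ⟨N + 1, hi _⟩
    obtain ⟨m, hm1, hm2⟩ : ∃ m, N + 1 < B m ∧ ∀ i < m, ¬ (N + 1 < B i) :=
      ⟨Nat.find hex, Nat.find_spec hex, fun i hi => Nat.find_min hex hi⟩
    have h01 := hBlt 0
    have hm0 : m ≠ 0 := by
      rintro rfl
      simp only [zero_add] at h01
      omega
    have hm1' : m ≠ 1 := by
      rintro rfl
      omega
    obtain ⟨I, rfl⟩ : ∃ I, m = I + 1 := ⟨m - 1, by omega⟩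
    have hI : 1 ≤ I := by omega
    have hBI : B I ≤ N + 1 := by
      have := hm2 I (by omega)
      omega
    have hN1 : 1 ≤ N := by
      have := hB1 1
      omega
    rw [hpd, le_div_iff₀ (hSpos N hN1)]
    have h1 : (I : ℝ) * c1 ≤ SE (N + 1) := (hSEB I).trans (hSEm hBI)
    have h2 : S (N + 1) ≤ B 0 + ((I + 1 : ℕ) : ℝ) * q := (hSm hm1.le).trans (hSB (I + 1))
    have hIR : (1 : ℝ) ≤ I := by exact_mod_cast hI
    have h3 : S (N + 1) ≤ 2 * (B 0 + q) * I := by
      push_cast at h2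
      nlinarith
    calc δ * S (N + 1) ≤ δ * (2 * (B 0 + q) * I) := mul_le_mul_of_nonneg_left h3 hδp.le
      _ = I * c1 := by
        rw [hδ]
        field_simp
      _ ≤ SE (N + 1) := h1
  have hev : ∀ᶠ N in (hyperfilter ℕ : Filter ℕ), δ ≤ pd E N := by
    apply Nat.hyperfilter_le_atTop
    exact eventually_atTop.mpr ⟨B 1, hlow⟩
  exact hδp.trans_le (ge_of_tendsto (lm_tendsto E) hev)

end Pool.Agent.Helper17.AB
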