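import Pool.Agent.Helper17.AB.AutB
import Pool.Agent.Helper17.AB.Mean4

/-!
Block AB-DEa: dead prefixes are dense (only `dead_dense`).

Paper proofs.
* `dead_dense`: suppose `n ≥ 1` has no dead extension `k^L n + M`. For every value `w ∈ V` taken by `v` at some alive (not dead) `x ≥ 1` choose `ℓ_w`, `M_w < k^(ℓ_w)` with `k^(ℓ_w) x + M_w ∈ S`; by `Aut.block` the same `ℓ_w, M_w` work for every `x' ≥ 1`
  with `v x' = w`. Let `ℓ` be the maximum of the `ℓ_w`. For `L ≥ ℓ`, every `e = k^(L-ℓ) n + M`, `M < k^(L-ℓ)`, is alive, so `x_e = k^(ℓ_w) e + M_w ∈ S`, `w = v e`, `x_e < k^L (n+1)`. `e ↦ x_e` is injective (if `x_e = x_e'` with `ℓ_w ≤ ℓ_w'`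
  then, `e, e'` lying in `[k^(L-ℓ) n, k^(L-ℓ) (n+1))`, first `ℓ_w = ℓ_w'` and then `e = e'`; this is `uniq`-like: `k^(ℓ_w) e + M_w = k^(ℓ_w + L - ℓ) n + M'`). So `#(S ∩ [0, (n+1) k^L)) ≥ k^(L-ℓ)` for `L ≥ ℓ`: `lm_pos` with `c0 = k^(-ℓ)`: contradiction.
* `pump`: `S` infinite: take `x ∈ S`, `x ≥ k^(#V + 1)`; the prefixes `x_i = x / k^i`, `i ≤ #V`, are `≥ 1`; two of them have the same state: `v x_i = v x_j`, `i < j`. `u = x_j`, `ℓ = j - i`, `x_i = k^ℓ u + w`, `w < k^ℓ`, `x = k^i x_i + z`, `z < k^i`.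
  Define `u_0 = u`, `u_{t+1} = k^ℓ u_t + w`; `v u_t = v u` for all `t` (`block_v`), so `X t := k^i u_t + z ∈ S` for all `t` (`block`, `v u_t = v x_i`). `u_t / k^(ℓ t)` is nondecreasing and bounded: `u_{t+1}/k^(ℓ(t+1)) = u_t / k^(ℓ t) + w / k^(ℓ(t+1))`,
  so it converges to `A0 = u + w / (k^ℓ - 1) > 0` (explicit formula `u_t = k^(ℓ t) (u + w/(k^ℓ-1)) - w/(k^ℓ-1)` by induction), and `X t / k^(ℓ t) → k^i A0 =: A > 0`.
-/

open Finset Filter Topology

namespace Pool.Agent.Helper17.AB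

variable {k : ℕ} {V : Type} {v : ℕ → V} {S : Set ℕ}

private theorem bd26 {l j M r : ℕ} (hr : r < k ^ l) (hM : M < k ^ j) : k ^ l * M + r < k ^ (l + j) := by
  calc k ^ l * M + r < k ^ l * M + k ^ l := by omega
    _ = k ^ l * (M + 1) := by ring
    _ ≤ k ^ l * k ^ j := Nat.mul_le_mul_left _ hM
    _ = k ^ (l + j) := (pow_add _ _ _).symm

private theorem uniq26' {n j j' r r' : ℕ} (hk : 2 ≤ k) (hn : 1 ≤ n) (hr : r < k ^ j)
    (he : k ^ j * n + r = k ^ j' * n + r') : ¬ j < j' := by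
  intro h
  have h1 : k ^ (j + 1) ≤ k ^ j' := Nat.pow_le_pow_right (by omega) h
  have h2 : k ^ (j + 1) * n ≤ k ^ j' * n := Nat.mul_le_mul_right _ h1
  have h3 : k ^ j * n + k ^ j * n ≤ k ^ (j + 1) * n := by
    rw [pow_succ, mul_assoc, mul_comm k n, ← mul_assoc]
    calc k ^ j * n + k ^ j * n = k ^ j * n * 2 := by ring
      _ ≤ k ^ j * n * k := Nat.mul_le_mul_left _ hk
  have h4 : k ^ j ≤ k ^ j * n := Nat.le_mul_of_pos_right _ hn
  omega

private theorem uniq26 {n j j' r r' : ℕ} (hk : 2 ≤ k) (hn : 1 ≤ n) (hr : r < k ^ j) (hr' : r' < k ^ j')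
    (he : k ^ j * n + r = k ^ j' * n + r') : j = j' := by
  have h1 := uniq26' hk hn hr he
  have h2 := uniq26' hk hn hr' he.symm
  omega

theorem dead_dense (hS : Aut k v S) (h0 : lm S = 0) (n : ℕ) (hn : 1 ≤ n) : ∃ L M, M < k ^ L ∧ Dead k S (k ^ L * n + M) := by
  by_contra hne
  push Not at hne
  have hk := hS.k2
  have hk0 : 0 < k := by omega
  have hfin := hS.fin
  -- continuations, depending on the state only
  have hch : ∀ w : V, ∃ q : ℕ × ℕ, ∀ x, 1 ≤ x → ¬ Dead k S x → v x = w → q.2 < k ^ q.1 ∧ k ^ q.1 * x + q.2 ∈ S := by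
    intro w
    by_cases hw : ∃ x, 1 ≤ x ∧ ¬ Dead k S x ∧ v x = w
    · obtain ⟨x, hx1, hx2, hx3⟩ := hw
      unfold Dead at hx2
      push Not at hx2
      obtain ⟨L, M, hM, hLM⟩ := hx2
      refine ⟨(L, M), fun x' hx' _ hv => ⟨hM, ?_⟩⟩
      exact (hS.block hx1 hx' (hx3.trans hv.symm) L M hM).1 hLM
    · exact ⟨(0, 0), fun x h1 h2 h3 => absurd ⟨x, h1, h2, h3⟩ hw⟩
  choose q hq using hch
  obtain ⟨B, hB⟩ : ∃ B, ∀ w, (q w).1 ≤ B := by
    obtain ⟨B, hB⟩ := (Set.finite_range fun w => (q w).1).bddAbove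
    exact ⟨B, fun w => hB ⟨w, rfl⟩⟩
  have hpos := lm_pos S k (n + 1) B (1 / (k : ℝ) ^ B) hk (by omega) (by positivity) (by
    intro L hL
    let f : ℕ → ℕ := fun M => k ^ (q (v (k ^ (L - B) * n + M))).1 * (k ^ (L - B) * n + M) + (q (v (k ^ (L - B) * n + M))).2
    have hx1 : ∀ M, 1 ≤ k ^ (L - B) * n + M := fun M => by
      have := Nat.mul_pos (Nat.pow_pos (n := L - B) hk0) hn
      omega
    have hf : ∀ M < k ^ (L - B), (q (v (k ^ (L - B) * n + M))).2 < k ^ (q (v (k ^ (L - B) * n + M))).1 ∧ f M ∈ S :=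
      fun M hM => hq _ _ (hx1 M) (hne (L - B) M hM) rfl
    have hlt : ∀ M < k ^ (L - B), f M < (n + 1) * k ^ L := by
      intro M hM
      have h1 := (hf M hM).1
      have h2 : f M < k ^ (q (v (k ^ (L - B) * n + M))).1 * (k ^ (L - B) * n + M + 1) := by
        change k ^ (q (v (k ^ (L - B) * n + M))).1 * (k ^ (L - B) * n + M) + (q (v (k ^ (L - B) * n + M))).2 < _
        rw [Nat.mul_succ]
        omega
      refine lt_of_lt_of_le h2 ?_
      have h3 : k ^ (L - B) * n + M + 1 ≤ k ^ (L - B) * (n + 1) := by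
        rw [mul_add, mul_one]
        omega
      have h4 : k ^ (q (v (k ^ (L - B) * n + M))).1 ≤ k ^ B := Nat.pow_le_pow_right hk0 (hB _)
      calc _ ≤ k ^ B * (k ^ (L - B) * (n + 1)) := Nat.mul_le_mul h4 h3
        _ = (n + 1) * k ^ L := by
          rw [← mul_assoc, ← pow_add, Nat.add_sub_cancel' hL, mul_comm]
    have hinj : Set.InjOn f (Set.Iio (k ^ (L - B))) := by
      intro M hM M' hM' he
      have hM := Set.mem_Iio.1 hM
      have hM' := Set.mem_Iio.1 hM'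
      have h1 := (hf M hM).1
      have h1' := (hf M' hM').1
      have he : k ^ (q (v (k ^ (L - B) * n + M))).1 * (k ^ (L - B) * n + M) + (q (v (k ^ (L - B) * n + M))).2 =
        k ^ (q (v (k ^ (L - B) * n + M'))).1 * (k ^ (L - B) * n + M') + (q (v (k ^ (L - B) * n + M'))).2 := he
      generalize (q (v (k ^ (L - B) * n + M))).1 = l at h1 he
      generalize (q (v (k ^ (L - B) * n + M))).2 = r at h1 he
      generalize (q (v (k ^ (L - B) * n + M'))).1 = l' at h1' he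
      generalize (q (v (k ^ (L - B) * n + M'))).2 = r' at h1' he
      have e1 : k ^ (l + (L - B)) * n + (k ^ l * M + r) = k ^ (l' + (L - B)) * n + (k ^ l' * M' + r') := by
        rw [pow_add, pow_add]
        rw [mul_add, mul_add] at he
        rw [mul_assoc, mul_assoc]
        omega
      have b1 := bd26 h1 hM
      have b2 := bd26 h1' hM'
      have hl := uniq26 hk hn b1 b2 e1
      have hl2 : l = l' := by omega
      subst hl2
      have e2 : k ^ l * M + r = k ^ l * M' + r' := by omega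
      have e3 : (k ^ l * M + r) / k ^ l = (k ^ l * M' + r') / k ^ l := by rw [e2]
      rwa [Nat.mul_add_div (Nat.pow_pos hk0), Nat.mul_add_div (Nat.pow_pos hk0), Nat.div_eq_of_lt h1,
        Nat.div_eq_of_lt h1', add_zero, add_zero] at e3
    have hsub : f '' Set.Iio (k ^ (L - B)) ⊆ S ∩ Set.Iio ((n + 1) * k ^ L) := by
      rintro _ ⟨M, hM, rfl⟩
      exact ⟨(hf M hM).2, hlt M hM⟩
    have hfin2 : (S ∩ Set.Iio ((n + 1) * k ^ L)).Finite := (Set.finite_Iio _).subset Set.inter_subset_right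
    have h1 := Set.ncard_le_ncard hsub hfin2
    rw [hinj.ncard_image] at h1
    have h2 : (Set.Iio (k ^ (L - B))).ncard = k ^ (L - B) := by
      rw [← Finset.coe_range, Set.ncard_coe_finset, Finset.card_range]
    rw [h2] at h1
    have h3 : 1 / (k : ℝ) ^ B * (k : ℝ) ^ L = ((k ^ (L - B) : ℕ) : ℝ) := by
      have hk' : (k : ℝ) ≠ 0 := by exact_mod_cast hk0.ne'
      push_cast
      rw [pow_sub₀ _ hk' hL]
      ring
    rw [h3]
    exact_mod_cast h1)
  exact absurd h0 hpos.ne'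

end Pool.Agent.Helper17.AB
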