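import Pool.Agent.Helper17.AB.AutB

/-!
Block AB-DEb: pumping (only `pump`).

Paper proofs.
* `dead_dense`: suppose `n ≥ 1` has no dead extension `k^L n + M`. For every value `w ∈ V` taken by `v` at some alive (not dead) `x ≥ 1` choose `ℓ_w`, `M_w < k^(ℓ_w)` with `k^(ℓ_w) x + M_w ∈ S`; by `Aut.block` the same `ℓ_w, M_w` work for every `x' ≥ 1`
  with `v x' = w`. Let `ℓ` be the maximum of the `ℓ_w`. For `L ≥ ℓ`, every `e = k^(L-ℓ) n + M`, `M < k^(L-ℓ)`, is alive, so `x_e = k^(ℓ_w) e + M_w ∈ S`, `w = v e`, `x_e < k^L (n+1)`. `e ↦ x_e` is injective (if `x_e = x_e'` with `ℓ_w ≤ ℓ_w'`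
  then, `e, e'` lying in `[k^(L-ℓ) n, k^(L-ℓ) (n+1))`, first `ℓ_w = ℓ_w'` and then `e = e'`; this is `uniq`-like: `k^(ℓ_w) e + M_w = k^(ℓ_w + L - ℓ) n + M'`). So `#(S ∩ [0, (n+1) k^L)) ≥ k^(L-ℓ)` for `L ≥ ℓ`: `lm_pos` with `c0 = k^(-ℓ)`: contradiction.
* `pump`: `S` infinite: take `x ∈ S`, `x ≥ k^(#V + 1)`; the prefixes `x_i = x / k^i`, `i ≤ #V`, are `≥ 1`; two of them have the same state: `v x_i = v x_j`, `i < j`. `u = x_j`, `ℓ = j - i`, `x_i = k^ℓ u + w`, `w < k^ℓ`, `x = k^i x_i + z`, `z < k^i`.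
  Define `u_0 = u`, `u_{t+1} = k^ℓ u_t + w`; `v u_t = v u` for all `t` (`block_v`), so `X t := k^i u_t + z ∈ S` for all `t` (`block`, `v u_t = v x_i`). `u_t / k^(ℓ t)` is nondecreasing and bounded: `u_{t+1}/k^(ℓ(t+1)) = u_t / k^(ℓ t) + w / k^(ℓ(t+1))`,
  so it converges to `A0 = u + w / (k^ℓ - 1) > 0` (explicit formula `u_t = k^(ℓ t) (u + w/(k^ℓ-1)) - w/(k^ℓ-1)` by induction), and `X t / k^(ℓ t) → k^i A0 =: A > 0`.
-/

open Finset Filter Topology

namespace Pool.Agent.Helper17.AB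

variable {k : ℕ} {V : Type} {v : ℕ → V} {S : Set ℕ}

/-- The iteration of `n ↦ K n + w`. -/
private def it46 (K w u : ℕ) : ℕ → ℕ
  | 0 => u
  | t + 1 => K * it46 K w u t + w

private theorem it46_real {K w u : ℕ} (hK : 2 ≤ K) (t : ℕ) :
    ((it46 K w u t : ℕ) : ℝ) = (K : ℝ) ^ t * (u + w / (K - 1)) - w / (K - 1) := by
  have h : ((K : ℝ) - 1) ≠ 0 := by
    have : (2 : ℝ) ≤ K := by exact_mod_cast hK
    linarith
  induction t with
  | zero => simp [it46]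
  | succ t ih =>
    simp only [it46]
    push_cast
    rw [ih]
    field_simp
    ring

theorem pump (hS : Aut k v S) (hi : S.Infinite) :
    ∃ (X : ℕ → ℕ) (l : ℕ) (A : ℝ), 1 ≤ l ∧ 0 < A ∧ (∀ t, X t ∈ S) ∧ Tendsto (fun t => (X t : ℝ) / (k : ℝ) ^ (l * t)) atTop (𝓝 A) := by
  classical
  have hfin := hS.fin
  have : Fintype V := Fintype.ofFinite V
  have hk2 := hS.k2
  have hk0 : 0 < k := by omega
  set c : ℕ := Fintype.card V with hc
  obtain ⟨x, hxS, hx⟩ := hi.exists_gt (k ^ c)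
  have hpre : ∀ i ≤ c, 1 ≤ x / k ^ i := fun i hi =>
    (Nat.one_le_div_iff (by positivity)).2 ((Nat.pow_le_pow_right hk0 hi).trans hx.le)
  obtain ⟨a, b, hab, hv⟩ := Fintype.exists_ne_map_eq_of_card_lt
    (fun i : Fin (c + 1) => v (x / k ^ (i : ℕ))) (by rw [Fintype.card_fin]; omega)
  obtain ⟨i, j, hij, hjc, hvv⟩ : ∃ i j : ℕ, i < j ∧ j ≤ c ∧ v (x / k ^ i) = v (x / k ^ j) := by
    rcases lt_or_gt_of_ne (fun h => hab (Fin.ext h) : (a : ℕ) ≠ b) with h | h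
    · exact ⟨a, b, h, by omega, hv⟩
    · exact ⟨b, a, h, by omega, hv.symm⟩
  set l : ℕ := j - i with hl
  have hl1 : 1 ≤ l := by omega
  set u : ℕ := x / k ^ j with hu
  set y : ℕ := x / k ^ i with hy
  have hu1 : 1 ≤ u := hpre j hjc
  have hy1 : 1 ≤ y := hpre i (by omega)
  have huy : u = y / k ^ l := by
    rw [hu, hy, Nat.div_div_eq_div_mul, ← pow_add]
    congr 2
    omega
  set w : ℕ := y % k ^ l with hw
  have hwl : w < k ^ l := Nat.mod_lt _ (by positivity)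
  have hyw : k ^ l * u + w = y := by rw [huy, hw]; exact Nat.div_add_mod y (k ^ l)
  set z : ℕ := x % k ^ i with hz
  have hzi : z < k ^ i := Nat.mod_lt _ (by positivity)
  have hxz : k ^ i * y + z = x := by rw [hy, hz]; exact Nat.div_add_mod x (k ^ i)
  have hK : 2 ≤ k ^ l := by
    calc 2 ≤ k := hk2
      _ = k ^ 1 := (pow_one k).symm
      _ ≤ k ^ l := Nat.pow_le_pow_right hk0 hl1
  have hut : ∀ t, 1 ≤ it46 (k ^ l) w u t ∧ v (it46 (k ^ l) w u t) = v u := by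
    intro t
    induction t with
    | zero => exact ⟨hu1, rfl⟩
    | succ t ih =>
      refine ⟨?_, ?_⟩
      · have h1 : 1 ≤ k ^ l * it46 (k ^ l) w u t := Nat.mul_pos (by positivity) ih.1
        exact h1.trans (Nat.le_add_right _ _)
      · have h1 := hS.block_v ih.1 hu1 ih.2 l w hwl
        rw [hyw, hvv] at h1
        exact h1
  have hKr : (1 : ℝ) < (k : ℝ) ^ l := by
    have : (2 : ℝ) ≤ ((k ^ l : ℕ) : ℝ) := by exact_mod_cast hK
    push_cast at this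
    linarith
  set q : ℝ := (w : ℝ) / (((k ^ l : ℕ) : ℝ) - 1) with hq
  have hq0 : 0 ≤ q := by
    refine div_nonneg (Nat.cast_nonneg _) ?_
    push_cast
    linarith
  refine ⟨fun t => k ^ i * it46 (k ^ l) w u t + z, l, (k : ℝ) ^ i * (u + q), hl1, ?_, fun t => ?_, ?_⟩
  · have h1 : (1 : ℝ) ≤ u := by exact_mod_cast hu1
    have h2 : (0 : ℝ) < (k : ℝ) ^ i := by positivity
    exact mul_pos h2 (by linarith)
  · have h1 := hS.block (hut t).1 hy1 ((hut t).2.trans hvv.symm) i z hzi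
    rw [hxz] at h1
    exact h1.2 hxS
  · have e : ∀ t : ℕ, (((k ^ i * it46 (k ^ l) w u t + z : ℕ)) : ℝ) / (k : ℝ) ^ (l * t) =
        (k : ℝ) ^ i * (u + q) + (z - (k : ℝ) ^ i * q) * (((k : ℝ) ^ l)⁻¹) ^ t := by
      intro t
      have h0 : ((k : ℝ) ^ l) ^ t ≠ 0 := by positivity
      push_cast
      rw [it46_real hK t, ← hq, pow_mul, inv_pow]
      push_cast
      field_simp
      ring
    have hlim : Tendsto (fun t : ℕ => (k : ℝ) ^ i * (u + q) + (z - (k : ℝ) ^ i * q) * (((k : ℝ) ^ l)⁻¹) ^ t) atTop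
        (𝓝 ((k : ℝ) ^ i * (u + q) + (z - (k : ℝ) ^ i * q) * 0)) :=
      ((tendsto_pow_atTop_nhds_zero_of_lt_one (inv_nonneg.2 (by positivity)) (inv_lt_one_of_one_lt₀ hKr)).const_mul
        _).const_add _
    rw [mul_zero, add_zero] at hlim
    exact hlim.congr fun t => (e t).symm

end Pool.Agent.Helper17.AB
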