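import Mathlib

/-!
Project AB (MP_190a72_nt): a set of natural numbers recognised by a finite automaton reading base `k = 2^α 3^β` digits and
mapped into itself by Conway's map, up to finitely many exceptions, is finite or cofinite. Definitions.
-/

open Finset Filter

namespace Pool.Agent.Helper17.AB

/-- Conway's map. -/
def T (m : ℕ) : ℕ := if m % 2 = 0 then 3 * m / 2 else if m % 4 = 1 then (3 * m + 1) / 4 else (3 * m - 1) / 4

/-- Its inverse. -/
def U (m : ℕ) : ℕ := if m % 3 = 0 then 2 * (m / 3) else if m % 3 = 1 then 4 * (m / 3) + 1 else 4 * (m / 3) + 3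

/-- A permutation `F` of `ℕ` (inverse `G`) with `F (n + p^(c n) K) = F n + p'^(e n) K`, `c, e` valued in `{1, 2}`.
`br`: in every progression `n + w K`, `w` prime to `p`, the two branches `p^c0 F(x) + 1 = p'^e0 x` and `p^c0 F(x) = p'^e0 x + 1`
occur. Used for `(p, p') = (2, 3)`, `F = T` and `(3, 2)`, `F = U`. -/
structure Sys (p p' : ℕ) (F G c e : ℕ → ℕ) : Prop where
  pp : (p = 2 ∧ p' = 3) ∨ (p = 3 ∧ p' = 2)
  GF : ∀ n, G (F n) = n
  FG : ∀ n, F (G n) = n
  c1 : ∀ n, 1 ≤ c n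
  c2 : ∀ n, c n ≤ 2
  e1 : ∀ n, 1 ≤ e n
  e2 : ∀ n, e n ≤ 2
  aff : ∀ n K, F (n + p ^ c n * K) = F n + p' ^ e n * K
  cper : ∀ n K, c (n + p ^ c n * K) = c n
  eper : ∀ n K, e (n + p ^ c n * K) = e n
  br : ∃ c0 e0 : ℕ, ∀ n w : ℕ, w.Coprime p →
    (∃ K, p ^ c0 * F (n + w * K) + 1 = p' ^ e0 * (n + w * K)) ∧ (∃ K, p ^ c0 * F (n + w * K) = p' ^ e0 * (n + w * K) + 1)

/-- The sum of the first `j` costs along the orbit of `n`. -/
def sm (F c : ℕ → ℕ) (j n : ℕ) : ℕ := ∑ i ∈ range j, c (F^[i] n)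

/-- Partial logarithmic density up to `N`. -/
noncomputable def pd (E : Set ℕ) (N : ℕ) : ℝ := by
  classical exact (∑ m ∈ (range (N + 1)).filter (· ∈ E), (1 / (m : ℝ))) / (∑ m ∈ range (N + 1), (1 / (m : ℝ)))

/-- The logarithmic mean along an ultrafilter. -/
noncomputable def lm (E : Set ℕ) : ℝ := lim (Filter.map (pd E) (hyperfilter ℕ : Filter ℕ))

/-- `v` is a finite state of the digits of `n` (most significant first) and determines membership in `S`, for `n ≥ 1`. -/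
structure Aut (k : ℕ) {V : Type} (v : ℕ → V) (S : Set ℕ) : Prop where
  k2 : 2 ≤ k
  fin : Finite V
  out : ∀ n n', 1 ≤ n → 1 ≤ n' → v n = v n' → (n ∈ S ↔ n' ∈ S)
  step : ∀ n n' d, 1 ≤ n → 1 ≤ n' → d < k → v n = v n' → v (k * n + d) = v (k * n' + d)

/-- The places of `[c k^L n, c k^L (n+1))`, `L ≥ 0`, where the blocks at `n` and at `n'` differ. -/
def XX (k : ℕ) (S : Set ℕ) (c n n' : ℕ) : Set ℕ :=
  {x | ∃ L M, M < c * k ^ L ∧ x = c * k ^ L * n + M ∧ ¬ (x ∈ S ↔ c * k ^ L * n' + M ∈ S)}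

/-- The blocks at `n` and at `n'` agree almost everywhere. -/
def RR (k : ℕ) (S : Set ℕ) (c n n' : ℕ) : Prop := lm (XX k S c n n') = 0

/-- No number with prefix `n` in base `k` belongs to `S`. -/
def Dead (k : ℕ) (S : Set ℕ) (n : ℕ) : Prop := ∀ L M, M < k ^ L → k ^ L * n + M ∉ S

end Pool.Agent.Helper17.AB
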