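import Pool.Agent.Helper17.AB.Aff

/-!
Block AB-DN: abstract density functions `D n q` (mean of the progression `n + q ℕ`): first consequences.

Paper proofs.
* `per`: `n ≡ n' [MOD q]`, say `n' = n + q s`: induction on `s` with `D2`.
* `iter`: induction on `j`: `D n (p^(c n + sm F c j (F n)) K) ≤ D (F n) (p'^(e n) p^(sm F c j (F n)) K) ≤ D (F^[j] (F n)) (p'^(sm F e j (F n)) p'^(e n) K)` (`D3` with `K := p^(..) K`, induction with `K := p'^(e n) K`).
* `max`: the set of values `D n (k^i q)` is finite and nonempty; let `M = D n0 (k^i0 q)` be the largest, `q1 = k^i0 q`. For `s` and `n ≡ n0 [MOD q1]` (by `per` choose any representative): by `D1` with `t = k^s`,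
  `M = D n0 q1 = (∑_{i < k^s} D (n0 + i q1) (k^s q1)) / k^s`, each term is a value (`k^s q1 = k^(i0+s) q`), so at most `M`; hence every term is `M`: `D n' (k^s q1) = M` for all `n' ≡ n0 [MOD q1]` (`per`: such an `n'` is
  `≡ n0 + i q1` modulo `k^s q1` with `i < k^s`). Now `k^s = p^(α s) p'^(β s)` and `α ≥ 1`, so `p^s * t' = k^s` for some `t' ≥ 1`, and `D n (p^s q1) = (∑_{i < t'} D (n + i p^s q1) (t' p^s q1)) / t' = M`.
-/

open Finset Filter

namespace Pool.Agent.Helper17.AB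

structure Dn (p p' : ℕ) (F c e : ℕ → ℕ) (α β : ℕ) (D : ℕ → ℕ → ℝ) : Prop where
  D0 : ∀ n q, 0 ≤ D n q
  D1 : ∀ n q t, 1 ≤ q → 1 ≤ t → D n q = (∑ i ∈ range t, D (n + i * q) (t * q)) / t
  D2 : ∀ n q, 1 ≤ q → D (n + q) q = D n q
  D3 : ∀ n K, 1 ≤ K → D n (p ^ c n * K) ≤ D (F n) (p' ^ e n * K)
  D4 : ∀ q, 1 ≤ q → (Set.range (fun x : ℕ × ℕ => D x.1 ((p ^ α * p' ^ β) ^ x.2 * q))).Finite

variable {p p' : ℕ} {F G c e : ℕ → ℕ} {α β : ℕ} {D : ℕ → ℕ → ℝ}

private theorem per_add77 (d : Dn p p' F c e α β D) {n q : ℕ} (hq : 1 ≤ q) (s : ℕ) : D (n + s * q) q = D n q := by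
  induction s with
  | zero => simp
  | succ s ih =>
    have e1 : n + (s + 1) * q = (n + s * q) + q := by ring
    rw [e1, d.D2 _ _ hq, ih]

private theorem per_le77 (d : Dn p p' F c e α β D) {n n' q : ℕ} (hq : 1 ≤ q) (h : n ≡ n' [MOD q]) (hn : n ≤ n') :
    D n q = D n' q := by
  rw [Nat.modEq_iff_dvd' hn] at h
  obtain ⟨s, hs⟩ := h
  have e1 : n' = n + s * q := by
    rw [mul_comm s q, ← hs]
    omega
  rw [e1, per_add77 d hq]

theorem Dn.per (d : Dn p p' F c e α β D) {n n' q : ℕ} (hq : 1 ≤ q) (h : n ≡ n' [MOD q]) : D n q = D n' q := by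
  rcases le_total n n' with hn | hn
  · exact per_le77 d hq h hn
  · exact (per_le77 d hq h.symm hn).symm

theorem Dn.iter (d : Dn p p' F c e α β D) (h : Sys p p' F G c e) (j n K : ℕ) (hK : 1 ≤ K) :
    D n (p ^ sm F c j n * K) ≤ D (F^[j] n) (p' ^ sm F e j n * K) := by
  have hp : 1 ≤ p := by rcases h.pp with ⟨h1, -⟩ | ⟨h1, -⟩ <;> omega
  have hp' : 1 ≤ p' := by rcases h.pp with ⟨-, h1⟩ | ⟨-, h1⟩ <;> omega
  induction j generalizing n K with
  | zero => simp [sm]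
  | succ j ih =>
    have h1 : 1 ≤ p ^ sm F c j (F n) * K := Nat.mul_pos (Nat.pow_pos hp) hK
    have h2 : 1 ≤ p' ^ e n * K := Nat.mul_pos (Nat.pow_pos hp') hK
    rw [sm_succ, sm_succ, Function.iterate_succ_apply]
    calc D n (p ^ (c n + sm F c j (F n)) * K) = D n (p ^ c n * (p ^ sm F c j (F n) * K)) := by
          rw [pow_add, mul_assoc]
      _ ≤ D (F n) (p' ^ e n * (p ^ sm F c j (F n) * K)) := d.D3 _ _ h1
      _ = D (F n) (p ^ sm F c j (F n) * (p' ^ e n * K)) := by rw [mul_left_comm]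
      _ ≤ D (F^[j] (F n)) (p' ^ sm F e j (F n) * (p' ^ e n * K)) := ih (F n) (p' ^ e n * K) h2
      _ = _ := by
          congr 1
          rw [pow_add]
          ring

theorem Dn.max (d : Dn p p' F c e α β D) (h : Sys p p' F G c e) (hα : 1 ≤ α) (q : ℕ) (hq : 1 ≤ q) :
    ∃ (n0 i0 : ℕ) (M : ℝ), (∀ n, D n q ≤ M) ∧
      ∀ s n, n ≡ n0 [MOD (p ^ α * p' ^ β) ^ i0 * q] → D n (p ^ s * ((p ^ α * p' ^ β) ^ i0 * q)) = M := by
  have hp : 1 ≤ p := by rcases h.pp with ⟨h1, -⟩ | ⟨h1, -⟩ <;> omega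
  have hp' : 1 ≤ p' := by rcases h.pp with ⟨-, h1⟩ | ⟨-, h1⟩ <;> omega
  set k := p ^ α * p' ^ β with hk
  have hk1 : 1 ≤ k := Nat.mul_pos (Nat.pow_pos hp) (Nat.pow_pos hp')
  have hfin := d.D4 q hq
  have hne : (Set.range (fun x : ℕ × ℕ => D x.1 (k ^ x.2 * q))).Nonempty := ⟨_, (0, 0), rfl⟩
  obtain ⟨M, ⟨⟨n0, i0⟩, hM0⟩, hMmax⟩ := hfin.exists_maximalFor id _ hne
  simp only at hM0
  have hmax : ∀ n i, D n (k ^ i * q) ≤ M := by
    intro n i
    by_contra hcon
    push Not at hcon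
    have h1 := hMmax (j := D n (k ^ i * q)) ⟨(n, i), rfl⟩ hcon.le
    simp only [id] at h1
    linarith
  set q1 := k ^ i0 * q with hq1
  have hq11 : 1 ≤ q1 := Nat.mul_pos (Nat.pow_pos hk1) hq
  -- step 1
  have step1 : ∀ s n, n ≡ n0 [MOD q1] → D n (k ^ s * q1) = M := by
    intro s n hn
    have ht : 1 ≤ k ^ s := Nat.pow_pos hk1
    have h1 : D n q1 = M := by rw [d.per hq11 hn, hM0]
    have h2 := d.D1 n q1 (k ^ s) hq11 ht
    rw [h1] at h2
    have ht' : (0 : ℝ) < ((k ^ s : ℕ) : ℝ) := by exact_mod_cast ht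
    rw [eq_div_iff ht'.ne'] at h2
    have hle : ∀ i ∈ range (k ^ s), D (n + i * q1) (k ^ s * q1) ≤ M := by
      intro i _
      have e1 : k ^ s * q1 = k ^ (s + i0) * q := by rw [hq1, pow_add, mul_assoc]
      rw [e1]
      exact hmax _ _
    have hsum : ∑ i ∈ range (k ^ s), D (n + i * q1) (k ^ s * q1) = ∑ _i ∈ range (k ^ s), M := by
      rw [← h2, sum_const, card_range, nsmul_eq_mul, mul_comm]
    have hall := (sum_eq_sum_iff_of_le hle).1 hsum 0 (mem_range.2 ht)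
    simpa using hall
  refine ⟨n0, i0, M, ?_, ?_⟩
  · intro n
    have := hmax n 0
    rwa [pow_zero, one_mul] at this
  · intro s n hn
    obtain ⟨t, ht⟩ : p ^ s ∣ k ^ s := by
      apply pow_dvd_pow_of_dvd
      rw [hk]
      exact Dvd.dvd.mul_right (dvd_pow_self p (by omega)) _
    have ht1 : 1 ≤ t := by
      rcases Nat.eq_zero_or_pos t with h0 | h0
      · rw [h0, mul_zero] at ht
        have : 0 < k ^ s := Nat.pow_pos hk1
        omega
      · exact h0
    have hps : 1 ≤ p ^ s * q1 := Nat.mul_pos (Nat.pow_pos hp) hq11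
    rw [d.D1 n (p ^ s * q1) t hps ht1]
    have hterm : ∀ i ∈ range t, D (n + i * (p ^ s * q1)) (t * (p ^ s * q1)) = M := by
      intro i _
      have e1 : t * (p ^ s * q1) = k ^ s * q1 := by rw [ht]; ring
      rw [e1]
      apply step1
      refine Nat.ModEq.trans ?_ hn
      have e2 : n + i * (p ^ s * q1) = n + (i * p ^ s) * q1 := by ring
      rw [e2]
      exact (Nat.modEq_iff_dvd' (by omega)).2 ⟨i * p ^ s, by rw [Nat.add_sub_cancel_left]; ring⟩ |>.symm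
    rw [sum_congr rfl hterm, sum_const, card_range, nsmul_eq_mul]
    have ht' : (0 : ℝ) < (t : ℝ) := by exact_mod_cast ht1
    field_simp

end Pool.Agent.Helper17.AB
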