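import Pool.Agent.Helper17.AB.DeadA

/-!
Block AB-FIa: the set of real numbers with a dead prefix (only `DO_open`, `DO_inv`, `DO_dense`).

Paper proof. Let `k = p^α p'^β`. Suppose `S` is infinite; `X, l, A` from `pump`. `O = {x : ℝ | ∃ n ≥ 1, Dead k S n ∧ ∃ s : ℤ, k^s n < x ∧ x < k^s (n + 1)}` (integer powers of the real number `k`).
`open_dead`: open (union of open intervals), `k`-invariant for `x > 0` (replace `s` by `s ± 1`), and dense: for `0 < x < y` choose `s : ℤ` with `3 k^s ≤ y - x` (`s` very negative) and also `k^s ≤ x`; `n = ⌊x / k^s⌋ + 1 ≥ 1`: `x < k^s n`, `k^s (n + 1) ≤ x + 2 k^s < y`;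
`dead_dense`: `n' = k^L n + M` dead, `(k^(s-L) n', k^(s-L) (n'+1)) ⊆ (k^s n, k^s (n+1))`, take the midpoint.
`hit` (with `p`, `q = p'`) gives `J`. The residues of `X t` modulo `p^(2J)` take finitely many values: there is `ρ` with `∃ᶠ t in atTop, X t % p^(2J) = ρ`. Apply `hit` to `C j = sm F c j ρ`, `E j = sm F e j ρ` (steps `1` or `2`: `sum_range_succ`): some `j ≤ J` with
`θ A ∈ O`, `θ = p'^(E j) / p^(C j)`: there are `n ≥ 1` dead and `s : ℤ` with `k^s n < θ A < k^s (n + 1)`. For `t` with `X t % p^(2J) = ρ`: `X t = ρ + p^(C j) K` (`C j ≤ 2 j ≤ 2 J`), so `F^[j] (X t) = F^[j] ρ + p'^(E j) K = F^[j] ρ + θ (X t - ρ)` (as reals).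
Hence `F^[j] (X t) / k^(l t) → θ A` along these `t` (`k^(l t) → ∞`), so for infinitely many `t` (frequently), `k^(s + l t) n < F^[j] (X t) < k^(s + l t) (n+1)` with `s + l t ≥ 0`: `F^[j] (X t) = k^L n + M`, `M < k^L`, `L = s + l t`: not in `S`.
But `X t ∈ S`, and if `X t` is large, `F^[i] (X t) ∈ S` for all `i ≤ J`: otherwise let `i` be the last index with `F^[i] (X t) ∈ S`, `F^[i] (X t)` is in the finite set `B = {n ∈ S | F n ∉ S}`, i.e. `X t ∈ ⋃_{i ≤ J} (F^[i])⁻¹ B`, a finite set (`F^[i]` is injective),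
while `X t → ∞` (`X t / k^(l t) → A > 0`). Contradiction.
-/

open Finset Filter Topology

namespace Pool.Agent.Helper17.AB

variable {p p' : ℕ} {F G c e : ℕ → ℕ} {V : Type} {v : ℕ → V} {S : Set ℕ}

/-- The real numbers with a dead prefix. -/
def DO (k : ℕ) (S : Set ℕ) : Set ℝ := {x | ∃ n, 1 ≤ n ∧ Dead k S n ∧ ∃ s : ℤ, (k : ℝ) ^ s * n < x ∧ x < (k : ℝ) ^ s * (n + 1)}

theorem DO_open (k : ℕ) (S : Set ℕ) : IsOpen (DO k S) := by
  have h : DO k S = ⋃ n ∈ {n : ℕ | 1 ≤ n ∧ Dead k S n}, ⋃ s : ℤ, Set.Ioo ((k : ℝ) ^ s * n) ((k : ℝ) ^ s * (n + 1)) := by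
    ext x
    simp only [DO, Set.mem_setOf_eq, Set.mem_iUnion, Set.mem_Ioo, exists_prop]
    constructor
    · rintro ⟨n, h1, h2, h3⟩
      exact ⟨n, ⟨h1, h2⟩, h3⟩
    · rintro ⟨n, ⟨h1, h2⟩, h3⟩
      exact ⟨n, h1, h2, h3⟩
  rw [h]
  exact isOpen_biUnion fun n _ => isOpen_iUnion fun s => isOpen_Ioo

theorem DO_inv {k : ℕ} (hk : 2 ≤ k) (S : Set ℕ) (x : ℝ) : x ∈ DO k S ↔ (k : ℝ) * x ∈ DO k S := by
  have hk0 : (0 : ℝ) < k := by
    have : (2 : ℝ) ≤ k := by exact_mod_cast hk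
    linarith
  constructor
  · rintro ⟨n, h1, h2, s, h3, h4⟩
    refine ⟨n, h1, h2, s + 1, ?_, ?_⟩
    · rw [zpow_add_one₀ hk0.ne']
      nlinarith
    · rw [zpow_add_one₀ hk0.ne']
      nlinarith
  · rintro ⟨n, h1, h2, s, h3, h4⟩
    have h5 : (k : ℝ) ^ s = k * (k : ℝ) ^ (s - 1) := by
      rw [← zpow_one_add₀ hk0.ne']
      congr 1
      ring
    refine ⟨n, h1, h2, s - 1, ?_, ?_⟩
    · rw [h5] at h3
      refine lt_of_mul_lt_mul_left ?_ hk0.le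
      linarith
    · rw [h5] at h4
      refine lt_of_mul_lt_mul_left ?_ hk0.le
      linarith

theorem DO_dense {k : ℕ} (hS : Aut k v S) (h0 : lm S = 0) (x y : ℝ) (hx : 0 < x) (hxy : x < y) : ∃ z ∈ DO k S, x < z ∧ z < y := by
  have hk1 : (2 : ℝ) ≤ k := by exact_mod_cast hS.k2
  have hk0 : (0 : ℝ) < k := by linarith
  obtain ⟨m, hm⟩ := exists_pow_lt_of_lt_one (lt_min (show 0 < (y - x) / 3 by linarith) hx)
    (show (k : ℝ)⁻¹ < 1 by exact inv_lt_one_of_one_lt₀ (by linarith))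
  have hm1 := hm.trans_le (min_le_left _ _)
  set s : ℤ := -(m : ℤ) with hs
  have hks : (k : ℝ) ^ s = (k : ℝ)⁻¹ ^ m := by
    rw [hs, zpow_neg, zpow_natCast, inv_pow]
  rw [← hks] at hm1
  have hks0 : 0 < (k : ℝ) ^ s := zpow_pos hk0 s
  set n := ⌊x / (k : ℝ) ^ s⌋₊ + 1 with hn
  have hn1 : x < (k : ℝ) ^ s * n := by
    have h := Nat.lt_floor_add_one (x / (k : ℝ) ^ s)
    rw [div_lt_iff₀ hks0] at h
    rw [hn]
    push_cast
    linarith
  have hn2 : (k : ℝ) ^ s * (n + 1) < y := by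
    have h := Nat.floor_le (show 0 ≤ x / (k : ℝ) ^ s by positivity)
    rw [le_div_iff₀ hks0] at h
    rw [hn]
    push_cast
    linarith
  obtain ⟨L, M, hM, hd⟩ := dead_dense hS h0 n (by omega)
  have hkL0 : 0 < (k : ℝ) ^ (s - (L : ℤ)) := zpow_pos hk0 _
  have hkk : (k : ℝ) ^ (s - (L : ℤ)) * (k : ℝ) ^ L = (k : ℝ) ^ s := by
    rw [← zpow_natCast, ← zpow_add₀ hk0.ne']
    congr 1
    ring
  have hM' : (M : ℝ) + 1 ≤ (k : ℝ) ^ L := by exact_mod_cast hM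
  have hn' : 1 ≤ k ^ L * n + M := by
    have h1 : 0 < k ^ L := pow_pos (by have := hS.k2; omega) L
    have h2 : 0 < k ^ L * n := Nat.mul_pos h1 (by omega)
    omega
  refine ⟨(k : ℝ) ^ (s - (L : ℤ)) * ((k ^ L * n + M : ℕ) + 1 / 2), ⟨k ^ L * n + M, hn', hd, s - (L : ℤ), ?_, ?_⟩, ?_, ?_⟩
  · exact mul_lt_mul_of_pos_left (by linarith) hkL0
  · exact mul_lt_mul_of_pos_left (by linarith) hkL0
  · push_cast
    have h1 : (0 : ℝ) ≤ M := Nat.cast_nonneg M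
    have h2 : (k : ℝ) ^ (s - (L : ℤ)) * ((k : ℝ) ^ L * n + M + 1 / 2) =
        (k : ℝ) ^ s * n + (k : ℝ) ^ (s - (L : ℤ)) * (M + 1 / 2) := by
      rw [← hkk]
      ring
    rw [h2]
    have h3 : 0 < (k : ℝ) ^ (s - (L : ℤ)) * (M + 1 / 2) := by positivity
    linarith
  · push_cast
    have h2 : (k : ℝ) ^ (s - (L : ℤ)) * ((k : ℝ) ^ L * n + M + 1 / 2) ≤ (k : ℝ) ^ s * (n + 1) := by
      rw [← hkk]
      have h3 : (k : ℝ) ^ L * n + M + 1 / 2 ≤ (k : ℝ) ^ L * (n + 1) := by nlinarith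
      calc (k : ℝ) ^ (s - (L : ℤ)) * ((k : ℝ) ^ L * n + M + 1 / 2)
          ≤ (k : ℝ) ^ (s - (L : ℤ)) * ((k : ℝ) ^ L * (n + 1)) := mul_le_mul_of_nonneg_left h3 hkL0.le
        _ = _ := by ring
    linarith

end Pool.Agent.Helper17.AB
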