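import Mathlib

/-!
Block AB-SMa: powers of `2` and `3` are multiplicatively close (only `close`).

Paper proofs.
* `close` (`p, q ≥ 2` coprime): `log p / log q` is irrational (otherwise `p^a = q^b` with `a, b ≥ 1`, contradicting coprimality), so `{x log q - y log p}` takes arbitrarily small positive values: e.g. by pigeonhole /
  Dirichlet (`Real.exists_int_int_abs_mul_sub_le`) there are arbitrarily small nonzero `x log q - y log p` with `x, y ≥ 1`; if it is negative, `-δ`, take the multiple `i` with `i δ` just below `log p`... : `i (x log q - y log p) + log p ∈ (0, δ]`: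
  for `i = ⌈log p / δ⌉ - 1` we have `0 < log p - i δ ≤ δ` — exponents `i x`, `i y - 1`, so one needs `i ≥ 2` (`δ` small) to keep them `≥ 1`. Then exponentiate: `1 < q^x / p^y < 1 + ε`.
* `near2`: with `r = 3^x / 2^y ∈ (1, 1 + ε)` and `N` with `3 ≤ r^N`: let `z ≥ 2^(y N)`. Choose `b` with `2^(yN) 3^b ≤ z < 2^(yN) 3^(b+1)` and `i` maximal with `2^(yN) 3^b r^i ≤ z`; `i ≤ N` since `r^N ≥ 3` (so `i < N`);
  `u = 2^(y (N - i)) 3^(x i + b) = 2^(yN) 3^b r^i`, `u ≤ z < r u`. The exponent of `2` is at most `y N`.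
* `near3`: the same with `2^a` in place of `3^b`: `2^(yN + a) ≤ z < 2^(yN + a + 1)`, `u = 2^(y (N - i) + a) 3^(x i)`, exponent of `3` at most `x N`.
-/

namespace Pool.Agent.Helper17.AB

private theorem close_fin_h17 (p q : ℕ) (hp : 2 ≤ p) (hq : 2 ≤ q) (ε : ℝ) (hε : 0 < ε) (x y : ℕ)
    (h1 : 0 < (x : ℝ) * Real.log q - y * Real.log p) (h2 : (x : ℝ) * Real.log q - y * Real.log p < Real.log (1 + ε)) :
    (p : ℝ) ^ y < (q : ℝ) ^ x ∧ (q : ℝ) ^ x < (1 + ε) * (p : ℝ) ^ y := by
  have hp0 : (0 : ℝ) < p := by positivity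
  have hq0 : (0 : ℝ) < q := by positivity
  have e1 : (p : ℝ) ^ y = Real.exp (y * Real.log p) := by
    rw [← Real.log_pow, Real.exp_log (by positivity)]
  have e2 : (q : ℝ) ^ x = Real.exp (x * Real.log q) := by
    rw [← Real.log_pow, Real.exp_log (by positivity)]
  have e3 : (1 + ε) = Real.exp (Real.log (1 + ε)) := by rw [Real.exp_log (by positivity)]
  rw [e1, e2]
  refine ⟨Real.exp_lt_exp.2 (by linarith), ?_⟩
  rw [e3, ← Real.exp_add]
  exact Real.exp_lt_exp.2 (by linarith)

private theorem close_small_h17 (p q : ℕ) (hp : 2 ≤ p) (hq : 2 ≤ q) (hpq : p.Coprime q) (δ : ℝ) (hδ : 0 < δ) :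
    ∃ m n : ℤ, 0 < (m : ℝ) * Real.log p + n * Real.log q ∧ (m : ℝ) * Real.log p + n * Real.log q < δ := by
  have hp1 : (1 : ℝ) < p := by exact_mod_cast hp
  have hq1 : (1 : ℝ) < q := by exact_mod_cast hq
  have ha : 0 < Real.log p := Real.log_pos hp1
  have hb : 0 < Real.log q := Real.log_pos hq1
  rcases AddSubgroup.dense_or_cyclic (AddSubgroup.closure {Real.log p, Real.log q}) with hd | ⟨g, hg⟩
  · obtain ⟨z, hz, hz1, hz2⟩ := hd.exists_between hδ
    rw [SetLike.mem_coe, AddSubgroup.mem_closure_pair] at hz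
    obtain ⟨m, n, rfl⟩ := hz
    simp only [zsmul_eq_mul] at hz1 hz2
    exact ⟨m, n, hz1, hz2⟩
  · exfalso
    have h1 : Real.log p ∈ AddSubgroup.closure {g} := by
      rw [← hg]
      exact AddSubgroup.subset_closure (by simp)
    have h2 : Real.log q ∈ AddSubgroup.closure {g} := by
      rw [← hg]
      exact AddSubgroup.subset_closure (by simp)
    rw [AddSubgroup.mem_closure_singleton] at h1 h2
    obtain ⟨m, hm⟩ := h1
    obtain ⟨n, hn⟩ := h2
    rw [zsmul_eq_mul] at hm hn
    have hm0 : m ≠ 0 := by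
      rintro rfl
      simp at hm
      linarith
    have h3 : (n : ℝ) * Real.log p = m * Real.log q := by
      rw [← hm, ← hn]
      ring
    have h4 : (n.natAbs : ℝ) * Real.log p = (m.natAbs : ℝ) * Real.log q := by
      have h5 := congrArg abs h3
      rw [abs_mul, abs_mul, abs_of_pos ha, abs_of_pos hb] at h5
      have e1 : ((n.natAbs : ℕ) : ℝ) = |(n : ℝ)| := by
        rw [Nat.cast_natAbs]
        push_cast
        rfl
      have e2 : ((m.natAbs : ℕ) : ℝ) = |(m : ℝ)| := by
        rw [Nat.cast_natAbs]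
        push_cast
        rfl
      rw [e1, e2]
      exact h5
    have h5 : (p : ℝ) ^ n.natAbs = (q : ℝ) ^ m.natAbs := by
      rw [← Real.log_pow, ← Real.log_pow] at h4
      exact Real.log_injOn_pos (by simp; positivity) (by simp; positivity) h4
    have h6 : p ^ n.natAbs = q ^ m.natAbs := by exact_mod_cast h5
    have h7 : Nat.Coprime (p ^ n.natAbs) (q ^ m.natAbs) := Nat.Coprime.pow _ _ hpq
    rw [h6, Nat.coprime_self] at h7
    have h8 : 1 < q ^ m.natAbs := Nat.one_lt_pow (by omega) (by omega)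
    omega

theorem close (p q : ℕ) (hp : 2 ≤ p) (hq : 2 ≤ q) (hpq : p.Coprime q) (ε : ℝ) (hε : 0 < ε) :
    ∃ x y : ℕ, 1 ≤ x ∧ 1 ≤ y ∧ (p : ℝ) ^ y < (q : ℝ) ^ x ∧ (q : ℝ) ^ x < (1 + ε) * (p : ℝ) ^ y := by
  have hp1 : (1 : ℝ) < p := by exact_mod_cast hp
  have hq1 : (1 : ℝ) < q := by exact_mod_cast hq
  have ha : 0 < Real.log p := Real.log_pos hp1
  have hb : 0 < Real.log q := Real.log_pos hq1
  have hl : 0 < Real.log (1 + ε) := Real.log_pos (by linarith)
  obtain ⟨m, n, h1, h2⟩ := close_small_h17 p q hp hq hpq (min (min (Real.log p) (Real.log q)) (Real.log (1 + ε)))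
    (lt_min (lt_min ha hb) hl)
  have h3 : (m : ℝ) * Real.log p + n * Real.log q < Real.log p := lt_of_lt_of_le h2 ((min_le_left _ _).trans (min_le_left _ _))
  have h4 : (m : ℝ) * Real.log p + n * Real.log q < Real.log q := lt_of_lt_of_le h2 ((min_le_left _ _).trans (min_le_right _ _))
  have h5 : (m : ℝ) * Real.log p + n * Real.log q < Real.log (1 + ε) := lt_of_lt_of_le h2 (min_le_right _ _)
  rcases le_or_gt 0 n with hn | hn
  · -- `m < 0`
    have hm : m < 0 := by
      by_contra hm
      push Not at hm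
      have hm' : (0 : ℝ) ≤ m := by exact_mod_cast hm
      have hn' : (0 : ℝ) ≤ n := by exact_mod_cast hn
      rcases hm.eq_or_lt with h | h
      · rcases hn.eq_or_lt with h' | h'
        · rw [← h, ← h'] at h1
          simp at h1
        · have h6 : (1 : ℝ) ≤ n := by exact_mod_cast h'
          nlinarith [mul_nonneg hm' ha.le]
      · have h6 : (1 : ℝ) ≤ m := by exact_mod_cast h
        nlinarith [mul_nonneg hn' hb.le]
    have hn1 : 0 < n := by
      rcases hn.eq_or_lt with h | h
      · exfalso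
        rw [← h] at h1
        have : (m : ℝ) < 0 := by exact_mod_cast hm
        have h7 := mul_neg_of_neg_of_pos this ha
        simp at h1
        linarith
      · exact h
    obtain ⟨x, rfl⟩ := Int.eq_ofNat_of_zero_le hn
    obtain ⟨y, hy⟩ := Int.eq_ofNat_of_zero_le (show 0 ≤ -m by omega)
    have hm' : (m : ℝ) = -(y : ℝ) := by
      have : m = -(y : ℤ) := by omega
      rw [this]
      push_cast
      ring
    have h8 := close_fin_h17 p q hp hq ε hε x y (by
      rw [hm'] at h1
      push_cast at h1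
      linarith) (by
      rw [hm'] at h5
      push_cast at h5
      linarith)
    exact ⟨x, y, by omega, by omega, h8⟩
  · -- `n < 0 < m`
    have hm : 0 < m := by
      by_contra hm
      push Not at hm
      have hm' : (m : ℝ) ≤ 0 := by exact_mod_cast hm
      have hn' : (n : ℝ) < 0 := by exact_mod_cast hn
      have h6 := mul_neg_of_neg_of_pos hn' hb
      have h7 := mul_nonpos_of_nonpos_of_nonneg hm' ha.le
      linarith
    obtain ⟨u, rfl⟩ := Int.eq_ofNat_of_zero_le hm.le
    obtain ⟨w, hw⟩ := Int.eq_ofNat_of_zero_le (show 0 ≤ -n by omega)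
    have hn' : (n : ℝ) = -(w : ℝ) := by
      have : n = -(w : ℤ) := by omega
      rw [this]
      push_cast
      ring
    rw [hn'] at h1 h3 h4 h5
    push_cast at h1 h3 h4 h5
    set d : ℝ := (u : ℝ) * Real.log p + -(w : ℝ) * Real.log q with hd
    obtain ⟨i, hi⟩ : ∃ i : ℕ, ⌈Real.log q / d⌉₊ = i + 1 := by
      refine ⟨⌈Real.log q / d⌉₊ - 1, ?_⟩
      have : 0 < ⌈Real.log q / d⌉₊ := Nat.ceil_pos.2 (div_pos hb h1)
      omega
    have h6 : (i : ℝ) < Real.log q / d := by
      have := Nat.lt_ceil.1 (show i < ⌈Real.log q / d⌉₊ by omega)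
      exact this
    have h7 : Real.log q / d ≤ i + 1 := by
      have := Nat.le_ceil (Real.log q / d)
      rw [hi] at this
      push_cast at this
      exact this
    rw [lt_div_iff₀ h1] at h6
    rw [div_le_iff₀ h1] at h7
    have hi1 : 1 ≤ i := by
      rcases Nat.eq_zero_or_pos i with h | h
      · exfalso
        rw [h] at h7
        simp at h7
        linarith
      · exact h
    have hu : 1 ≤ u := by omega
    have h8 := close_fin_h17 p q hp hq ε hε (1 + i * w) (i * u) (by
      push_cast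
      rw [hd] at h6
      nlinarith) (by
      push_cast
      have : (1 + (i : ℝ) * w) * Real.log q - i * u * Real.log p = Real.log q - i * d := by
        rw [hd]
        ring
      rw [this]
      nlinarith)
    exact ⟨1 + i * w, i * u, by omega, Nat.mul_pos hi1 hu, h8⟩

end Pool.Agent.Helper17.AB
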