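import Pool.Agent.Helper17.AB.HitA
import Pool.Agent.Helper17.AB.SmoothA

/-!
Block AB-HIb: paths of bounded length hit an open dense invariant set (only `hit`).

Paper proofs.
* `hit1`: induction on the finset: given `(x, y)` and a new multiplier `μ > 0`: by density there is `z ∈ O` with `μ x < z < μ y`; `O` is open, so `O` contains a neighbourhood of `z`, and a small interval around `z / μ` inside `(x, y)` is
  mapped into `O` by `μ`; continue with this smaller interval.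
* `box`: let `w = α + β`, `s = -⌊(a + b) / w⌋` (`Int.ediv`/`emod`), `a' = a + s α`, `b' = b + s β`: `0 ≤ a' + b' < w`, and `α b' - β a' = α b - β a ∈ [0, g)`. `w a' = α (a' + b') - (α b' - β a') ∈ (-g, w^2]`, `w b' = β (a' + b') + (α b' - β a')`.
* `hit`: let `g = 2 (α + β)`, `Q` the bound of `box`; the finite set of multipliers `p^a q^b`, `a, b ∈ [-Q, Q]` (integer powers), and `hit1` starting from `(k^s A, k^s A · 2)`... any interval to the right of `A`, e.g. `(A, 2 A)`, give `A ≤ x' < y'` with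
  `μ z ∈ O` for all `z ∈ (x', y')` and all multipliers `μ`. By `k`-invariance and `box`, `p^a q^b z ∈ O` for all integers `a, b` with `0 ≤ α b - β a < g` (`k = p^α q^β`). `close p q` with `1 + ε = y' / x'`: `r = q^x / p^y ∈ (1, y'/x')`. Let `i` be
  minimal with `r^i A > x'`; then `z = r^i A ∈ (x', y')`. Let `N_j = α E j + β C j`; `N_0 = 0` and `1 ≤ N_{j+1} - N_j ≤ 2 (α + β) = g`. Put `N* = i (α x + β y)`, `J = N*`. Let `j` be the least index with `N_j ≥ N*`; `j ≤ N*` (`N_j ≥ j`) and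
  `N_j < N* + g`. Then `q^(E j) / p^(C j) A = p^(-C j + i y) q^(E j - i x) z` and `α (E j - i x) - β (-C j + i y) = N_j - N* ∈ [0, g)`. So it lies in `O`.
-/

open Finset Filter

namespace Pool.Agent.Helper17.AB

/-- Invariance under all integer powers. -/
private theorem inv_zpow_hb (O : Set ℝ) (k : ℝ) (hk0 : 0 < k) (hk : ∀ x : ℝ, 0 < x → (x ∈ O ↔ k * x ∈ O)) (s : ℤ) :
    ∀ x : ℝ, 0 < x → (x ∈ O ↔ k ^ s * x ∈ O) := by
  have hpos : ∀ n : ℕ, ∀ x : ℝ, 0 < x → (x ∈ O ↔ k ^ n * x ∈ O) := by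
    intro n
    induction n with
    | zero => intro x _; simp
    | succ n ih =>
      intro x hx
      rw [ih x hx, hk (k ^ n * x) (by positivity)]
      have : k * (k ^ n * x) = k ^ (n + 1) * x := by ring
      rw [this]
  obtain ⟨n, rfl | rfl⟩ := s.eq_nat_or_neg
  · intro x hx
    rw [zpow_natCast]
    exact hpos n x hx
  · intro x hx
    have h1 := hpos n (k ^ (-(n : ℤ)) * x) (by positivity)
    have h2 : k ^ n * (k ^ (-(n : ℤ)) * x) = x := by
      rw [zpow_neg, zpow_natCast]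
      have : k ^ n ≠ 0 := by positivity
      field_simp
    rw [h2] at h1
    exact h1.symm

theorem hit (p q : ℕ) (hp : 2 ≤ p) (hq : 2 ≤ q) (hpq : p.Coprime q) (α β : ℕ) (hαβ : 1 ≤ α + β) (O : Set ℝ) (hO : IsOpen O)
    (hk : ∀ x : ℝ, 0 < x → (x ∈ O ↔ (p : ℝ) ^ α * (q : ℝ) ^ β * x ∈ O))
    (hd : ∀ x y : ℝ, 0 < x → x < y → ∃ z ∈ O, x < z ∧ z < y) (A : ℝ) (hA : 0 < A) :
    ∃ J : ℕ, ∀ C E : ℕ → ℕ, C 0 = 0 → E 0 = 0 → (∀ j, C j + 1 ≤ C (j + 1) ∧ C (j + 1) ≤ C j + 2) →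
      (∀ j, E j + 1 ≤ E (j + 1) ∧ E (j + 1) ≤ E j + 2) → ∃ j ≤ J, (q : ℝ) ^ E j / (p : ℝ) ^ C j * A ∈ O := by
  classical
  have hp0 : (0 : ℝ) < p := by exact_mod_cast (show 0 < p by omega)
  have hq0 : (0 : ℝ) < q := by exact_mod_cast (show 0 < q by omega)
  have hk0 : (0 : ℝ) < (p : ℝ) ^ α * (q : ℝ) ^ β := by positivity
  obtain ⟨Q, hQ⟩ := box α β (2 * (α + β)) hαβ
  -- the finite set of multipliers
  let M : Finset ℝ := ((Finset.Icc (-(Q : ℤ)) Q) ×ˢ (Finset.Icc (-(Q : ℤ)) Q)).image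
    (fun ab => (p : ℝ) ^ ab.1 * (q : ℝ) ^ ab.2)
  have hM : ∀ μ ∈ M, 0 < μ := by
    intro μ hμ
    obtain ⟨ab, _, rfl⟩ := Finset.mem_image.1 hμ
    positivity
  obtain ⟨x', y', hx', hxy', hy', hin⟩ := hit1 O hO hd M hM A (2 * A) hA (by linarith)
  have hx0 : 0 < x' := lt_of_lt_of_le hA hx'
  -- all multipliers with bounded determinant
  have hall : ∀ z, x' < z → z < y' → ∀ a b : ℤ, 0 ≤ (α : ℤ) * b - β * a → (α : ℤ) * b - β * a < 2 * (α + β) →
      (p : ℝ) ^ a * (q : ℝ) ^ b * z ∈ O := by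
    intro z hz1 hz2 a b h1 h2
    obtain ⟨s, hs1, hs2⟩ := hQ a b h1 (by push_cast; exact h2)
    have hz0 : 0 < z := lt_trans hx0 hz1
    have hmem : (p : ℝ) ^ (a + s * α) * (q : ℝ) ^ (b + s * β) ∈ M := by
      refine Finset.mem_image.2 ⟨(a + s * α, b + s * β), ?_, rfl⟩
      rw [Finset.mem_product, Finset.mem_Icc, Finset.mem_Icc]
      exact ⟨abs_le.1 hs1, abs_le.1 hs2⟩
    have h3 := hin _ hmem z hz1 hz2
    rw [inv_zpow_hb O _ hk0 hk s ((p : ℝ) ^ a * (q : ℝ) ^ b * z) (by positivity)]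
    have h4 : ((p : ℝ) ^ α * (q : ℝ) ^ β) ^ s * ((p : ℝ) ^ a * (q : ℝ) ^ b * z)
        = (p : ℝ) ^ (a + s * α) * (q : ℝ) ^ (b + s * β) * z := by
      rw [zpow_add₀ hp0.ne', zpow_add₀ hq0.ne', mul_zpow, mul_comm s (α : ℤ), mul_comm s (β : ℤ), zpow_mul, zpow_mul,
        zpow_natCast, zpow_natCast]
      ring
    rw [h4]
    exact h3
  -- the ratio
  obtain ⟨x, y, hx1, hy1, hlt, hlt2⟩ := close p q hp hq hpq (y' / x' - 1) (by
    rw [sub_pos, lt_div_iff₀ hx0]; linarith)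
  set r : ℝ := (q : ℝ) ^ x / (p : ℝ) ^ y with hr
  have hpy : (0 : ℝ) < (p : ℝ) ^ y := by positivity
  have hr1 : 1 < r := by rw [hr, lt_div_iff₀ hpy]; linarith
  have hr2 : r * x' < y' := by
    have h5 : r < y' / x' := by
      rw [hr, div_lt_iff₀ hpy]
      have : (1 + (y' / x' - 1)) = y' / x' := by ring
      rw [this] at hlt2
      exact hlt2
    rwa [lt_div_iff₀ hx0] at h5
  have hex : ∃ i : ℕ, x' < r ^ i * A := by
    obtain ⟨n, hn⟩ := pow_unbounded_of_one_lt (x' / A) hr1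
    exact ⟨n, by rwa [div_lt_iff₀ hA] at hn⟩
  set i := Nat.find hex with hi
  have hi1 : x' < r ^ i * A := Nat.find_spec hex
  have hi2 : r ^ i * A < y' := by
    rcases Nat.eq_zero_or_pos i with h0 | h0
    · exfalso
      rw [h0, pow_zero, one_mul] at hi1
      linarith
    · have h6 : ¬ x' < r ^ (i - 1) * A := Nat.find_min hex (by omega)
      push Not at h6
      have h7 : r ^ i * A = r * (r ^ (i - 1) * A) := by
        obtain ⟨t, ht⟩ := Nat.exists_eq_succ_of_ne_zero h0.ne'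
        rw [ht]
        simp only [Nat.succ_sub_one]
        rw [Nat.succ_eq_add_one, pow_succ]
        ring
      rw [h7]
      calc r * (r ^ (i - 1) * A) ≤ r * x' := by
            apply mul_le_mul_of_nonneg_left h6 (by linarith)
        _ < y' := hr2
  refine ⟨i * (α * x + β * y), ?_⟩
  intro C E hC0 hE0 hC hE
  set Nst := i * (α * x + β * y) with hN
  have hNj : ∀ j, j ≤ α * E j + β * C j := by
    intro j
    induction j with
    | zero => simp
    | succ j ih =>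
      have h1 := (hC j).1
      have h2 := (hE j).1
      have h3 : α * (E j + 1) ≤ α * E (j + 1) := Nat.mul_le_mul_left _ h2
      have h4 : β * (C j + 1) ≤ β * C (j + 1) := Nat.mul_le_mul_left _ h1
      nlinarith
  have hex2 : ∃ j : ℕ, Nst ≤ α * E j + β * C j := ⟨Nst, hNj Nst⟩
  set j := Nat.find hex2 with hj
  have hj1 : Nst ≤ α * E j + β * C j := Nat.find_spec hex2
  have hj2 : j ≤ Nst := Nat.find_min' hex2 (hNj Nst)
  have hj3 : α * E j + β * C j < Nst + 2 * (α + β) := by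
    rcases Nat.eq_zero_or_pos j with h0 | h0
    · rw [h0, hC0, hE0]
      omega
    · have h6 : ¬ Nst ≤ α * E (j - 1) + β * C (j - 1) := Nat.find_min hex2 (by omega)
      push Not at h6
      have h1 := (hC (j - 1)).2
      have h2 := (hE (j - 1)).2
      rw [Nat.sub_add_cancel h0] at h1 h2
      have h3 : α * E j ≤ α * (E (j - 1) + 2) := Nat.mul_le_mul_left _ h2
      have h4 : β * C j ≤ β * (C (j - 1) + 2) := Nat.mul_le_mul_left _ h1
      nlinarith
  refine ⟨j, hj2, ?_⟩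
  have key := hall (r ^ i * A) hi1 hi2 (-(C j : ℤ) + i * y) ((E j : ℤ) - i * x) (by
      have h8 : (α : ℤ) * ((E j : ℤ) - i * x) - β * (-(C j : ℤ) + i * y)
        = ((α * E j + β * C j : ℕ) : ℤ) - (Nst : ℕ) := by
        rw [hN]; push_cast; ring
      rw [h8]
      have : (Nst : ℤ) ≤ ((α * E j + β * C j : ℕ) : ℤ) := by exact_mod_cast hj1
      linarith) (by
      have h8 : (α : ℤ) * ((E j : ℤ) - i * x) - β * (-(C j : ℤ) + i * y)
        = ((α * E j + β * C j : ℕ) : ℤ) - (Nst : ℕ) := by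
        rw [hN]; push_cast; ring
      rw [h8]
      have : ((α * E j + β * C j : ℕ) : ℤ) < ((Nst + 2 * (α + β) : ℕ) : ℤ) := by exact_mod_cast hj3
      push_cast at this ⊢
      linarith)
  have h9 : (p : ℝ) ^ (-(C j : ℤ) + i * y) * (q : ℝ) ^ ((E j : ℤ) - i * x) * (r ^ i * A)
      = (q : ℝ) ^ E j / (p : ℝ) ^ C j * A := by
    rw [zpow_add₀ hp0.ne', zpow_sub₀ hq0.ne', hr, div_pow, ← pow_mul, ← pow_mul, zpow_neg, zpow_natCast, zpow_natCast]
    have e1 : ((i : ℤ) * (y : ℤ)) = ((y * i : ℕ) : ℤ) := by push_cast; ring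
    have e2 : ((i : ℤ) * (x : ℤ)) = ((x * i : ℕ) : ℤ) := by push_cast; ring
    rw [e1, e2, zpow_natCast, zpow_natCast]
    have n1 : (p : ℝ) ^ C j ≠ 0 := by positivity
    have n2 : (p : ℝ) ^ (y * i) ≠ 0 := by positivity
    have n3 : (q : ℝ) ^ (x * i) ≠ 0 := by positivity
    field_simp
  rw [h9] at key
  exact key

end Pool.Agent.Helper17.AB
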