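import Pool.Agent.Helper17.AB.FinA
import Pool.Agent.Helper17.AB.DeadB
import Pool.Agent.Helper17.AB.HitB
import Pool.Agent.Helper17.AB.Aff

/-!
Block AB-FIb (only `null_finite`): a null automatic set which is almost mapped into itself is finite.

Paper proof. Let `k = p^α p'^β`. Suppose `S` is infinite; `X, l, A` from `pump`. `O = {x : ℝ | ∃ n ≥ 1, Dead k S n ∧ ∃ s : ℤ, k^s n < x ∧ x < k^s (n + 1)}` (integer powers of the real number `k`).
`open_dead`: open (union of open intervals), `k`-invariant for `x > 0` (replace `s` by `s ± 1`), and dense: for `0 < x < y` choose `s : ℤ` with `3 k^s ≤ y - x` (`s` very negative) and also `k^s ≤ x`; `n = ⌊x / k^s⌋ + 1 ≥ 1`: `x < k^s n`, `k^s (n + 1) ≤ x + 2 k^s < y`;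
`dead_dense`: `n' = k^L n + M` dead, `(k^(s-L) n', k^(s-L) (n'+1)) ⊆ (k^s n, k^s (n+1))`, take the midpoint.
`hit` (with `p`, `q = p'`) gives `J`. The residues of `X t` modulo `p^(2J)` take finitely many values: there is `ρ` with `∃ᶠ t in atTop, X t % p^(2J) = ρ`. Apply `hit` to `C j = sm F c j ρ`, `E j = sm F e j ρ` (steps `1` or `2`: `sum_range_succ`): some `j ≤ J` with
`θ A ∈ O`, `θ = p'^(E j) / p^(C j)`: there are `n ≥ 1` dead and `s : ℤ` with `k^s n < θ A < k^s (n + 1)`. For `t` with `X t % p^(2J) = ρ`: `X t = ρ + p^(C j) K` (`C j ≤ 2 j ≤ 2 J`), so `F^[j] (X t) = F^[j] ρ + p'^(E j) K = F^[j] ρ + θ (X t - ρ)` (as reals).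
Hence `F^[j] (X t) / k^(l t) → θ A` along these `t` (`k^(l t) → ∞`), so for infinitely many `t` (frequently), `k^(s + l t) n < F^[j] (X t) < k^(s + l t) (n+1)` with `s + l t ≥ 0`: `F^[j] (X t) = k^L n + M`, `M < k^L`, `L = s + l t`: not in `S`.
But `X t ∈ S`, and if `X t` is large, `F^[i] (X t) ∈ S` for all `i ≤ J`: otherwise let `i` be the last index with `F^[i] (X t) ∈ S`, `F^[i] (X t)` is in the finite set `B = {n ∈ S | F n ∉ S}`, i.e. `X t ∈ ⋃_{i ≤ J} (F^[i])⁻¹ B`, a finite set (`F^[i]` is injective),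
while `X t → ∞` (`X t / k^(l t) → A > 0`). Contradiction.
-/

open Finset Filter Topology

namespace Pool.Agent.Helper17.AB

variable {p p' : ℕ} {F G c e : ℕ → ℕ} {V : Type} {v : ℕ → V} {S : Set ℕ}

theorem null_finite {α β : ℕ} (h : Sys p p' F G c e) (hαβ : 1 ≤ α + β) (hS : Aut (p ^ α * p' ^ β) v S) (h0 : lm S = 0)
    (hF : {n | n ∈ S ∧ F n ∉ S}.Finite) : S.Finite := by
  classical
  by_contra hinf
  have hi : S.Infinite := hinf
  obtain ⟨X, l, A, hl, hA, hXS, hXA⟩ := pump hS hi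
  have hp2 : 2 ≤ p := by rcases h.pp with ⟨rfl, rfl⟩ | ⟨rfl, rfl⟩ <;> norm_num
  have hp2' : 2 ≤ p' := by rcases h.pp with ⟨rfl, rfl⟩ | ⟨rfl, rfl⟩ <;> norm_num
  have hcop : p.Coprime p' := by rcases h.pp with ⟨rfl, rfl⟩ | ⟨rfl, rfl⟩ <;> decide
  have hk2 := hS.k2
  obtain ⟨k, hk⟩ : ∃ k, k = p ^ α * p' ^ β := ⟨_, rfl⟩
  rw [← hk] at hS hXA hk2
  have hkR : (1 : ℝ) < k := by exact_mod_cast (by omega : 1 < k)
  have hk0 : (0 : ℝ) < k := by linarith
  have hkR' : (p : ℝ) ^ α * (p' : ℝ) ^ β = (k : ℝ) := by rw [hk]; push_cast; rfl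
  obtain ⟨J, hJ⟩ := hit p p' hp2 hp2' hcop α β hαβ (DO k S) (DO_open k S)
    (fun x _ => by rw [hkR']; exact DO_inv hk2 S x) (DO_dense hS h0) A hA
  have hMo : 0 < p ^ (2 * J) := by positivity
  -- the residue
  obtain ⟨ρ, hρ⟩ : ∃ ρ, ∃ᶠ t in atTop, X t % p ^ (2 * J) = ρ := by
    by_contra hcon
    push Not at hcon
    have h1 : ∀ᶠ t in atTop, ∀ ρ ∈ range (p ^ (2 * J)), X t % p ^ (2 * J) ≠ ρ := by
      rw [Finset.eventually_all]
      intro ρ _
      exact hcon ρ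
    obtain ⟨t, ht⟩ := h1.exists
    exact ht _ (mem_range.2 (Nat.mod_lt _ hMo)) rfl
  obtain ⟨j, hj, n, hn, hdead, s, hs1, hs2⟩ := hJ (fun j => sm F c j ρ) (fun j => sm F e j ρ) (by simp [sm]) (by simp [sm])
    (fun j => by
      have h1 := h.c1 (F^[j] ρ)
      have h2 := h.c2 (F^[j] ρ)
      simp only [sm, sum_range_succ]
      omega)
    (fun j => by
      have h1 := h.e1 (F^[j] ρ)
      have h2 := h.e2 (F^[j] ρ)
      simp only [sm, sum_range_succ]
      omega)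
  set θ : ℝ := (p' : ℝ) ^ sm F e j ρ / (p : ℝ) ^ sm F c j ρ with hθ
  set κ : ℝ := (F^[j] ρ : ℝ) - θ * ρ with hκ
  have hpw : Tendsto (fun t : ℕ => (k : ℝ) ^ (l * t)) atTop atTop := by
    refine (tendsto_pow_atTop_atTop_of_one_lt hkR).comp ?_
    exact tendsto_id.const_mul_atTop' (by omega)
  -- the sequence `X` tends to infinity
  have hXinf : Tendsto X atTop atTop := by
    rw [← tendsto_natCast_atTop_iff (R := ℝ)]
    refine (hXA.pos_mul_atTop hA hpw).congr fun t => ?_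
    have : (k : ℝ) ^ (l * t) ≠ 0 := by positivity
    field_simp
  have hFinj : Function.Injective F := Function.LeftInverse.injective h.GF
  -- the orbit of `X t` stays in `S`
  have hstay : ∀ i, ∀ᶠ t in atTop, F^[i] (X t) ∈ S := by
    intro i
    induction i with
    | zero => exact Eventually.of_forall fun t => hXS t
    | succ i ih =>
      have h1 : (F^[i] ⁻¹' {n | n ∈ S ∧ F n ∉ S}).Finite := hF.preimage (hFinj.iterate i).injOn
      have h2 : ∀ᶠ t in atTop, X t ∉ F^[i] ⁻¹' {n | n ∈ S ∧ F n ∉ S} := by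
        have h3 : (F^[i] ⁻¹' {n | n ∈ S ∧ F n ∉ S})ᶜ ∈ (atTop : Filter ℕ) := by
          rw [← Nat.cofinite_eq_atTop]
          exact h1.compl_mem_cofinite
        exact hXinf h3
      filter_upwards [ih, h2] with t ht1 ht2
      by_contra hcon
      rw [Function.iterate_succ_apply'] at hcon
      exact ht2 ⟨ht1, hcon⟩
  -- the limit
  have hY : Tendsto (fun t => θ * ((X t : ℝ) / (k : ℝ) ^ (l * t)) + κ / (k : ℝ) ^ (l * t)) atTop (𝓝 (θ * A)) := by
    have h1 := (hXA.const_mul θ).add (hpw.const_div_atTop κ)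
    rwa [add_zero] at h1
  have hE1 := hY.eventually (lt_mem_nhds hs1)
  have hE2 := hY.eventually (gt_mem_nhds hs2)
  have hE3 : ∀ᶠ t : ℕ in atTop, 0 ≤ s + (l * t : ℕ) := by
    filter_upwards [eventually_ge_atTop s.natAbs] with t ht
    have h1 : t ≤ l * t := Nat.le_mul_of_pos_left t hl
    have h2 : (s.natAbs : ℤ) ≤ (l * t : ℕ) := by exact_mod_cast ht.trans h1
    have h3 := Int.natAbs_neg s ▸ Int.le_natAbs (a := -s)
    omega
  obtain ⟨t, ht, hS', h1, h2, h3⟩ := (hρ.and_eventually ((hstay j).and (hE1.and (hE2.and hE3)))).exists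
  -- `F^[j] (X t) = F^[j] ρ + p'^(E j) K`
  have hC : sm F c j ρ ≤ 2 * J := (sm_bounds h.c1 h.c2 j ρ).2.trans (by omega)
  have hXt : X t = ρ + p ^ sm F c j ρ * (p ^ (2 * J - sm F c j ρ) * (X t / p ^ (2 * J))) := by
    rw [← mul_assoc, ← pow_add, Nat.add_sub_cancel' hC]
    rw [← ht]
    exact (Nat.mod_add_div _ _).symm
  set K := p ^ (2 * J - sm F c j ρ) * (X t / p ^ (2 * J)) with hK
  have hit1 : F^[j] (X t) = F^[j] ρ + p' ^ sm F e j ρ * K := by
    conv_lhs => rw [hXt]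
    exact h.iter j ρ K
  have hpc : (0 : ℝ) < (p : ℝ) ^ sm F c j ρ := by
    have : (0 : ℝ) < p := by exact_mod_cast (by omega : 0 < p)
    positivity
  have hreal : ((F^[j] (X t) : ℕ) : ℝ) = θ * X t + κ := by
    have e1 : ((X t : ℕ) : ℝ) = ρ + (p : ℝ) ^ sm F c j ρ * K := by
      conv_lhs => rw [hXt]
      push_cast
      ring
    rw [hit1, e1, hκ, hθ]
    push_cast
    field_simp
    ring
  have hkt : (0 : ℝ) < (k : ℝ) ^ (l * t) := by positivity
  have hval : θ * ((X t : ℝ) / (k : ℝ) ^ (l * t)) + κ / (k : ℝ) ^ (l * t) = (F^[j] (X t) : ℕ) / (k : ℝ) ^ (l * t) := by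
    rw [hreal]
    field_simp
  rw [hval] at h1 h2
  rw [lt_div_iff₀ hkt] at h1
  rw [div_lt_iff₀ hkt] at h2
  obtain ⟨L, hL⟩ := Int.eq_ofNat_of_zero_le h3
  have hpowL : (k : ℝ) ^ s * (k : ℝ) ^ (l * t) = (k : ℝ) ^ L := by
    rw [← zpow_natCast (k : ℝ) (l * t), ← zpow_add₀ hk0.ne', hL]
    exact zpow_natCast _ _
  have h4 : k ^ L * n < F^[j] (X t) := by
    have : (k : ℝ) ^ L * n < (F^[j] (X t) : ℕ) := by
      rw [← hpowL]
      linarith
    exact_mod_cast this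
  have h5 : F^[j] (X t) < k ^ L * (n + 1) := by
    have : ((F^[j] (X t) : ℕ) : ℝ) < (k : ℝ) ^ L * (n + 1) := by
      rw [← hpowL]
      linarith
    exact_mod_cast this
  have h6 := hdead L (F^[j] (X t) - k ^ L * n) (by
    rw [mul_add, mul_one] at h5
    omega)
  rw [Nat.add_sub_cancel' h4.le] at h6
  exact h6 hS'

end Pool.Agent.Helper17.AB
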