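import Mathlib

/-!
Block AB-HIa: only `hit1`, `box`.

Paper proofs.
* `hit1`: induction on the finset: given `(x, y)` and a new multiplier `μ > 0`: by density there is `z ∈ O` with `μ x < z < μ y`; `O` is open, so `O` contains a neighbourhood of `z`, and a small interval around `z / μ` inside `(x, y)` is
  mapped into `O` by `μ`; continue with this smaller interval.
* `box`: let `w = α + β`, `s = -⌊(a + b) / w⌋` (`Int.ediv`/`emod`), `a' = a + s α`, `b' = b + s β`: `0 ≤ a' + b' < w`, and `α b' - β a' = α b - β a ∈ [0, g)`. `w a' = α (a' + b') - (α b' - β a') ∈ (-g, w^2]`, `w b' = β (a' + b') + (α b' - β a')`.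
* `hit`: let `g = 2 (α + β)`, `Q` the bound of `box`; the finite set of multipliers `p^a q^b`, `a, b ∈ [-Q, Q]` (integer powers), and `hit1` starting from `(k^s A, k^s A · 2)`... any interval to the right of `A`, e.g. `(A, 2 A)`, give `A ≤ x' < y'` with
  `μ z ∈ O` for all `z ∈ (x', y')` and all multipliers `μ`. By `k`-invariance and `box`, `p^a q^b z ∈ O` for all integers `a, b` with `0 ≤ α b - β a < g` (`k = p^α q^β`). `close p q` with `1 + ε = y' / x'`: `r = q^x / p^y ∈ (1, y'/x')`. Let `i` be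
  minimal with `r^i A > x'`; then `z = r^i A ∈ (x', y')`. Let `N_j = α E j + β C j`; `N_0 = 0` and `1 ≤ N_{j+1} - N_j ≤ 2 (α + β) = g`. Put `N* = i (α x + β y)`, `J = N*`. Let `j` be the least index with `N_j ≥ N*`; `j ≤ N*` (`N_j ≥ j`) and
  `N_j < N* + g`. Then `q^(E j) / p^(C j) A = p^(-C j + i y) q^(E j - i x) z` and `α (E j - i x) - β (-C j + i y) = N_j - N* ∈ [0, g)`. So it lies in `O`.
-/

open Finset Filter

namespace Pool.Agent.Helper17.AB

theorem hit1 (O : Set ℝ) (hO : IsOpen O) (hd : ∀ x y : ℝ, 0 < x → x < y → ∃ z ∈ O, x < z ∧ z < y) (M : Finset ℝ) (hM : ∀ μ ∈ M, 0 < μ)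
    (x y : ℝ) (hx : 0 < x) (hxy : x < y) :
    ∃ x' y' : ℝ, x ≤ x' ∧ x' < y' ∧ y' ≤ y ∧ ∀ μ ∈ M, ∀ z, x' < z → z < y' → μ * z ∈ O := by
  induction M using Finset.induction_on with
  | empty => exact ⟨x, y, le_rfl, hxy, le_rfl, by simp⟩
  | insert μ M _ ih =>
    obtain ⟨x1, y1, h1, h2, h3, h4⟩ := ih (fun ν hν => hM ν (Finset.mem_insert_of_mem hν))
    have hμ : 0 < μ := hM μ (Finset.mem_insert_self _ _)
    have hx1 : 0 < x1 := hx.trans_le h1
    obtain ⟨z, hz, hz1, hz2⟩ := hd (μ * x1) (μ * y1) (by positivity)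
      (mul_lt_mul_of_pos_left h2 hμ)
    obtain ⟨ε, hε, hb⟩ := Metric.isOpen_iff.1 hO z hz
    have e1 : x1 < z / μ := by rw [lt_div_iff₀ hμ]; linarith
    have e2 : z / μ < y1 := by rw [div_lt_iff₀ hμ]; linarith
    have e3 : (z - ε) / μ < z / μ := by gcongr; linarith
    have e4 : z / μ < (z + ε) / μ := by gcongr; linarith
    refine ⟨max x1 ((z - ε) / μ), min y1 ((z + ε) / μ), h1.trans (le_max_left _ _),
      (max_lt e1 e3).trans (lt_min e2 e4), (min_le_left _ _).trans h3, ?_⟩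
    intro ν hν t ht1 ht2
    obtain ⟨t1, t2⟩ := max_lt_iff.1 ht1
    obtain ⟨t3, t4⟩ := lt_min_iff.1 ht2
    rcases Finset.mem_insert.1 hν with rfl | hν
    · apply hb
      rw [Metric.mem_ball, Real.dist_eq, abs_lt]
      rw [div_lt_iff₀ hμ] at t2
      rw [lt_div_iff₀ hμ] at t4
      constructor <;> linarith
    · exact h4 ν hν t t1 t3

theorem box (α β g : ℕ) (hαβ : 1 ≤ α + β) : ∃ Q : ℕ, ∀ a b : ℤ, 0 ≤ (α : ℤ) * b - β * a → (α : ℤ) * b - β * a < g →
    ∃ s : ℤ, |a + s * α| ≤ Q ∧ |b + s * β| ≤ Q := by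
  refine ⟨(α + β) ^ 2 + g, ?_⟩
  intro a b h1 h2
  set w : ℤ := (α : ℤ) + β with hw
  have hw1 : 1 ≤ w := by rw [hw]; exact_mod_cast hαβ
  refine ⟨-((a + b) / w), ?_⟩
  set s : ℤ := -((a + b) / w) with hs
  have hα : (0 : ℤ) ≤ α := Int.natCast_nonneg α
  have hβ : (0 : ℤ) ≤ β := Int.natCast_nonneg β
  have m1 := Int.emod_nonneg (a + b) (by omega : w ≠ 0)
  have m2 := Int.emod_lt_of_pos (a + b) (by omega : 0 < w)
  have m3 := Int.mul_ediv_add_emod (a + b) w
  have k1 : (a + s * α) + (b + s * β) = (a + b) % w := by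
    have : s * α + s * β = -(w * ((a + b) / w)) := by rw [hs, hw]; ring
    linarith
  have k2 : (α : ℤ) * (b + s * β) - β * (a + s * α) = α * b - β * a := by ring
  have k3 : w * (a + s * α) = α * ((a + b) % w) - (α * b - β * a) := by
    rw [← k1, ← k2, hw]; ring
  have k4 : w * (b + s * β) = β * ((a + b) % w) + (α * b - β * a) := by
    rw [← k1, ← k2, hw]; ring
  have hαw : (α : ℤ) ≤ w := by omega
  have hβw : (β : ℤ) ≤ w := by omega
  have q1 : (α : ℤ) * ((a + b) % w) ≤ w * w := mul_le_mul hαw m2.le m1 (by omega)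
  have q2 : (β : ℤ) * ((a + b) % w) ≤ w * w := mul_le_mul hβw m2.le m1 (by omega)
  have q3 : 0 ≤ (α : ℤ) * ((a + b) % w) := mul_nonneg hα m1
  have q4 : 0 ≤ (β : ℤ) * ((a + b) % w) := mul_nonneg hβ m1
  have hg : (0 : ℤ) ≤ g := Int.natCast_nonneg g
  have bnd : ∀ t : ℤ, |w * t| ≤ w * w + g → |t| ≤ w * w + g := by
    intro t ht
    rw [abs_mul, abs_of_pos (by omega : (0 : ℤ) < w)] at ht
    have : |t| ≤ w * |t| := le_mul_of_one_le_left (abs_nonneg t) hw1
    linarith
  have e : (((α + β) ^ 2 + g : ℕ) : ℤ) = w * w + g := by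
    rw [hw]; push_cast; ring
  rw [e]
  constructor
  · apply bnd
    rw [k3, abs_le]
    constructor <;> linarith
  · apply bnd
    rw [k4, abs_le]
    constructor <;> linarith

end Pool.Agent.Helper17.AB
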