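import Pool.Agent.Helper17.AB.Defs
import Pool.Agent.Helper17.AB.SysT

/-!
Block AB-MAa: only `aut_of`, `inv`.

Paper proofs.
* `aut_of`: let `L` be regular; `L.reverse` is regular (`Language.IsRegular.reverse`), let `M` be a DFA for it with finite state set; `v n = M.eval (Nat.digits k n).reverse`, `V` the state type. `out`: `n ∈ S ↔ digits ∈ L ↔ (digits).reverse ∈ L.reverse = M.accepts`.
  `step`: for `n ≥ 1`, `d < k`: `Nat.digits k (k n + d) = d :: Nat.digits k n` (`Nat.digits_add_two_add_one` / `Nat.digits_add`), the reverse is `(digits k n).reverse ++ [d]`, `DFA.eval_append_singleton`.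
* `main`: `k = 2^a 3^b ≥ 2`. `period` and `zero_one` (with `lm_const`): `lm S = 0` or `1`. If `0`: `null_finite` for `sysT`: `S` finite. If `1`: `lm Sᶜ = 0` (`lm_add_compl`), `null_finite` for `sysU` (`p = 3`, `p' = 2`, exponents `b`, `a`; the base is
  `3^b 2^a`) and `Sᶜ`: `{n ∈ Sᶜ | U n ∉ Sᶜ}` is the image under `T` of `{m ∈ S | T m ∉ S}`: finite.
* `inv`: if `T n ∈ S` for all `n ∈ S`: `S` finite: `T` is injective and maps the finite set `S` into itself, so onto itself: `T n ∈ S → n ∈ S`. `Sᶜ` finite: `U` maps `Sᶜ` into itself, so onto itself, so `T` maps `Sᶜ` into itself.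
-/

open Finset Filter

namespace Pool.Agent.Helper17.AB

theorem aut_of {k : ℕ} (hk : 2 ≤ k) {L : Language ℕ} (hL : L.IsRegular) {S : Set ℕ} (hS : ∀ n, n ∈ S ↔ Nat.digits k n ∈ L) :
    ∃ (V : Type) (v : ℕ → V), Aut k v S := by
  obtain ⟨σ, hfin, M, hM⟩ := hL.reverse
  have key : ∀ n, n ∈ S ↔ M.eval (Nat.digits k n).reverse ∈ M.accept := by
    intro n
    rw [hS n, ← DFA.mem_accepts, hM, Language.mem_reverse, List.reverse_reverse]
  refine ⟨σ, fun n => M.eval (Nat.digits k n).reverse, hk, inferInstance, ?_, ?_⟩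
  · intro n n' _ _ hv
    rw [key n, key n']
    exact iff_of_eq (congrArg (fun s => s ∈ M.accept) hv)
  · intro n n' d hn hn' hd hv
    have h1 : ∀ m, 1 ≤ m → M.eval (Nat.digits k (k * m + d)).reverse = M.step (M.eval (Nat.digits k m).reverse) d := by
      intro m hm
      rw [Nat.add_comm (k * m) d, Nat.digits_add k (by omega) d m hd (Or.inr (by omega)), List.reverse_cons,
        DFA.eval_append_singleton]
    show M.eval (Nat.digits k (k * n + d)).reverse = M.eval (Nat.digits k (k * n' + d)).reverse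
    rw [h1 n hn, h1 n' hn']
    exact congrArg (fun s => M.step s d) hv

theorem inv {S : Set ℕ} (h : S.Finite ∨ Sᶜ.Finite) (hT : ∀ n ∈ S, T n ∈ S) (n : ℕ) : T n ∈ S ↔ n ∈ S := by
  refine ⟨fun hn => ?_, hT n⟩
  have hinjT : Function.Injective T := Function.LeftInverse.injective sysT.GF
  have hinjU : Function.Injective U := Function.LeftInverse.injective sysT.FG
  rcases h with h | h
  · have himg : T '' S = S :=
      Set.eq_of_subset_of_ncard_le (Set.image_subset_iff.2 hT) (le_of_eq (Set.ncard_image_of_injective S hinjT).symm) h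
    rw [← himg] at hn
    obtain ⟨m, hm, hmn⟩ := hn
    rwa [← hinjT hmn]
  · have hU : ∀ m ∈ Sᶜ, U m ∈ Sᶜ := by
      intro m hm hc
      apply hm
      have := hT _ hc
      rwa [sysT.FG m] at this
    have himg : U '' Sᶜ = Sᶜ :=
      Set.eq_of_subset_of_ncard_le (Set.image_subset_iff.2 hU) (le_of_eq (Set.ncard_image_of_injective _ hinjU).symm) h
    by_contra hc
    have hc' : n ∈ Sᶜ := hc
    rw [← himg] at hc'
    obtain ⟨m, hm, hmn⟩ := hc'
    rw [← hmn, sysT.FG m] at hn
    exact hm hn

end Pool.Agent.Helper17.AB
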