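import Mathlib

/-!
Block AB-ME: a combinatorial lemma on subsets of `ℕ²`.

Paper proof. `β = 0` (so `α ≥ 1`): `A a b ↔ A (a + α) b`, so `A a 0` for all `a ≤ α - 1` gives `A a 0` for all `a`; then `P1` gives all rows by induction on `b`.
`β ≥ 1`: Claim 1: for all `b` and all `a ≤ m`, `A a b`, where `m = 2 β + α + 1`. Strong induction on `b`; `b ≤ m` is the hypothesis (in particular `b < β`). Let `b ≥ β`. For `a ≥ α`: `A a b ↔ A (a - α) (b - β)`, true.
For `a < α`: by `P1`, `A a b` follows from `A (a+1) (b-1)` and `A (a+2) (b-1)`, ..., so (induction on `j`) from `A (a + i) (b - j)`, `j ≤ i ≤ 2 j`; with `j = β`: `a + i ≤ α - 1 + 2 β ≤ m`, true by induction hypothesis.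
Claim 2: for all `a`, for all `b`: `A a b`: strong induction on `a`; `a ≤ m` is Claim 1; for `a > m ≥ 1`, write `a = a' + 2`: `A (a' + 2) b` follows by `P2` from `A a' (b+1)`, `A (a'+1) (b+1)`.
-/

namespace Pool.Agent.Helper17.AB

private theorem desc6 {A : ℕ → ℕ → Prop} (P1 : ∀ a b, A (a + 1) b → A (a + 2) b → A a (b + 1)) (a b : ℕ) :
    ∀ j ≤ b, (∀ i, j ≤ i → i ≤ 2 * j → A (a + i) (b - j)) → A a b := by
  intro j
  induction j with
  | zero =>
    intro _ h
    simpa using h 0 le_rfl (by omega)
  | succ j ih =>
    intro hj h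
    refine ih (by omega) fun i h1 h2 => ?_
    have e : b - j = (b - (j + 1)) + 1 := by omega
    rw [e]
    exact P1 _ _ (h (i + 1) (by omega) (by omega)) (h (i + 2) (by omega) (by omega))

theorem meet (α β : ℕ) (hαβ : 1 ≤ α + β) (A : ℕ → ℕ → Prop) (P0 : ∀ a b, A (a + α) (b + β) ↔ A a b)
    (P1 : ∀ a b, A (a + 1) b → A (a + 2) b → A a (b + 1)) (P2 : ∀ a b, A a (b + 1) → A (a + 1) (b + 1) → A (a + 2) b)
    (h : ∀ a b, a ≤ 2 * β + α + 1 → b ≤ 2 * β + α + 1 → A a b) (a b : ℕ) : A a b := by
  rcases Nat.eq_zero_or_pos β with rfl | hβ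
  · have h0 : ∀ a, A a 0 := by
      intro a
      induction a using Nat.strong_induction_on with
      | _ a ih =>
        by_cases ha : a ≤ 2 * 0 + α + 1
        · exact h a 0 ha (by omega)
        · have h1 := (P0 (a - α) 0).2 (ih (a - α) (by omega))
          have e : a - α + α = a := by omega
          rw [e] at h1
          exact h1
    have h1 : ∀ b a, A a b := by
      intro b
      induction b with
      | zero => exact h0
      | succ b ih => exact fun a => P1 a b (ih _) (ih _)
    exact h1 b a
  · have c1 : ∀ b a, a ≤ 2 * β + α + 1 → A a b := by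
      intro b
      induction b using Nat.strong_induction_on with
      | _ b ih =>
        intro a ha
        by_cases hb : b ≤ 2 * β + α + 1
        · exact h a b ha hb
        · by_cases haα : α ≤ a
          · have h1 := (P0 (a - α) (b - β)).2 (ih (b - β) (by omega) (a - α) (by omega))
            have e1 : a - α + α = a := by omega
            have e2 : b - β + β = b := by omega
            rw [e1, e2] at h1
            exact h1
          · refine desc6 P1 a b β (by omega) fun i h1 h2 => ?_
            exact ih (b - β) (by omega) (a + i) (by omega)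
    have c2 : ∀ a b, A a b := by
      intro a
      induction a using Nat.strong_induction_on with
      | _ a ih =>
        intro b
        by_cases ha : a ≤ 2 * β + α + 1
        · exact c1 b a ha
        · obtain ⟨a', rfl⟩ : ∃ a', a = a' + 2 := ⟨a - 2, by omega⟩
          exact P2 a' b (ih a' (by omega) _) (ih (a' + 1) (by omega) _)
    exact c2 a b

end Pool.Agent.Helper17.AB
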