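import Pool.Agent.Helper17.AB.Mean1
import Pool.Agent.Helper17.AB.AutB

/-!
Block AB-RAb: `RR_k`, `RR_of_v`, `RR_digit`.

Paper proofs. `uniq`: if `L < L'` then `c k^L n + M < c k^L (n + 1) ≤ c k^(L+1) n ≤ c k^L' n ≤ c k^L' n + M'` (`n ≥ 1`, `k ≥ 2`), impossible; symmetric; so `L = L'` and then `M = M'`.
`RR_symm`: `lm_null_rel` with `Z = XX k S c n n'`, `E = XX k S c n' n`, `ρ x y = ∃ L M, M < c k^L ∧ x = c k^L n' + M ∧ y = c k^L n + M`, `C = n + 1` (`y ≤ c k^L (n + 1) ≤ (n + 1) x` as `x ≥ c k^L n' ≥ c k^L`).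
`RR_trans`: `XX c n n'' ⊆ XX c n n' ∪ {x | ∃ L M, .. x = c k^L n + M ∧ c k^L n' + M ∈ XX c n' n''}`; the second set is null by `lm_null_rel` with `Z = XX c n' n''`, `ρ x y = ∃ L M, .. x = c k^L n + M ∧ y = c k^L n' + M`.
`RR_k`: `XX (k c) n n' ⊆ XX c n n'` (`k c k^L = c k^(L+1)`), and `XX c n n' ⊆ XX (k c) n n' ∪` (the part with `L = 0`, contained in `[0, c (n+1))`, finite).
`RR_of_v`: `XX = ∅` by `Aut.cblock`. `RR_digit`: `XX c (d n + r) (d n' + r) ⊆ XX (d c) n n'` for `r < d`: `c k^L (d n + r) + M = (d c) k^L n + (r c k^L + M)`, `r c k^L + M < d c k^L`.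
-/

open Finset Filter

namespace Pool.Agent.Helper17.AB

variable {k : ℕ} {V : Type} {v : ℕ → V} {S : Set ℕ}

private theorem XX_k_subset_h93 {k : ℕ} (S : Set ℕ) (c n n' : ℕ) : XX k S (k * c) n n' ⊆ XX k S c n n' := by
  rintro x ⟨L, M, hM, hx, hS⟩
  have e : k * c * k ^ L = c * k ^ (L + 1) := by
    rw [pow_succ]
    ring
  rw [e] at hM hx hS
  exact ⟨L + 1, M, hM, hx, hS⟩

private theorem XX_subset_k_h93 {k : ℕ} (S : Set ℕ) (c n n' : ℕ) :
    XX k S c n n' ⊆ XX k S (k * c) n n' ∪ {x | x < c * (n + 1)} := by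
  rintro x ⟨L, M, hM, hx, hS⟩
  rcases L with _ | L
  · right
    rw [pow_zero, mul_one] at hM hx
    show x < c * (n + 1)
    rw [hx, mul_add, mul_one]
    omega
  · left
    have e : c * k ^ (L + 1) = k * c * k ^ L := by
      rw [pow_succ]
      ring
    rw [e] at hM hx hS
    exact ⟨L, M, hM, hx, hS⟩

theorem RR_k {c n n' : ℕ} (hk : 2 ≤ k) : RR k S (k * c) n n' ↔ RR k S c n n' := by
  unfold RR
  constructor
  · intro h
    refine le_antisymm ?_ (lm_nonneg _)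
    have h1 : lm (XX k S c n n') ≤ lm (XX k S (k * c) n n' ∪ {x | x < c * (n + 1)}) :=
      lm_mono (XX_subset_k_h93 S c n n')
    have h2 := lm_union_le (XX k S (k * c) n n') {x | x < c * (n + 1)}
    have h3 : lm {x | x < c * (n + 1)} = 0 := lm_finite (Set.finite_lt_nat _)
    rw [h, h3] at h2
    linarith
  · intro h
    exact le_antisymm ((lm_mono (XX_k_subset_h93 S c n n')).trans h.le) (lm_nonneg _)

theorem RR_of_v (h : Aut k v S) {c n n' : ℕ} (hc : 1 ≤ c) (hn : 1 ≤ n) (hn' : 1 ≤ n')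
    (hv : ∀ u < c, v (c * n + u) = v (c * n' + u)) : RR k S c n n' := by
  have e : XX k S c n n' = ∅ := by
    rw [Set.eq_empty_iff_forall_notMem]
    rintro x ⟨L, M, hM, rfl, hS⟩
    exact hS (h.cblock hc hn hn' hv L M hM)
  unfold RR
  rw [e]
  exact lm_finite Set.finite_empty

theorem RR_digit {c d r n n' : ℕ} (hr : r < d) (h : RR k S (d * c) n n') : RR k S c (d * n + r) (d * n' + r) := by
  unfold RR at h ⊢
  refine le_antisymm (le_trans (lm_mono ?_) h.le) (lm_nonneg _)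
  rintro x ⟨L, M, hM, hx, hS⟩
  have e1 : c * k ^ L * (d * n + r) + M = d * c * k ^ L * n + (r * (c * k ^ L) + M) := by ring
  have e2 : c * k ^ L * (d * n' + r) + M = d * c * k ^ L * n' + (r * (c * k ^ L) + M) := by ring
  refine ⟨L, r * (c * k ^ L) + M, ?_, ?_, ?_⟩
  · calc r * (c * k ^ L) + M < r * (c * k ^ L) + c * k ^ L := by omega
      _ = (r + 1) * (c * k ^ L) := by ring
      _ ≤ d * (c * k ^ L) := Nat.mul_le_mul_right _ hr
      _ = d * c * k ^ L := by ring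
  · rw [hx, e1]
  · rw [← e2]
    exact hS

end Pool.Agent.Helper17.AB
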