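import Pool.Agent.Helper17.AB.Mean2

/-!
Block AB-RAa: the relation `RR` is an equivalence relation (only `uniq`, `RR_refl`, `RR_symm`, `RR_trans`).

Paper proofs. `uniq`: if `L < L'` then `c k^L n + M < c k^L (n + 1) ≤ c k^(L+1) n ≤ c k^L' n ≤ c k^L' n + M'` (`n ≥ 1`, `k ≥ 2`), impossible; symmetric; so `L = L'` and then `M = M'`.
`RR_symm`: `lm_null_rel` with `Z = XX k S c n n'`, `E = XX k S c n' n`, `ρ x y = ∃ L M, M < c k^L ∧ x = c k^L n' + M ∧ y = c k^L n + M`, `C = n + 1` (`y ≤ c k^L (n + 1) ≤ (n + 1) x` as `x ≥ c k^L n' ≥ c k^L`).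
`RR_trans`: `XX c n n'' ⊆ XX c n n' ∪ {x | ∃ L M, .. x = c k^L n + M ∧ c k^L n' + M ∈ XX c n' n''}`; the second set is null by `lm_null_rel` with `Z = XX c n' n''`, `ρ x y = ∃ L M, .. x = c k^L n + M ∧ y = c k^L n' + M`.
`RR_k`: `XX (k c) n n' ⊆ XX c n n'` (`k c k^L = c k^(L+1)`), and `XX c n n' ⊆ XX (k c) n n' ∪` (the part with `L = 0`, contained in `[0, c (n+1))`, finite).
`RR_of_v`: `XX = ∅` by `Aut.cblock`. `RR_digit`: `XX c (d n + r) (d n' + r) ⊆ XX (d c) n n'` for `r < d`: `c k^L (d n + r) + M = (d c) k^L n + (r c k^L + M)`, `r c k^L + M < d c k^L`.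
-/

open Finset Filter

namespace Pool.Agent.Helper17.AB

variable {k : ℕ} {V : Type} {v : ℕ → V} {S : Set ℕ}

private theorem lt_of_lt52 {k c n L L' M M' : ℕ} (hk : 2 ≤ k) (hn : 1 ≤ n) (hM : M < c * k ^ L) (hL : L < L') :
    c * k ^ L * n + M < c * k ^ L' * n + M' := by
  have h1 : k ^ (L + 1) ≤ k ^ L' := Nat.pow_le_pow_right (by omega) hL
  have h2 : c * k ^ (L + 1) * n ≤ c * k ^ L' * n := Nat.mul_le_mul_right _ (Nat.mul_le_mul_left _ h1)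
  have h3 : c * k ^ (L + 1) * n = k * (c * k ^ L * n) := by rw [pow_succ]; ring
  have h4 : 2 * (c * k ^ L * n) ≤ k * (c * k ^ L * n) := Nat.mul_le_mul_right _ hk
  have h5 : c * k ^ L ≤ c * k ^ L * n := Nat.le_mul_of_pos_right _ hn
  omega

theorem uniq {k c n L L' M M' : ℕ} (hk : 2 ≤ k) (hn : 1 ≤ n) (hM : M < c * k ^ L) (hM' : M' < c * k ^ L')
    (he : c * k ^ L * n + M = c * k ^ L' * n + M') : L = L' ∧ M = M' := by
  rcases lt_trichotomy L L' with h | h | h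
  · exact absurd he (lt_of_lt52 hk hn hM h).ne
  · subst h
    exact ⟨rfl, by omega⟩
  · exact absurd he (lt_of_lt52 hk hn hM' h).ne'

theorem RR_refl (k : ℕ) (S : Set ℕ) (c n : ℕ) : RR k S c n n := by
  have h : XX k S c n n = ∅ := by
    ext x
    rw [Set.mem_empty_iff_false, iff_false]
    rintro ⟨L, M, -, rfl, h⟩
    exact h Iff.rfl
  unfold RR
  rw [h]
  exact lm_finite Set.finite_empty

private theorem le_mul52 {k c n n' L M : ℕ} (hn' : 1 ≤ n') :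
    c * k ^ L * n + M ≤ (n + 1) * (c * k ^ L * n' + M) := by
  have h1 : c * k ^ L ≤ c * k ^ L * n' := Nat.le_mul_of_pos_right _ hn'
  have h2 : (n + 1) * (c * k ^ L + M) ≤ (n + 1) * (c * k ^ L * n' + M) :=
    Nat.mul_le_mul_left _ (by omega)
  have h3 : (n + 1) * (c * k ^ L + M) = c * k ^ L * n + M + (c * k ^ L + n * M) := by ring
  omega

theorem RR_symm {c n n' : ℕ} (hk : 2 ≤ k) (hn : 1 ≤ n) (hn' : 1 ≤ n') (h : RR k S c n n') : RR k S c n' n := by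
  refine lm_null_rel (XX k S c n n') (XX k S c n' n)
    (fun x y => ∃ L M, M < c * k ^ L ∧ x = c * k ^ L * n' + M ∧ y = c * k ^ L * n + M) (n + 1) h ?_ ?_
  · rintro x ⟨L, M, hM, rfl, hx⟩
    exact ⟨c * k ^ L * n + M, ⟨L, M, hM, rfl, fun h => hx h.symm⟩, ⟨L, M, hM, rfl, rfl⟩, le_mul52 hn'⟩
  · rintro x x' y - - ⟨L, M, hM, rfl, rfl⟩ ⟨L', M', hM', rfl, he⟩
    obtain ⟨rfl, rfl⟩ := uniq hk hn hM hM' he
    rfl

theorem RR_trans {c n n' n'' : ℕ} (hk : 2 ≤ k) (hn : 1 ≤ n) (hn' : 1 ≤ n') (hn'' : 1 ≤ n'') (h : RR k S c n n')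
    (h' : RR k S c n' n'') : RR k S c n n'' := by
  have _ := hn''
  have h2 : lm {x | ∃ L M, M < c * k ^ L ∧ x = c * k ^ L * n + M ∧
      ¬ (c * k ^ L * n' + M ∈ S ↔ c * k ^ L * n'' + M ∈ S)} = 0 := by
    refine lm_null_rel (XX k S c n' n'') _
      (fun x y => ∃ L M, M < c * k ^ L ∧ x = c * k ^ L * n + M ∧ y = c * k ^ L * n' + M) (n' + 1) h' ?_ ?_
    · rintro x ⟨L, M, hM, rfl, hx⟩
      exact ⟨c * k ^ L * n' + M, ⟨L, M, hM, rfl, hx⟩, ⟨L, M, hM, rfl, rfl⟩, le_mul52 hn⟩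
    · rintro x x' y - - ⟨L, M, hM, rfl, rfl⟩ ⟨L', M', hM', rfl, he⟩
      obtain ⟨rfl, rfl⟩ := uniq hk hn' hM hM' he
      rfl
  have h3 : XX k S c n n'' ⊆ XX k S c n n' ∪ {x | ∃ L M, M < c * k ^ L ∧ x = c * k ^ L * n + M ∧
      ¬ (c * k ^ L * n' + M ∈ S ↔ c * k ^ L * n'' + M ∈ S)} := by
    rintro x ⟨L, M, hM, hx, hS⟩
    by_cases h4 : (x ∈ S ↔ c * k ^ L * n' + M ∈ S)
    · right
      exact ⟨L, M, hM, hx, fun h5 => hS (h4.trans h5)⟩
    · left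
      exact ⟨L, M, hM, hx, h4⟩
  have h4 := (lm_mono h3).trans (lm_union_le _ _)
  unfold RR at h
  rw [h, h2, add_zero] at h4
  exact le_antisymm h4 (lm_nonneg _)

end Pool.Agent.Helper17.AB
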