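import Pool.Agent.Helper17.AB.Mean2
import Pool.Agent.Helper17.AB.RelA
import Pool.Agent.Helper17.AB.SysT

/-!
Block AB-RP2: `RR (3c)`, `RR (6c)` imply `RR (4c)` (only `RR_P2`).

Paper proof. `Z0 = {n | ¬ (T n ∈ S ↔ n ∈ S)}` is null. `Z1 = {x | ¬ (U x ∈ S ↔ x ∈ S)}` is null: `x ∈ Z1 → U x ∈ Z0` (`T (U x) = x`), `U x ≤ 4 x` (also for `x = 0`), `U` injective (`lm_null_rel`).
`P1`: let `x = 3 c k^L n + M ∈ XX (3c) n n'`, `M < 3 c k^L`, `x' = 3 c k^L n' + M`. Then `x ∈ Z1`, or `x' ∈ Z1` (with `x ↦ x'` injective, `x' ≤ 3 c k^L (n' + 1) ≤ (n'+1) x`), or `¬ (U x ∈ S ↔ U x' ∈ S)`. In the last case,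
`M = 3 M' + r`, `M' < c k^L`: `r = 0`: `U x = 2 c k^L n + 2 M'`, `U x' = 2 c k^L n' + 2 M'`: `U x ∈ XX (2c) n n'`; `r = 1`: `U x = 4 c k^L n + (4 M' + 1)`; `r = 2`: `U x = 4 c k^L n + (4 M' + 3)`: `U x ∈ XX (4c) n n'`.
`U` is injective and `U x ≤ 4 x`. So `XX (3c) n n'` is contained in the union of three null sets (`lm_union_le`, `lm_null_rel`).
`P2`: the same with `T` in place of `U`: `x = 4 c k^L n + M`, `M = 4 M' + r`, `M' < c k^L`: `T x = 6 c k^L n + 6 M'` (`r = 0`), `6 c k^L n + 6 M' + 3` (`r = 2`), `3 c k^L n + 3 M' + 1` (`r = 1`), `3 c k^L n + 3 M' + 2` (`r = 3`);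
`T x ≤ 2 x`.
(`T_U : T (U x) = x`, `U_T`: `sysT.FG`, `sysT.GF`; or directly with `omega`.)
-/

open Finset Filter

namespace Pool.Agent.Helper17.AB

variable {k : ℕ} {S : Set ℕ}

private theorem U_T_p2 (x : ℕ) : U (T x) = x := by
  unfold U T
  split_ifs <;> omega

private theorem T_le_p2 (x : ℕ) : T x ≤ 2 * x := by
  unfold T
  split_ifs <;> omega

private theorem T_inj_p2 {x y : ℕ} (h : T x = T y) : x = y := by
  rw [← U_T_p2 x, ← U_T_p2 y, h]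

theorem RR_P2 (hz : lm {n | ¬ (T n ∈ S ↔ n ∈ S)} = 0) {c n n' : ℕ} (hk : 2 ≤ k) (hc : 1 ≤ c) (hn : 1 ≤ n) (hn' : 1 ≤ n')
    (h3 : RR k S (3 * c) n n') (h6 : RR k S (6 * c) n n') : RR k S (4 * c) n n' := by
  have hW1 : lm {x | ∃ L M, M < 4 * c * k ^ L ∧ x = 4 * c * k ^ L * n + M ∧
      4 * c * k ^ L * n' + M ∈ {x | ¬ (T x ∈ S ↔ x ∈ S)}} = 0 := by
    refine lm_null_rel _ _ (fun x y => ∃ L M, M < 4 * c * k ^ L ∧ x = 4 * c * k ^ L * n + M ∧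
      y = 4 * c * k ^ L * n' + M) (n' + 1) hz ?_ ?_
    · rintro x ⟨L, M, hM, rfl, hx⟩
      refine ⟨_, hx, ⟨L, M, hM, rfl, rfl⟩, ?_⟩
      have h1 : 4 * c * k ^ L ≤ 4 * c * k ^ L * n := Nat.le_mul_of_pos_right _ hn
      nlinarith
    · rintro x x' y _ _ ⟨L, M, hM, rfl, hy⟩ ⟨L', M', hM', rfl, hy'⟩
      obtain ⟨rfl, rfl⟩ := uniq hk hn' hM hM' (hy.symm.trans hy')
      rfl
  have hW3 : lm {x | T x ∈ XX k S (3 * c) n n'} = 0 := by
    refine lm_null_rel _ _ (fun x y => y = T x) 2 h3 ?_ ?_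
    · intro x hx
      exact ⟨T x, hx, rfl, T_le_p2 x⟩
    · intro x x' y _ _ h h'
      exact T_inj_p2 (h.symm.trans h')
  have hW6 : lm {x | T x ∈ XX k S (6 * c) n n'} = 0 := by
    refine lm_null_rel _ _ (fun x y => y = T x) 2 h6 ?_ ?_
    · intro x hx
      exact ⟨T x, hx, rfl, T_le_p2 x⟩
    · intro x x' y _ _ h h'
      exact T_inj_p2 (h.symm.trans h')
  have hsub : XX k S (4 * c) n n' ⊆ ({x | ¬ (T x ∈ S ↔ x ∈ S)} ∪
      {x | ∃ L M, M < 4 * c * k ^ L ∧ x = 4 * c * k ^ L * n + M ∧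
        4 * c * k ^ L * n' + M ∈ {x | ¬ (T x ∈ S ↔ x ∈ S)}}) ∪
      ({x | T x ∈ XX k S (3 * c) n n'} ∪ {x | T x ∈ XX k S (6 * c) n n'}) := by
    rintro x ⟨L, M, hM, rfl, hx⟩
    by_cases ha : 4 * c * k ^ L * n + M ∈ {x | ¬ (T x ∈ S ↔ x ∈ S)}
    · exact Or.inl (Or.inl ha)
    by_cases hb : 4 * c * k ^ L * n' + M ∈ {x | ¬ (T x ∈ S ↔ x ∈ S)}
    · exact Or.inl (Or.inr ⟨L, M, hM, rfl, hb⟩)
    right
    have hT : ¬ (T (4 * c * k ^ L * n + M) ∈ S ↔ T (4 * c * k ^ L * n' + M) ∈ S) := by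
      simp only [Set.mem_setOf_eq, not_not] at ha hb
      rw [ha, hb]
      exact hx
    obtain ⟨A, hA⟩ : ∃ A, A = c * k ^ L := ⟨_, rfl⟩
    have e3 : 3 * c * k ^ L = 3 * A := by rw [hA]; ring
    have e6 : 6 * c * k ^ L = 6 * A := by rw [hA]; ring
    have e4 : 4 * c * k ^ L = 4 * A := by rw [hA]; ring
    rw [e4] at hM hT ⊢
    obtain ⟨M', r, hr, rfl⟩ : ∃ M' r, r < 4 ∧ M = 4 * M' + r :=
      ⟨M / 4, M % 4, Nat.mod_lt _ (by norm_num), (Nat.div_add_mod M 4).symm⟩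
    have hM' : M' < A := by omega
    have hT0 : ∀ m, T (4 * m) = 6 * m := by intro m; unfold T; split_ifs <;> omega
    have hT1 : ∀ m, T (4 * m + 1) = 3 * m + 1 := by intro m; unfold T; split_ifs <;> omega
    have hT2 : ∀ m, T (4 * m + 2) = 6 * m + 3 := by intro m; unfold T; split_ifs <;> omega
    have hT3 : ∀ m, T (4 * m + 3) = 3 * m + 2 := by intro m; unfold T; split_ifs <;> omega
    have hsplit : ∀ m, 4 * A * m + (4 * M' + r) = 4 * (A * m + M') + r := by intro m; ring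
    rw [hsplit, hsplit] at hT
    rw [hsplit]
    interval_cases r
    · right
      rw [Nat.add_zero, hT0, Nat.add_zero, hT0] at hT
      show T (4 * (A * n + M') + 0) ∈ XX k S (6 * c) n n'
      rw [Nat.add_zero, hT0]
      refine ⟨L, 6 * M', by rw [e6]; omega, by rw [e6]; ring, ?_⟩
      have : 6 * c * k ^ L * n' + 6 * M' = 6 * (A * n' + M') := by rw [e6]; ring
      rw [this]
      exact hT
    · left
      rw [hT1, hT1] at hT
      show T (4 * (A * n + M') + 1) ∈ XX k S (3 * c) n n'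
      rw [hT1]
      refine ⟨L, 3 * M' + 1, by rw [e3]; omega, by rw [e3]; ring, ?_⟩
      have : 3 * c * k ^ L * n' + (3 * M' + 1) = 3 * (A * n' + M') + 1 := by rw [e3]; ring
      rw [this]
      exact hT
    · right
      rw [hT2, hT2] at hT
      show T (4 * (A * n + M') + 2) ∈ XX k S (6 * c) n n'
      rw [hT2]
      refine ⟨L, 6 * M' + 3, by rw [e6]; omega, by rw [e6]; ring, ?_⟩
      have : 6 * c * k ^ L * n' + (6 * M' + 3) = 6 * (A * n' + M') + 3 := by rw [e6]; ring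
      rw [this]
      exact hT
    · left
      rw [hT3, hT3] at hT
      show T (4 * (A * n + M') + 3) ∈ XX k S (3 * c) n n'
      rw [hT3]
      refine ⟨L, 3 * M' + 2, by rw [e3]; omega, by rw [e3]; ring, ?_⟩
      have : 3 * c * k ^ L * n' + (3 * M' + 2) = 3 * (A * n' + M') + 2 := by rw [e3]; ring
      rw [this]
      exact hT
  have h1 := lm_mono hsub
  have h2' := lm_union_le ({x | ¬ (T x ∈ S ↔ x ∈ S)} ∪
      {x | ∃ L M, M < 4 * c * k ^ L ∧ x = 4 * c * k ^ L * n + M ∧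
        4 * c * k ^ L * n' + M ∈ {x | ¬ (T x ∈ S ↔ x ∈ S)}})
      ({x | T x ∈ XX k S (3 * c) n n'} ∪ {x | T x ∈ XX k S (6 * c) n n'})
  have h4 := lm_union_le {x | ¬ (T x ∈ S ↔ x ∈ S)}
      {x | ∃ L M, M < 4 * c * k ^ L ∧ x = 4 * c * k ^ L * n + M ∧
        4 * c * k ^ L * n' + M ∈ {x | ¬ (T x ∈ S ↔ x ∈ S)}}
  have h5 := lm_union_le {x | T x ∈ XX k S (3 * c) n n'} {x | T x ∈ XX k S (6 * c) n n'}
  rw [hz, hW1] at h4
  rw [hW3, hW6] at h5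
  refine le_antisymm ?_ (lm_nonneg _)
  linarith

end Pool.Agent.Helper17.AB
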