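import Pool.Agent.Helper17.AB.RelA
import Pool.Agent.Helper17.AB.RelB
import Pool.Agent.Helper17.AB.RelP1
import Pool.Agent.Helper17.AB.RelP2
import Pool.Agent.Helper17.AB.Meet
import Pool.Agent.Helper17.AB.CobB
import Pool.Agent.Helper17.AB.ConstC

/-!
Block AB-PE: the blocks of `S` along an arithmetic progression agree almost everywhere.

Paper proof. Write `k = 2^α 3^β`, `m = 2 β + α + 1`. For `n, n' ≥ 1` let `J n n'` mean: `RR k S (2^a 3^b) n n'` for all `a, b`. By `meet` (with `P0`: `RR_k`, `k 2^a 3^b = 2^(a+α) 3^(b+β)`; `P1`: `RR_P1` with `c = 2^a 3^b`; `P2`: `RR_P2`;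
`inv_ae`) it is enough to have this for `a, b ≤ m`. `J` is an equivalence relation on positive integers (`RR_refl`, `RR_symm`, `RR_trans`). Put `g n = {n' | 1 ≤ n' ∧ J n n'}` (`g : ℕ → Set ℕ`); for `n, n' ≥ 1`: `g n = g n' ↔ J n n'`.
`g '' {n | 1 ≤ n}` is finite: `g n` depends only on the function `(a, b, u) ↦ v (2^a 3^b n + u)`, `a, b ≤ m`, `u < 2^a 3^b` (`RR_of_v`), and there are finitely many such functions (`V` finite; e.g. index by `Fin (m+1) × Fin (m+1) × Fin (6^m)`).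
`h2`, `h3` of `cobham`: `RR_digit` with `d = 2`, `c = 2^a 3^b` (`2 c = 2^(a+1) 3^b`), resp. `d = 3`. So there are `D ≥ 1`, `n1` with `g (n + D) = g n` for `n ≥ n1`; let `n0 = max n1 1`. Then `g (n0 + D j) = g n0` for all `j` (induction), and `J n0 (n0 + D j)`
with `a = b = 0`.
-/

open Finset Filter

namespace Pool.Agent.Helper17.AB

variable {V : Type} {v : ℕ → V} {S : Set ℕ}

private def JJ36 (k : ℕ) (S : Set ℕ) (n n' : ℕ) : Prop := ∀ i j : ℕ, RR k S (2 ^ i * 3 ^ j) n n'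

private lemma JJ_of36 {a b : ℕ} (hS : Aut (2 ^ a * 3 ^ b) v S) (hT : {n | n ∈ S ∧ T n ∉ S}.Finite) {n n' : ℕ}
    (hn : 1 ≤ n) (hn' : 1 ≤ n')
    (h : ∀ i j, i ≤ 2 * b + a + 1 → j ≤ 2 * b + a + 1 → RR (2 ^ a * 3 ^ b) S (2 ^ i * 3 ^ j) n n') :
    JJ36 (2 ^ a * 3 ^ b) S n n' := by
  have hz := inv_ae hS hT
  have hk := hS.k2
  have hab : 1 ≤ a + b := by
    by_contra h0
    have ha : a = 0 := by omega
    have hb : b = 0 := by omega
    subst ha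
    subst hb
    norm_num at hk
  intro i j
  refine meet a b hab (fun i j => RR (2 ^ a * 3 ^ b) S (2 ^ i * 3 ^ j) n n') ?_ ?_ ?_ h i j
  · intro i j
    show RR _ S (2 ^ (i + a) * 3 ^ (j + b)) n n' ↔ RR _ S (2 ^ i * 3 ^ j) n n'
    rw [show 2 ^ (i + a) * 3 ^ (j + b) = (2 ^ a * 3 ^ b) * (2 ^ i * 3 ^ j) by ring]
    exact RR_k hk
  · intro i j h2 h4
    have hc : 1 ≤ 2 ^ i * 3 ^ j := Nat.one_le_iff_ne_zero.2 (by positivity)
    have e2 : 2 ^ (i + 1) * 3 ^ j = 2 * (2 ^ i * 3 ^ j) := by ring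
    have e4 : 2 ^ (i + 2) * 3 ^ j = 4 * (2 ^ i * 3 ^ j) := by ring
    have e3 : 2 ^ i * 3 ^ (j + 1) = 3 * (2 ^ i * 3 ^ j) := by ring
    simp only [e2, e4, e3] at h2 h4 ⊢
    exact RR_P1 hz hk hc hn hn' h2 h4
  · intro i j h3 h6
    have hc : 1 ≤ 2 ^ i * 3 ^ j := Nat.one_le_iff_ne_zero.2 (by positivity)
    have e6 : 2 ^ (i + 1) * 3 ^ (j + 1) = 6 * (2 ^ i * 3 ^ j) := by ring
    have e4 : 2 ^ (i + 2) * 3 ^ j = 4 * (2 ^ i * 3 ^ j) := by ring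
    have e3 : 2 ^ i * 3 ^ (j + 1) = 3 * (2 ^ i * 3 ^ j) := by ring
    simp only [e6, e4, e3] at h3 h6 ⊢
    exact RR_P2 hz hk hc hn hn' h3 h6

private def gg36 (k : ℕ) (S : Set ℕ) (n : ℕ) : Set ℕ := {n' | 1 ≤ n' ∧ JJ36 k S n n'}

private lemma gg_iff36 {k : ℕ} (hk : 2 ≤ k) {n n' : ℕ} (hn : 1 ≤ n) (hn' : 1 ≤ n') :
    gg36 k S n = gg36 k S n' ↔ JJ36 k S n n' := by
  constructor
  · intro h
    have h1 : n' ∈ gg36 k S n' := ⟨hn', fun i j => RR_refl k S _ _⟩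
    rw [← h] at h1
    exact h1.2
  · intro h
    ext x
    constructor
    · rintro ⟨hx, h1⟩
      exact ⟨hx, fun i j => RR_trans hk hn' hn hx (RR_symm hk hn hn' (h i j)) (h1 i j)⟩
    · rintro ⟨hx, h1⟩
      exact ⟨hx, fun i j => RR_trans hk hn hn' hx (h i j) (h1 i j)⟩

private def ph36 (v : ℕ → V) (m n : ℕ) : Fin (m + 1) × Fin (m + 1) × Fin (6 ^ m) → V :=
  fun q => v (2 ^ (q.1 : ℕ) * 3 ^ (q.2.1 : ℕ) * n + (q.2.2 : ℕ))

private lemma JJ_of_ph36 {a b : ℕ} (hS : Aut (2 ^ a * 3 ^ b) v S) (hT : {n | n ∈ S ∧ T n ∉ S}.Finite) {n n' : ℕ}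
    (hn : 1 ≤ n) (hn' : 1 ≤ n') (h : ph36 v (2 * b + a + 1) n = ph36 v (2 * b + a + 1) n') :
    JJ36 (2 ^ a * 3 ^ b) S n n' := by
  refine JJ_of36 hS hT hn hn' fun i j hi hj => ?_
  refine RR_of_v hS (Nat.one_le_iff_ne_zero.2 (by positivity)) hn hn' fun u hu => ?_
  have hu6 : u < 6 ^ (2 * b + a + 1) := by
    refine lt_of_lt_of_le hu ?_
    rw [show (6 : ℕ) = 2 * 3 by norm_num, Nat.mul_pow]
    exact Nat.mul_le_mul (Nat.pow_le_pow_right (by norm_num) hi) (Nat.pow_le_pow_right (by norm_num) hj)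
  have h1 := congrFun h (⟨i, by omega⟩, ⟨j, by omega⟩, ⟨u, hu6⟩)
  exact h1

theorem period {a b : ℕ} (hS : Aut (2 ^ a * 3 ^ b) v S) (hT : {n | n ∈ S ∧ T n ∉ S}.Finite) :
    ∃ D n0 : ℕ, 1 ≤ D ∧ 1 ≤ n0 ∧ ∀ j, RR (2 ^ a * 3 ^ b) S 1 (n0 + D * j) n0 := by
  classical
  have hk := hS.k2
  have hfin : (gg36 (2 ^ a * 3 ^ b) S '' {n | 1 ≤ n}).Finite := by
    have := hS.fin
    have hF : Finite (Fin (2 * b + a + 1 + 1) × Fin (2 * b + a + 1 + 1) × Fin (6 ^ (2 * b + a + 1)) → V) :=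
      inferInstance
    refine (Set.finite_range fun φ : Fin (2 * b + a + 1 + 1) × Fin (2 * b + a + 1 + 1) ×
      Fin (6 ^ (2 * b + a + 1)) → V => if h : ∃ n, 1 ≤ n ∧ ph36 v (2 * b + a + 1) n = φ then
        gg36 (2 ^ a * 3 ^ b) S (Classical.choose h) else ∅).subset ?_
    rintro _ ⟨n, hn, rfl⟩
    have hn1 : 1 ≤ n := hn
    refine ⟨ph36 v (2 * b + a + 1) n, ?_⟩
    have hex : ∃ n0, 1 ≤ n0 ∧ ph36 v (2 * b + a + 1) n0 = ph36 v (2 * b + a + 1) n := ⟨n, hn1, rfl⟩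
    simp only [dif_pos hex]
    have hsp := Classical.choose_spec hex
    exact (gg_iff36 hk hsp.1 hn1).2 (JJ_of_ph36 hS hT hsp.1 hn1 hsp.2)
  obtain ⟨D, n1, hD, hper⟩ := cobham (gg36 (2 ^ a * 3 ^ b) S) hfin
    (by
      intro n n' r hn hn' hr hg
      have h1 := (gg_iff36 hk hn hn').1 hg
      refine (gg_iff36 hk (by omega) (by omega)).2 fun i j => RR_digit hr ?_
      have e : 2 * (2 ^ i * 3 ^ j) = 2 ^ (i + 1) * 3 ^ j := by ring
      rw [e]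
      exact h1 _ _)
    (by
      intro n n' r hn hn' hr hg
      have h1 := (gg_iff36 hk hn hn').1 hg
      refine (gg_iff36 hk (by omega) (by omega)).2 fun i j => RR_digit hr ?_
      have e : 3 * (2 ^ i * 3 ^ j) = 2 ^ i * 3 ^ (j + 1) := by ring
      rw [e]
      exact h1 _ _)
  refine ⟨D, max n1 1, hD, le_max_right _ _, fun j => ?_⟩
  have hj : ∀ j, gg36 (2 ^ a * 3 ^ b) S (max n1 1 + D * j) = gg36 (2 ^ a * 3 ^ b) S (max n1 1) := by
    intro j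
    induction j with
    | zero => rfl
    | succ j ih =>
      rw [← ih, ← hper (max n1 1 + D * j) (le_trans (le_max_left _ _) (Nat.le_add_right _ _))]
      congr 1
      ring
  have h0 : 1 ≤ max n1 1 := le_max_right _ _
  have h1 := (gg_iff36 hk (le_trans h0 (Nat.le_add_right _ _)) h0).1 (hj j) 0 0
  simpa using h1

end Pool.Agent.Helper17.AB
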