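import Pool.Agent.Helper17.AB.Mean1

/-!
Block AB-M2: null sets are preserved by injections of bounded distortion.

Paper proof. Choose `ψ x` for `x ∈ E` with `ψ x ∈ Z`, `ρ x (ψ x)`, `ψ x ≤ C x`; `ψ` is injective on `E`. At most one `x ∈ E` has `ψ x = 0`; for the others `ψ x ≥ 1`, `x ≥ 1` and
`1 / x ≤ C / ψ x`. So `∑_{x ∈ E, x ≤ N} 1/x ≤ 1 + C ∑_{z ∈ Z, z ≤ C N} 1/z ≤ 1 + C (∑_{z ∈ Z, z ≤ N} 1/z + ∑_{N < z ≤ C N} 1/z)`, and `∑_{N < z ≤ C N} 1/z ≤ C` (at most `C N` terms, each at most `1/N`, for `N ≥ 1`).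
Divide by `H_N`: `pd E N ≤ C * pd Z N + (1 + C^2) / H_N`, and pass to the limit along the hyperfilter (`lm_tendsto`, `HN_tendsto`, `lm_nonneg`).
-/

open Finset Filter Topology

namespace Pool.Agent.Helper17.AB

private theorem tail_h12 (C N : ℕ) (hN : 1 ≤ N) : ∑ z ∈ Ioc N (C * N), (1 / (z : ℝ)) ≤ C := by
  have hN' : (0 : ℝ) < N := by exact_mod_cast hN
  calc ∑ z ∈ Ioc N (C * N), (1 / (z : ℝ)) ≤ ∑ _z ∈ Ioc N (C * N), (1 / (N : ℝ)) := by
        refine sum_le_sum fun z hz => ?_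
        have h1 : (N : ℝ) ≤ z := by exact_mod_cast (mem_Ioc.1 hz).1.le
        exact one_div_le_one_div_of_le hN' h1
    _ = ((C * N - N : ℕ) : ℝ) * (1 / (N : ℝ)) := by
        rw [sum_const, Nat.card_Ioc, nsmul_eq_mul]
    _ ≤ ((C * N : ℕ) : ℝ) * (1 / (N : ℝ)) := by
        refine mul_le_mul_of_nonneg_right ?_ (by positivity)
        exact_mod_cast Nat.sub_le _ _
    _ = C := by
        push_cast
        field_simp

private theorem num_le_h12 {Z E : Set ℕ} [DecidablePred (· ∈ Z)] [DecidablePred (· ∈ E)] (ψ : ℕ → ℕ) (C : ℕ)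
    (hZ : ∀ x ∈ E, ψ x ∈ Z) (hle : ∀ x ∈ E, ψ x ≤ C * x) (hinj : Set.InjOn ψ E) (N : ℕ) (hN : 1 ≤ N) :
    ∑ m ∈ (range (N + 1)).filter (· ∈ E), (1 / (m : ℝ)) ≤
      C * ∑ m ∈ (range (N + 1)).filter (· ∈ Z), (1 / (m : ℝ)) + (1 + C ^ 2) := by
  set s := (range (N + 1)).filter (· ∈ E) with hs
  have hsE : ∀ x ∈ s, x ∈ E ∧ x ≤ N := by
    intro x hx
    rw [hs, mem_filter, mem_range] at hx
    exact ⟨hx.2, by omega⟩
  rw [← sum_filter_add_sum_filter_not s (fun x => ψ x = 0)]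
  have h1 : ∑ x ∈ s.filter (fun x => ψ x = 0), (1 / (x : ℝ)) ≤ 1 := by
    have hc : (s.filter (fun x => ψ x = 0)).card ≤ 1 := by
      rw [card_le_one]
      intro a ha b hb
      rw [mem_filter] at ha hb
      exact hinj (hsE a ha.1).1 (hsE b hb.1).1 (ha.2.trans hb.2.symm)
    calc ∑ x ∈ s.filter (fun x => ψ x = 0), (1 / (x : ℝ)) ≤ ∑ _x ∈ s.filter (fun x => ψ x = 0), (1 : ℝ) := by
          refine sum_le_sum fun x _ => ?_
          rcases Nat.eq_zero_or_pos x with h | h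
          · rw [h]
            simp
          · rw [div_le_one (by exact_mod_cast h)]
            exact_mod_cast h
      _ = ((s.filter (fun x => ψ x = 0)).card : ℝ) := by simp
      _ ≤ 1 := by exact_mod_cast hc
  have h2 : ∑ x ∈ s.filter (fun x => ¬ ψ x = 0), (1 / (x : ℝ)) ≤
      C * ∑ z ∈ (range (C * N + 1)).filter (· ∈ Z), (1 / (z : ℝ)) := by
    calc ∑ x ∈ s.filter (fun x => ¬ ψ x = 0), (1 / (x : ℝ)) ≤
        ∑ x ∈ s.filter (fun x => ¬ ψ x = 0), (C : ℝ) * (1 / (ψ x : ℝ)) := by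
          refine sum_le_sum fun x hx => ?_
          rw [mem_filter] at hx
          have h3 := hle x (hsE x hx.1).1
          have h4 : 0 < ψ x := Nat.pos_of_ne_zero hx.2
          have h5 : 0 < x := by
            rcases Nat.eq_zero_or_pos x with h | h
            · have h9 : C * x = 0 := by rw [h, mul_zero]
              omega
            · exact h
          have h6 : (ψ x : ℝ) ≤ C * x := by exact_mod_cast h3
          have h7 : (0 : ℝ) < ψ x := by exact_mod_cast h4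
          have h8 : (0 : ℝ) < x := by exact_mod_cast h5
          rw [mul_one_div, div_le_div_iff₀ h8 h7]
          linarith
      _ = C * ∑ x ∈ s.filter (fun x => ¬ ψ x = 0), (1 / (ψ x : ℝ)) := by rw [mul_sum]
      _ = C * ∑ z ∈ (s.filter (fun x => ¬ ψ x = 0)).image ψ, (1 / (z : ℝ)) := by
          rw [sum_image]
          intro a ha b hb hab
          rw [Finset.mem_coe, mem_filter] at ha hb
          exact hinj (hsE a ha.1).1 (hsE b hb.1).1 hab
      _ ≤ C * ∑ z ∈ (range (C * N + 1)).filter (· ∈ Z), (1 / (z : ℝ)) := by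
          refine mul_le_mul_of_nonneg_left ?_ (by positivity)
          refine sum_le_sum_of_subset_of_nonneg ?_ fun z _ _ => by positivity
          intro z hz
          obtain ⟨x, hx, rfl⟩ := mem_image.1 hz
          rw [mem_filter] at hx
          have h3 := hsE x hx.1
          rw [mem_filter, mem_range]
          refine ⟨?_, hZ x h3.1⟩
          have h4 := hle x h3.1
          have h5 : C * x ≤ C * N := Nat.mul_le_mul_left C h3.2
          omega
  have h3 : ∑ z ∈ (range (C * N + 1)).filter (· ∈ Z), (1 / (z : ℝ)) ≤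
      ∑ m ∈ (range (N + 1)).filter (· ∈ Z), (1 / (m : ℝ)) + C := by
    calc ∑ z ∈ (range (C * N + 1)).filter (· ∈ Z), (1 / (z : ℝ)) ≤
        ∑ z ∈ (range (N + 1)).filter (· ∈ Z) ∪ Ioc N (C * N), (1 / (z : ℝ)) := by
          refine sum_le_sum_of_subset_of_nonneg ?_ fun z _ _ => by positivity
          intro z hz
          rw [mem_filter, mem_range] at hz
          rw [mem_union, mem_filter, mem_range, mem_Ioc]
          by_cases h : z ≤ N
          · exact Or.inl ⟨by omega, hz.2⟩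
          · exact Or.inr ⟨by omega, by omega⟩
      _ ≤ ∑ z ∈ (range (N + 1)).filter (· ∈ Z), (1 / (z : ℝ)) + ∑ z ∈ Ioc N (C * N), (1 / (z : ℝ)) := by
          rw [← sum_union_inter]
          exact le_add_of_nonneg_right (sum_nonneg fun z _ => by positivity)
      _ ≤ _ := by
          gcongr
          exact tail_h12 C N hN
  have h4 : (C : ℝ) * ∑ z ∈ (range (C * N + 1)).filter (· ∈ Z), (1 / (z : ℝ)) ≤
      C * (∑ m ∈ (range (N + 1)).filter (· ∈ Z), (1 / (m : ℝ)) + C) :=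
    mul_le_mul_of_nonneg_left h3 (by positivity)
  nlinarith [h1, h2, h4]

theorem lm_null_rel (Z E : Set ℕ) (ρ : ℕ → ℕ → Prop) (C : ℕ) (hZ : lm Z = 0) (h1 : ∀ x ∈ E, ∃ y ∈ Z, ρ x y ∧ y ≤ C * x)
    (h2 : ∀ x x' y, x ∈ E → x' ∈ E → ρ x y → ρ x' y → x = x') : lm E = 0 := by
  classical
  let ψ : ℕ → ℕ := fun x => if h : x ∈ E then (h1 x h).choose else 0
  have hψ : ∀ x ∈ E, ψ x ∈ Z ∧ ρ x (ψ x) ∧ ψ x ≤ C * x := by
    intro x hx
    have h3 : ψ x = (h1 x hx).choose := dif_pos hx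
    rw [h3]
    exact (h1 x hx).choose_spec
  have hinj : Set.InjOn ψ E := by
    intro x hx x' hx' he
    have h3 := (hψ x hx).2.1
    rw [he] at h3
    exact h2 x x' _ hx hx' h3 (hψ x' hx').2.1
  have hb : ∀ N : ℕ, 1 ≤ N → pd E N ≤ C * pd Z N + (1 + C ^ 2) / (∑ m ∈ range (N + 1), (1 / (m : ℝ))) := by
    intro N hN
    have h3 := num_le_h12 ψ C (fun x hx => (hψ x hx).1) (fun x hx => (hψ x hx).2.2) hinj N hN
    have h4 : 0 ≤ ∑ m ∈ range (N + 1), (1 / (m : ℝ)) := sum_nonneg fun m _ => by positivity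
    have h5 := div_le_div_of_nonneg_right h3 h4
    rw [add_div, mul_div_assoc] at h5
    unfold pd
    convert h5
  have hlim : Tendsto (fun N => (C : ℝ) * pd Z N + (1 + C ^ 2) / (∑ m ∈ range (N + 1), (1 / (m : ℝ))))
      (hyperfilter ℕ : Filter ℕ) (𝓝 ((C : ℝ) * 0 + 0)) := by
    have h3 := lm_tendsto Z
    rw [hZ] at h3
    refine (h3.const_mul (C : ℝ)).add ?_
    have h4 : Tendsto (fun N : ℕ => ((1 : ℝ) + C ^ 2) / (∑ m ∈ range (N + 1), (1 / (m : ℝ)))) atTop (𝓝 0) :=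
      HN_tendsto.const_div_atTop _
    exact h4.mono_left Nat.hyperfilter_le_atTop
  have hle : lm E ≤ C * 0 + 0 := by
    refine le_of_tendsto_of_tendsto (lm_tendsto E) hlim ?_
    have h3 : ∀ᶠ N : ℕ in (hyperfilter ℕ : Filter ℕ), 1 ≤ N :=
      Nat.hyperfilter_le_atTop (eventually_ge_atTop 1)
    filter_upwards [h3] with N hN using hb N hN
  have h3 := lm_nonneg E
  linarith

end Pool.Agent.Helper17.AB
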