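import Pool.Agent.Helper17.AB.Mean1

/-!
Block AB-M4b: sums (only `lm_sum_le`).

Paper proof. `lm_pos`: choose `j ≥ 1` with `C ≤ (c0 / 2) k^j`, put `a(L) = #(E ∩ [0, C k^L))`. For `L ≥ L0 + j` the set `E ∩ [C k^(L-j), C k^L)` has at least `c0 k^L - C k^(L-j) ≥ c0 k^L / 2` elements, each at most
`C k^L`, so it contributes at least `c0 / (2 C) =: c1` to `∑ 1/m`. Summing over `L = L0 + i j`, `i = 1, ..., I` (disjoint intervals): `∑_{m ∈ E, m < C k^(L0 + I j)} 1/m ≥ I c1`. For `N ≥ C k^L0` let `I` be maximal with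
`C k^(L0 + I j) ≤ N + 1`; then `N + 1 < C k^(L0 + (I + 1) j)`, so `H_N ≤ 1 + log (N + 1) ≤ 1 + log C + (L0 + (I+1) j) log k ≤ c2 (I + 1)` and `pd E N ≥ I c1 / (c2 (I + 1)) ≥ c1 / (2 c2)` once `I ≥ 1`. Pass to the limit.
(`Harmonic` facts: `harmonic_le_one_add_log`.)
`lm_sum_le`: `∑_{i ∈ s} pd (E i) N = (∑_{m ≤ N} #{i ∈ s | m ∈ E i} / m) / H_N ≤ K`; limit of a finite sum.
-/

open Finset Filter Topology

namespace Pool.Agent.Helper17.AB

theorem lm_sum_le {ι : Type} (s : Finset ι) (E : ι → Set ℕ) (K : ℝ) (hK : 0 ≤ K)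
    (h : ∀ m, (({i | i ∈ s ∧ m ∈ E i} : Set ι).ncard : ℝ) ≤ K) : ∑ i ∈ s, lm (E i) ≤ K := by
  classical
  have h1 : Tendsto (fun N => ∑ i ∈ s, pd (E i) N) (hyperfilter ℕ : Filter ℕ)
      (𝓝 (∑ i ∈ s, lm (E i))) := tendsto_finsetSum s fun i _ => lm_tendsto (E i)
  refine le_of_tendsto' h1 fun N => ?_
  have hH : 0 ≤ ∑ m ∈ range (N + 1), (1 / (m : ℝ)) :=
    Finset.sum_nonneg fun m _ => by positivity
  have h2 : ∑ i ∈ s, pd (E i) N =
      (∑ m ∈ range (N + 1), (({i ∈ s | m ∈ E i}.card : ℝ) * (1 / (m : ℝ)))) /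
        (∑ m ∈ range (N + 1), (1 / (m : ℝ))) := by
    unfold pd
    rw [← Finset.sum_div]
    congr 1
    have h3 : ∀ i ∈ s, (∑ m ∈ (range (N + 1)).filter (· ∈ E i), (1 / (m : ℝ))) =
        ∑ m ∈ range (N + 1), if m ∈ E i then (1 / (m : ℝ)) else 0 := fun i _ =>
      Finset.sum_filter _ _
    have h4 : ∑ i ∈ s, (∑ m ∈ (range (N + 1)).filter (· ∈ E i), (1 / (m : ℝ))) =
        ∑ m ∈ range (N + 1), (({i ∈ s | m ∈ E i}.card : ℝ) * (1 / (m : ℝ))) := by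
      rw [Finset.sum_congr rfl h3, Finset.sum_comm]
      refine Finset.sum_congr rfl fun m _ => ?_
      rw [← Finset.sum_filter, Finset.sum_const, nsmul_eq_mul]
    convert h4
  have h5 : ∑ m ∈ range (N + 1), (({i ∈ s | m ∈ E i}.card : ℝ) * (1 / (m : ℝ))) ≤
      K * ∑ m ∈ range (N + 1), (1 / (m : ℝ)) := by
    rw [Finset.mul_sum]
    refine Finset.sum_le_sum fun m _ => ?_
    apply mul_le_mul_of_nonneg_right _ (by positivity)
    have h6 := h m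
    have h7 : ({i | i ∈ s ∧ m ∈ E i} : Set ι) = (({i ∈ s | m ∈ E i} : Finset ι) : Set ι) := by
      ext i
      simp
    rw [h7, Set.ncard_coe_finset] at h6
    exact h6
  rw [h2]
  exact div_le_of_le_mul₀ hH hK h5

end Pool.Agent.Helper17.AB
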