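import Pool.Agent.Helper17.AB.AutB
import Pool.Agent.Helper17.AB.Mean2
import Pool.Agent.Helper17.AB.Mean4
import Pool.Agent.Helper17.AB.Mean4b
import Pool.Agent.Helper17.AB.RelA

/-!
Block AB-ZO: the mean density is `0` or `1`.

Paper proof. Let `δ = lm S`, `k` the base, `ε > 0` arbitrary; show `min δ (1 - δ) ≤ ε`. The values `v (n0 + D j)` form a finite set; choose a finite set `I` of indices with `{v (n0 + D j)} = {v (n0 + D i) | i ∈ I}`.
`Z = ⋃_{i ∈ I} XX k S 1 (n0 + D i) n0` is null (finite union; `lm_union_le`, induction; or `lm_sum_le`). Let `C ≥ 1` be such that `n0 + D i + 1 ≤ C` for `i ∈ I`. By `lm_pos` (contraposition, `c0 = ε`, `L0 = 0`) there is `L` with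
`#(Z ∩ [0, C k^L)) < ε k^L`. Put `m_j(M)`: for `M < k^L` say that `j` is bad for `M` if `¬ (k^L (n0 + D j) + M ∈ S ↔ k^L n0 + M ∈ S)`. For every `j` the number of `M < k^L` for which `j` is bad is `< ε k^L`: choose `i ∈ I` with
`v (n0 + D i) = v (n0 + D j)`; by `Aut.block` `j` is bad for `M` iff `i` is; and then `x = k^L (n0 + D i) + M ∈ Z`, `x < C k^L`, and `M ↦ x` is injective. For `M < k^L` let `E_M = {j | j bad for M}`. By hypothesis `hc` (`n = k^L n0 + M`,
`q = k^L D`: `k^L n0 + M + k^L D j = k^L (n0 + D j) + M`) `lm {j | k^L (n0 + D j) + M ∈ S} = δ`, so `lm E_M = δ` (if `k^L n0 + M ∉ S`) or `1 - δ` (`lm_add_compl`). `lm_sum_le`: `k^L min δ (1 - δ) ≤ ∑_{M < k^L} lm E_M ≤ ε k^L`.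
-/

open Finset Filter

namespace Pool.Agent.Helper17.AB

variable {k : ℕ} {V : Type} {v : ℕ → V} {S : Set ℕ}

private theorem null_biUnion_zo (I : Finset ℕ) (E : ℕ → Set ℕ) (h : ∀ i ∈ I, lm (E i) = 0) : lm (⋃ i ∈ I, E i) = 0 := by
  classical
  induction I using Finset.induction_on with
  | empty => simpa using lm_finite (Set.finite_empty)
  | insert a s ha ih =>
    rw [Finset.set_biUnion_insert]
    have h1 := lm_union_le (E a) (⋃ x ∈ s, E x)
    rw [h a (Finset.mem_insert_self a s), ih (fun i hi => h i (Finset.mem_insert_of_mem hi)), add_zero] at h1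
    exact le_antisymm h1 (lm_nonneg _)

/-- For every `ε > 0` the minimum of the density and its complement is at most `ε`. -/
private theorem zero_one_aux_zo (hS : Aut k v S) (hc : ∀ n q, 1 ≤ q → lm {m | n + q * m ∈ S} = lm S) {D n0 : ℕ}
    (hD : 1 ≤ D) (hn0 : 1 ≤ n0) (hR : ∀ j, RR k S 1 (n0 + D * j) n0) (ε : ℝ) (hε : 0 < ε) : min (lm S) (1 - lm S) ≤ ε := by
  classical
  have := hS.fin
  let _ : Fintype V := Fintype.ofFinite V
  have hk := hS.k2
  -- a finite set of representatives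
  let idx : V → ℕ := fun u => if h : ∃ j, v (n0 + D * j) = u then h.choose else 0
  have hidx : ∀ j, v (n0 + D * idx (v (n0 + D * j))) = v (n0 + D * j) := by
    intro j
    have h : ∃ j', v (n0 + D * j') = v (n0 + D * j) := ⟨j, rfl⟩
    have : idx (v (n0 + D * j)) = h.choose := dif_pos h
    rw [this]
    exact h.choose_spec
  let I : Finset ℕ := Finset.univ.image idx
  have hI : ∀ u, idx u ∈ I := fun u => Finset.mem_image_of_mem _ (Finset.mem_univ u)
  set Z : Set ℕ := ⋃ i ∈ I, XX k S 1 (n0 + D * i) n0 with hZ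
  have hZ0 : lm Z = 0 := null_biUnion_zo I _ (fun i _ => hR i)
  obtain ⟨B, hB⟩ : ∃ B, ∀ i ∈ I, i ≤ B := ⟨I.sup id, fun i hi => Finset.le_sup (f := id) hi⟩
  set C : ℕ := n0 + D * B + 1 with hC
  have hC1 : 1 ≤ C := by omega
  -- a level with few bad places
  obtain ⟨L, hL⟩ : ∃ L : ℕ, ((Z ∩ Set.Iio (C * k ^ L)).ncard : ℝ) < ε * (k : ℝ) ^ L := by
    by_contra hcon
    push Not at hcon
    have := lm_pos Z k C 0 ε hk hC1 hε (fun L _ => hcon L)
    rw [hZ0] at this
    exact lt_irrefl _ this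
  have hkL : 1 ≤ k ^ L := Nat.one_le_pow _ _ (by omega)
  let E : ℕ → Set ℕ := fun M => {j | ¬ (k ^ L * (n0 + D * j) + M ∈ S ↔ k ^ L * n0 + M ∈ S)}
  -- counting
  have hcount : ∀ j, (({M | M ∈ range (k ^ L) ∧ j ∈ E M} : Set ℕ).ncard : ℝ) ≤ ε * (k : ℝ) ^ L := by
    intro j
    set i := idx (v (n0 + D * j)) with hi
    have hiI : i ∈ I := hI _
    have hv : v (n0 + D * i) = v (n0 + D * j) := hidx j
    have hle : ({M | M ∈ range (k ^ L) ∧ j ∈ E M} : Set ℕ).ncard ≤ (Z ∩ Set.Iio (C * k ^ L)).ncard := by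
      apply Set.ncard_le_ncard_of_injOn (fun M => k ^ L * (n0 + D * i) + M)
      · rintro M ⟨hM, hjM⟩
        rw [Finset.mem_range] at hM
        have hblock := hS.block (n := n0 + D * i) (n' := n0 + D * j) (by omega) (by omega) hv L M hM
        refine ⟨?_, ?_⟩
        · rw [hZ]
          refine Set.mem_iUnion₂.2 ⟨i, hiI, L, M, by simpa using hM, by simp, ?_⟩
          simp only [one_mul]
          rw [hblock]
          exact hjM
        · rw [Set.mem_Iio]
          have h1 : D * i ≤ D * B := Nat.mul_le_mul_left _ (hB i hiI)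
          have h2 : k ^ L * (n0 + D * i + 1) ≤ k ^ L * C := Nat.mul_le_mul_left _ (by omega)
          calc k ^ L * (n0 + D * i) + M < k ^ L * (n0 + D * i) + k ^ L := by omega
            _ = k ^ L * (n0 + D * i + 1) := by ring
            _ ≤ k ^ L * C := h2
            _ = C * k ^ L := by ring
      · intro M _ M' _ h
        simpa using h
    calc (({M | M ∈ range (k ^ L) ∧ j ∈ E M} : Set ℕ).ncard : ℝ) ≤ ((Z ∩ Set.Iio (C * k ^ L)).ncard : ℝ) := by exact_mod_cast hle
      _ ≤ ε * (k : ℝ) ^ L := hL.le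
  have hsum := lm_sum_le (range (k ^ L)) E (ε * (k : ℝ) ^ L) (by positivity) hcount
  -- lower bound for each term
  have hlow : ∀ M ∈ range (k ^ L), min (lm S) (1 - lm S) ≤ lm (E M) := by
    intro M _
    have hprog : lm {m | k ^ L * (n0 + D * m) + M ∈ S} = lm S := by
      rw [← hc (k ^ L * n0 + M) (k ^ L * D) (Nat.one_le_iff_ne_zero.2 (by positivity))]
      congr 1
      ext m
      simp only [Set.mem_setOf_eq]
      rw [show k ^ L * n0 + M + k ^ L * D * m = k ^ L * (n0 + D * m) + M by ring]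
    by_cases hM : k ^ L * n0 + M ∈ S
    · have h1 : E M = {m | k ^ L * (n0 + D * m) + M ∈ S}ᶜ := by
        ext m
        simp only [E, Set.mem_setOf_eq, Set.mem_compl_iff, hM, iff_true]
      have h2 := lm_add_compl {m | k ^ L * (n0 + D * m) + M ∈ S}
      rw [← h1, hprog] at h2
      have h3 : lm (E M) = 1 - lm S := by linarith
      rw [h3]
      exact min_le_right _ _
    · have h1 : E M = {m | k ^ L * (n0 + D * m) + M ∈ S} := by
        ext m
        simp only [E, Set.mem_setOf_eq, hM, iff_false, not_not]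
      rw [h1, hprog]
      exact min_le_left _ _
  have h1 : (k : ℝ) ^ L * min (lm S) (1 - lm S) ≤ ε * (k : ℝ) ^ L := by
    calc (k : ℝ) ^ L * min (lm S) (1 - lm S) = ∑ M ∈ range (k ^ L), min (lm S) (1 - lm S) := by
          rw [Finset.sum_const, Finset.card_range, nsmul_eq_mul]; push_cast; ring
      _ ≤ ∑ M ∈ range (k ^ L), lm (E M) := Finset.sum_le_sum hlow
      _ ≤ ε * (k : ℝ) ^ L := hsum
  have h2 : (0 : ℝ) < (k : ℝ) ^ L := by
    have : (0 : ℝ) < k := by exact_mod_cast (show 0 < k by omega)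
    positivity
  nlinarith

theorem zero_one (hS : Aut k v S) (hc : ∀ n q, 1 ≤ q → lm {m | n + q * m ∈ S} = lm S) {D n0 : ℕ} (hD : 1 ≤ D) (hn0 : 1 ≤ n0)
    (hR : ∀ j, RR k S 1 (n0 + D * j) n0) : lm S = 0 ∨ lm S = 1 := by
  have h1 : min (lm S) (1 - lm S) ≤ 0 := by
    apply le_of_forall_pos_le_add
    intro ε hε
    rw [zero_add]
    exact zero_one_aux_zo hS hc hD hn0 hR ε hε
  have h2 : 0 ≤ lm S := lm_nonneg S
  have h3 : 0 ≤ 1 - lm S := by
    have := lm_add_compl S
    have := lm_nonneg Sᶜ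
    linarith
  rcases min_le_iff.1 h1 with h | h
  · exact Or.inl (le_antisymm h h2)
  · exact Or.inr (by linarith)

end Pool.Agent.Helper17.AB
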