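import Pool.Agent.Helper17.AB.MainA
import Pool.Agent.Helper17.AB.FinB
import Pool.Agent.Helper17.AB.Zero
import Pool.Agent.Helper17.AB.Period

/-!
Block AB-MAb: assembly (only `main`).

Paper proofs.
* `aut_of`: let `L` be regular; `L.reverse` is regular (`Language.IsRegular.reverse`), let `M` be a DFA for it with finite state set; `v n = M.eval (Nat.digits k n).reverse`, `V` the state type. `out`: `n ∈ S ↔ digits ∈ L ↔ (digits).reverse ∈ L.reverse = M.accepts`.
  `step`: for `n ≥ 1`, `d < k`: `Nat.digits k (k n + d) = d :: Nat.digits k n` (`Nat.digits_add_two_add_one` / `Nat.digits_add`), the reverse is `(digits k n).reverse ++ [d]`, `DFA.eval_append_singleton`.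
* `main`: `k = 2^a 3^b ≥ 2`. `period` and `zero_one` (with `lm_const`): `lm S = 0` or `1`. If `0`: `null_finite` for `sysT`: `S` finite. If `1`: `lm Sᶜ = 0` (`lm_add_compl`), `null_finite` for `sysU` (`p = 3`, `p' = 2`, exponents `b`, `a`; the base is
  `3^b 2^a`) and `Sᶜ`: `{n ∈ Sᶜ | U n ∉ Sᶜ}` is the image under `T` of `{m ∈ S | T m ∉ S}`: finite.
* `inv`: if `T n ∈ S` for all `n ∈ S`: `S` finite: `T` is injective and maps the finite set `S` into itself, so onto itself: `T n ∈ S → n ∈ S`. `Sᶜ` finite: `U` maps `Sᶜ` into itself, so onto itself, so `T` maps `Sᶜ` into itself.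
-/

open Finset Filter

namespace Pool.Agent.Helper17.AB

theorem main {a b : ℕ} (hab : 1 ≤ a + b) {L : Language ℕ} (hL : L.IsRegular) {S : Set ℕ}
    (hS : ∀ n, n ∈ S ↔ Nat.digits (2 ^ a * 3 ^ b) n ∈ L) (hT : {n | n ∈ S ∧ T n ∉ S}.Finite) : S.Finite ∨ Sᶜ.Finite := by
  have hk : 2 ≤ 2 ^ a * 3 ^ b := by
    have h2 : 1 ≤ 3 ^ b := Nat.one_le_pow _ _ (by norm_num)
    rcases Nat.eq_zero_or_pos a with h | h
    · have hb : b ≠ 0 := by omega
      have h3 : 3 ≤ 3 ^ b := Nat.le_self_pow hb 3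
      rw [h, pow_zero, one_mul]
      omega
    · have h1 : 2 ≤ 2 ^ a := Nat.le_self_pow (by omega) 2
      nlinarith
  obtain ⟨V, v, hA⟩ := aut_of hk hL hS
  obtain ⟨D, n0, hD, hn0, hR⟩ := period hA hT
  rcases zero_one hA (fun n q hq => lm_const hA hT n q hq) hD hn0 hR with h0 | h1
  · exact Or.inl (null_finite sysT hab hA h0 hT)
  · right
    have h2 : lm Sᶜ = 0 := by linarith [lm_add_compl S]
    have hA' : Aut (3 ^ b * 2 ^ a) v Sᶜ := by
      rw [mul_comm]
      exact hA.compl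
    refine null_finite sysU (by omega) hA' h2 ((hT.image T).subset ?_)
    rintro n ⟨hn, hU⟩
    refine ⟨U n, ⟨not_not.1 hU, ?_⟩, sysT.FG n⟩
    rw [sysT.FG n]
    exact hn

end Pool.Agent.Helper17.AB
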