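import Pool.Agent.Helper17.AB.Defs

/-!
Block AB-M1: first properties of the logarithmic mean.

Paper proof. `pd E N` lies in `[0, 1]` (a sum over a subset divided by the full sum; for `N = 0` it is `0 / 0 = 0`), so by compactness the ultrafilter `map (pd E) (hyperfilter ℕ)`
converges (`isCompact_Icc.ultrafilter_le_nhds` for the ultrafilter `(hyperfilter ℕ).map (pd E)`), and `lim` is its limit (`le_nhds_lim`). The others follow by passing to the limit
(`le_of_tendsto_of_tendsto'`, `tendsto_nhds_unique`) in the corresponding (in)equalities for `pd`: `pd E N ≤ pd F N` if `E ⊆ F`, `pd (E ∪ F) N ≤ pd E N + pd F N`,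
with equality if `E`, `F` are disjoint, `pd E N + pd Eᶜ N = 1` for `N ≥ 1` (eventually along the hyperfilter, `Filter.hyperfilter_le_atTop` or `Nat.hyperfilter_le_atTop`), and `pd E N ≤ C / H_N → 0` for `E` finite
(`H_N = ∑_{m ≤ N} 1/m → ∞`, `Real.tendsto_sum_range_one_div_nat_succ_atTop`).
-/

open Finset Filter Topology

namespace Pool.Agent.Helper17.AB

theorem HN_tendsto : Tendsto (fun N : ℕ => ∑ m ∈ range (N + 1), (1 / (m : ℝ))) atTop atTop := by
  have h : (fun N : ℕ => ∑ m ∈ range (N + 1), (1 / (m : ℝ))) = fun N : ℕ => ∑ i ∈ range N, (1 / ((i : ℝ) + 1)) := by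
    funext N
    rw [Finset.sum_range_succ']
    simp
  rw [h]
  exact Real.tendsto_sum_range_one_div_nat_succ_atTop

theorem pd_nonneg (E : Set ℕ) (N : ℕ) : 0 ≤ pd E N := by
  unfold pd
  exact div_nonneg (sum_nonneg fun m _ => by positivity) (sum_nonneg fun m _ => by positivity)

theorem pd_le_one (E : Set ℕ) (N : ℕ) : pd E N ≤ 1 := by
  classical
  unfold pd
  exact div_le_one_of_le₀ (sum_le_sum_of_subset_of_nonneg (filter_subset _ _) fun m _ _ => by positivity)
    (sum_nonneg fun m _ => by positivity)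

theorem lm_tendsto (E : Set ℕ) : Tendsto (pd E) (hyperfilter ℕ : Filter ℕ) (𝓝 (lm E)) := by
  have h1 : (((hyperfilter ℕ).map (pd E) : Ultrafilter ℝ) : Filter ℝ) ≤ Filter.principal (Set.Icc 0 1) := by
    rw [Filter.le_principal_iff]
    exact Filter.mem_map.2 (Filter.univ_mem' fun N => ⟨pd_nonneg E N, pd_le_one E N⟩)
  obtain ⟨x, -, hx⟩ := isCompact_Icc.ultrafilter_le_nhds _ h1
  exact le_nhds_lim ⟨x, hx⟩

theorem lm_nonneg (E : Set ℕ) : 0 ≤ lm E := by
  exact ge_of_tendsto' (lm_tendsto E) (pd_nonneg E)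

private theorem pd_mono26 {E F : Set ℕ} (h : E ⊆ F) (N : ℕ) : pd E N ≤ pd F N := by
  classical
  unfold pd
  refine div_le_div_of_nonneg_right ?_ (sum_nonneg fun m _ => by positivity)
  refine sum_le_sum_of_subset_of_nonneg ?_ fun m _ _ => by positivity
  intro m hm
  rw [mem_filter] at hm ⊢
  exact ⟨hm.1, h hm.2⟩

private theorem pd_union_disj26 {E F : Set ℕ} (h : Disjoint E F) (N : ℕ) : pd (E ∪ F) N = pd E N + pd F N := by
  classical
  unfold pd
  rw [← add_div]
  congr 1
  rw [← sum_union]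
  · refine sum_congr ?_ fun _ _ => rfl
    ext m
    simp only [mem_filter, mem_union, Set.mem_union]
    tauto
  · rw [Finset.disjoint_left]
    intro m hm hm'
    rw [mem_filter] at hm hm'
    exact Set.disjoint_left.1 h hm.2 hm'.2

private theorem pd_union_le26 (E F : Set ℕ) (N : ℕ) : pd (E ∪ F) N ≤ pd E N + pd F N := by
  have h1 : pd (E ∪ F) N = pd E N + pd (F \ E) N := by
    rw [← pd_union_disj26 Set.disjoint_sdiff_right, Set.union_sdiff_self]
  rw [h1]
  have := pd_mono26 (Set.sdiff_subset : F \ E ⊆ F) N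
  linarith

theorem lm_mono {E F : Set ℕ} (h : E ⊆ F) : lm E ≤ lm F := by
  exact le_of_tendsto_of_tendsto' (lm_tendsto E) (lm_tendsto F) fun N => pd_mono26 h N

theorem lm_union_le (E F : Set ℕ) : lm (E ∪ F) ≤ lm E + lm F := by
  exact le_of_tendsto_of_tendsto' (lm_tendsto _) ((lm_tendsto E).add (lm_tendsto F)) fun N => pd_union_le26 E F N

theorem lm_union_disj {E F : Set ℕ} (h : Disjoint E F) : lm (E ∪ F) = lm E + lm F := by
  refine tendsto_nhds_unique (lm_tendsto _) (((lm_tendsto E).add (lm_tendsto F)).congr fun N => ?_)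
  exact (pd_union_disj26 h N).symm

theorem lm_add_compl (E : Set ℕ) : lm E + lm Eᶜ = 1 := by
  rw [← lm_union_disj disjoint_compl_right, Set.union_compl_self]
  refine tendsto_nhds_unique (lm_tendsto _) ?_
  refine tendsto_const_nhds.congr' ?_
  have h1 : ∀ᶠ N : ℕ in (hyperfilter ℕ : Filter ℕ), 1 ≤ N := Nat.hyperfilter_le_atTop (eventually_ge_atTop 1)
  filter_upwards [h1] with N hN
  have h2 : pd Set.univ N = (∑ m ∈ range (N + 1), (1 / (m : ℝ))) / (∑ m ∈ range (N + 1), (1 / (m : ℝ))) := by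
    classical
    unfold pd
    congr 1
    refine sum_congr ?_ fun _ _ => rfl
    ext m
    simp
  rw [h2, div_self]
  refine ne_of_gt (lt_of_lt_of_le one_pos ?_)
  calc (1 : ℝ) = 1 / ((1 : ℕ) : ℝ) := by norm_num
    _ ≤ ∑ m ∈ range (N + 1), (1 / (m : ℝ)) :=
      single_le_sum (f := fun m : ℕ => (1 / (m : ℝ))) (fun m _ => by positivity) (mem_range.2 (by omega))

theorem lm_finite {E : Set ℕ} (h : E.Finite) : lm E = 0 := by
  classical
  refine le_antisymm ?_ (lm_nonneg E)
  have h1 : Tendsto (fun N : ℕ => (∑ m ∈ h.toFinset, (1 / (m : ℝ))) / ∑ m ∈ range (N + 1), (1 / (m : ℝ)))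
      (hyperfilter ℕ : Filter ℕ) (𝓝 0) := (HN_tendsto.const_div_atTop _).mono_left Nat.hyperfilter_le_atTop
  refine le_of_tendsto_of_tendsto' (lm_tendsto E) h1 fun N => ?_
  unfold pd
  refine div_le_div_of_nonneg_right ?_ (sum_nonneg fun m _ => by positivity)
  refine sum_le_sum_of_subset_of_nonneg ?_ fun m _ _ => by positivity
  intro m hm
  rw [mem_filter] at hm
  exact h.mem_toFinset.2 hm.2

end Pool.Agent.Helper17.AB
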