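import Pool.Agent.Helper17.AB.Aff

/-!
Block AB-TR: transitivity modulo `P` prime to `6`.

Paper proof. In `ZMod P` let `R = {z | ∃ h a, X ≤ h ∧ a ≡ n0 [MOD p^X P] ∧ (F^[h] a : ZMod P) = z}`. It is nonempty (`h = X`, `a = n0`). If `z ∈ R` with `(h, a)`, let `w = p'^(sm F e h a) P`, prime to `p`; for
`a' = a + p^(sm F c h a) (P K)` one has `F^[h] a' = F^[h] a + w K` (`Sys.iter`) and `a' ≡ n0 [MOD p^X P]` (`sm F c h a ≥ h ≥ X`). By `br` (with `n = F^[h] a`) one can choose `K` such that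
`p^c0 F^[h+1] a' + 1 = p'^e0 F^[h] a'`, and another with `p^c0 F^[h+1] a' = p'^e0 F^[h] a' + 1`. Hence `R` is mapped into itself by `g1 z = (p'^e0 z - 1) / p^c0` and `g2 z = (p'^e0 z + 1) / p^c0` (`p, p'` are units of
`ZMod P`). `g1` is injective, so `g1 '' R = R` (`R` finite), and `g2 z = g1 z + 2 / p^c0`: `R + τ ⊆ R` with `τ = 2 / p^c0` a unit (`P` is odd). So `R` is everything: from `z0 ∈ R`, `z0 + i τ ∈ R` for all naturals `i`,
and `i = (z - z0) / τ` (as `ZMod.val`). `P = 1` is fine (`ZMod 1` is trivial); use `NeZero P`.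
-/

open Finset Filter

namespace Pool.Agent.Helper17.AB

variable {p p' : ℕ} {F G c e : ℕ → ℕ}

theorem Sys.tr (h : Sys p p' F G c e) (P X n0 z : ℕ) (hP : 1 ≤ P) (hc : P.Coprime 6) :
    ∃ j a : ℕ, X ≤ j ∧ a ≡ n0 [MOD p ^ X * P] ∧ F^[j] a ≡ z [MOD P] := by
  classical
  have hne : NeZero P := ⟨by omega⟩
  have hP2 : P.Coprime 2 := Nat.Coprime.coprime_dvd_right (by norm_num : 2 ∣ 6) hc
  have hP3 : P.Coprime 3 := Nat.Coprime.coprime_dvd_right (by norm_num : 3 ∣ 6) hc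
  have hPp : P.Coprime p := by
    rcases h.pp with ⟨h1, h2⟩ | ⟨h1, h2⟩
    · rw [h1]; exact hP2
    · rw [h1]; exact hP3
  have hPp' : P.Coprime p' := by
    rcases h.pp with ⟨h1, h2⟩ | ⟨h1, h2⟩
    · rw [h2]; exact hP3
    · rw [h2]; exact hP2
  have hpp' : p'.Coprime p := by
    rcases h.pp with ⟨h1, h2⟩ | ⟨h1, h2⟩
    · rw [h1, h2]; norm_num
    · rw [h1, h2]; norm_num
  obtain ⟨c0, e0, hbr⟩ := h.br
  set R : Set (ZMod P) := {y | ∃ j a : ℕ, X ≤ j ∧ a ≡ n0 [MOD p ^ X * P] ∧ ((F^[j] a : ℕ) : ZMod P) = y} with hR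
  set up : (ZMod P)ˣ := ZMod.unitOfCoprime (p ^ c0) (Nat.Coprime.pow_left c0 hPp.symm) with hup
  set up' : (ZMod P)ˣ := ZMod.unitOfCoprime (p' ^ e0) (Nat.Coprime.pow_left e0 hPp'.symm) with hup'
  set u2 : (ZMod P)ˣ := ZMod.unitOfCoprime 2 hP2.symm with hu2
  have eup : (up : ZMod P) = (p : ZMod P) ^ c0 := by rw [hup, ZMod.coe_unitOfCoprime, Nat.cast_pow]
  have eup' : (up' : ZMod P) = (p' : ZMod P) ^ e0 := by rw [hup', ZMod.coe_unitOfCoprime, Nat.cast_pow]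
  have eu2 : (u2 : ZMod P) = 2 := by rw [hu2, ZMod.coe_unitOfCoprime]; norm_num
  have key : ∀ y ∈ R, ((up⁻¹ : (ZMod P)ˣ) : ZMod P) * ((up' : ZMod P) * y - 1) ∈ R ∧
      ((up⁻¹ : (ZMod P)ˣ) : ZMod P) * ((up' : ZMod P) * y + 1) ∈ R := by
    rintro y ⟨j, a, hj, ha, rfl⟩
    have hw : (p' ^ sm F e j a * P).Coprime p := Nat.Coprime.mul_left (Nat.Coprime.pow_left _ hpp') hPp
    have hsm : j ≤ sm F c j a := (sm_bounds h.c1 h.c2 j a).1
    have h1 : ∀ K : ℕ, F^[j] (a + p ^ sm F c j a * (P * K)) = F^[j] a + p' ^ sm F e j a * P * K := fun K => by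
      rw [h.iter j a (P * K), mul_assoc]
    have h2 : ∀ K : ℕ, a + p ^ sm F c j a * (P * K) ≡ n0 [MOD p ^ X * P] := fun K => by
      refine Nat.ModEq.trans ?_ ha
      have h3 : p ^ X * P ∣ p ^ sm F c j a * (P * K) := by
        rw [← mul_assoc]
        exact Dvd.dvd.mul_right (Nat.mul_dvd_mul_right (pow_dvd_pow p (hj.trans hsm)) P) K
      have h4 : a + p ^ sm F c j a * (P * K) ≡ a + 0 [MOD p ^ X * P] :=
        Nat.ModEq.add_left a ((Nat.modEq_zero_iff_dvd).2 h3)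
      exact h4
    have h5 : ∀ K : ℕ, ((F^[j] a + p' ^ sm F e j a * P * K : ℕ) : ZMod P) = ((F^[j] a : ℕ) : ZMod P) := fun K => by
      push_cast
      rw [ZMod.natCast_self, mul_zero, zero_mul, add_zero]
    obtain ⟨⟨K1, hK1⟩, ⟨K2, hK2⟩⟩ := hbr (F^[j] a) (p' ^ sm F e j a * P) hw
    refine ⟨⟨j + 1, a + p ^ sm F c j a * (P * K1), by omega, h2 K1, ?_⟩,
      ⟨j + 1, a + p ^ sm F c j a * (P * K2), by omega, h2 K2, ?_⟩⟩
    · rw [Function.iterate_succ_apply', h1]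
      have h6 := congrArg (Nat.cast : ℕ → ZMod P) hK1
      rw [Nat.cast_add, Nat.cast_mul, Nat.cast_mul, h5, Nat.cast_pow, Nat.cast_pow, ← eup, ← eup', Nat.cast_one] at h6
      rw [← h6, add_sub_cancel_right, Units.inv_mul_cancel_left]
    · rw [Function.iterate_succ_apply', h1]
      have h6 := congrArg (Nat.cast : ℕ → ZMod P) hK2
      rw [Nat.cast_add, Nat.cast_mul, Nat.cast_mul, h5, Nat.cast_pow, Nat.cast_pow, ← eup, ← eup', Nat.cast_one] at h6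
      rw [← h6, Units.inv_mul_cancel_left]
  have hinj : Function.Injective fun y : ZMod P => ((up⁻¹ : (ZMod P)ˣ) : ZMod P) * ((up' : ZMod P) * y - 1) := by
    intro x y hxy
    have h1 := (Units.mul_right_inj _).1 hxy
    exact (Units.mul_right_inj _).1 (sub_left_injective h1)
  have hbij := ((Set.toFinite R).injOn_iff_bijOn_of_mapsTo (fun y hy => (key y hy).1)).1 hinj.injOn
  have hstep : ∀ y ∈ R, y + ((up⁻¹ * u2 : (ZMod P)ˣ) : ZMod P) ∈ R := by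
    intro y hy
    obtain ⟨x, hx, hxy⟩ := hbij.surjOn hy
    have h1 := (key x hx).2
    have h2 : ((up⁻¹ : (ZMod P)ˣ) : ZMod P) * ((up' : ZMod P) * x + 1) = y + ((up⁻¹ * u2 : (ZMod P)ˣ) : ZMod P) := by
      rw [← hxy, Units.val_mul, eu2]
      ring
    rwa [h2] at h1
  have hz0 : ((F^[X] n0 : ℕ) : ZMod P) ∈ R := ⟨X, n0, le_rfl, Nat.ModEq.refl _, rfl⟩
  have hit : ∀ i : ℕ, ((F^[X] n0 : ℕ) : ZMod P) + (i : ZMod P) * ((up⁻¹ * u2 : (ZMod P)ˣ) : ZMod P) ∈ R := by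
    intro i
    induction i with
    | zero => rw [Nat.cast_zero, zero_mul, add_zero]; exact hz0
    | succ i ih =>
      have h1 := hstep _ ih
      rwa [add_assoc, ← add_one_mul, ← Nat.cast_succ] at h1
  have h1 := hit ((((z : ZMod P) - ((F^[X] n0 : ℕ) : ZMod P)) * (((up⁻¹ * u2)⁻¹ : (ZMod P)ˣ) : ZMod P)).val)
  rw [ZMod.natCast_zmod_val, Units.inv_mul_cancel_right, add_sub_cancel] at h1
  obtain ⟨j, a, hj, ha, hz⟩ := h1
  exact ⟨j, a, hj, ha, (ZMod.natCast_eq_natCast_iff _ _ _).1 hz⟩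

end Pool.Agent.Helper17.AB
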